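import Pool.Agent.W649.ZL.Fam

set_option autoImplicit false
set_option linter.unusedSectionVars false

open scoped InnerProductSpace InnerProduct ENNReal

/-! Ascending chain condition for the kernel dimensions, generic values. -/

namespace Pool.Agent.W649.ZL

open Module MvPolynomial

universe u v w z

section
variable {G : Type u} {I : Type v} {J : Type w} [Group G] [Fintype I] [Fintype J]
variable {ι : Type z} [Fintype ι]

/-- kernel dimension of the member `p` of the family -/
noncomputable def kd (A : ι → EE G J →L[ℂ] EE G I) (p : ι → ℂ) : ℝ :=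
  vd (LinearMap.ker (lin A p : EE G J →ₗ[ℂ] EE G I))

/-- In every nonempty set of coefficient vectors the kernel dimension has a maximum. -/
theorem acc (A : ι → EE G J →L[ℂ] EE G I) (hA : ∀ i, Eqv (A i)) (S : Set (ι → ℂ))
    (hS : S.Nonempty) : ∃ p ∈ S, ∀ q ∈ S, kd A q ≤ kd A p := by
  let C : Set (Ideal (MvPolynomial ι ℂ)) :=
    {P | ∃ p ∈ S, P = vanishingIdeal ℂ (locus A (kd A p))}
  obtain ⟨p0, hp0⟩ := hS
  obtain ⟨P, ⟨p, hp, rfl⟩, hmax⟩ := set_has_maximal_iff_noetherian.2
    (inferInstance : IsNoetherian (MvPolynomial ι ℂ) (MvPolynomial ι ℂ)) C ⟨_, p0, hp0, rfl⟩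
  refine ⟨p, hp, fun q hq => ?_⟩
  by_contra hcon
  push Not at hcon
  have hsub : locus A (kd A q) ⊆ locus A (kd A p) := fun x hx => hcon.le.trans hx
  have hle : vanishingIdeal ℂ (locus A (kd A p)) ≤ vanishingIdeal ℂ (locus A (kd A q)) :=
    vanishingIdeal_anti_mono hsub
  have heq : vanishingIdeal ℂ (locus A (kd A p)) = vanishingIdeal ℂ (locus A (kd A q)) := by
    by_contra hne
    exact hmax _ ⟨q, hq, rfl⟩ (lt_of_le_of_ne hle hne)
  have hloc : locus A (kd A p) = locus A (kd A q) := by
    rw [← locus_closed A hA (kd A p), ← locus_closed A hA (kd A q), heq]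
  have hmem : p ∈ locus A (kd A p) := le_refl (kd A p)
  rw [hloc] at hmem
  have h1 : kd A q ≤ kd A p := hmem
  linarith

/-- a set of reals in which every nonempty subset has a maximum is countable -/
theorem countable_of_max (V : Set ℝ) (h : ∀ W ⊆ V, W.Nonempty → ∃ x ∈ W, ∀ y ∈ W, y ≤ x) :
    V.Countable := by
  classical
  -- the next smaller element
  let W : ℝ → Set ℝ := fun v => {w ∈ V | w < v}
  let nx : ℝ → ℝ := fun v => if hW : (W v).Nonempty then
    (h (W v) (fun _ hw => hw.1) hW).choose else v - 1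
  have hnx : ∀ v, nx v < v := by
    intro v
    simp only [nx]
    split_ifs with hW
    · exact (h (W v) (fun _ hw => hw.1) hW).choose_spec.1.2
    · linarith
  have hnx2 : ∀ v, ∀ w ∈ V, w < v → w ≤ nx v := by
    intro v w hw hwv
    simp only [nx]
    have hW : (W v).Nonempty := ⟨w, hw, hwv⟩
    rw [dif_pos hW]
    exact (h (W v) (fun _ hw => hw.1) hW).choose_spec.2 w ⟨hw, hwv⟩
  -- the open intervals below the elements are disjoint
  have hdis : (fun v => -v) '' V = {x | -x ∈ V} := by
    ext x
    constructor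
    · rintro ⟨v, hv, rfl⟩; simpa using hv
    · intro hx; exact ⟨-x, hx, neg_neg x⟩
  have hc : ((fun v => -v) '' V).Countable := by
    rw [hdis]
    apply Set.PairwiseDisjoint.countable_of_Ioo (y := fun x => - nx (-x))
    · intro x hx y hy hxy
      rw [Function.onFun, Set.disjoint_left]
      rintro z ⟨hz1, hz2⟩ ⟨hz3, hz4⟩
      rcases lt_or_gt_of_ne hxy with hlt | hlt
      · have := hnx2 (-x) (-y) hy (by linarith)
        linarith
      · have := hnx2 (-y) (-x) hx (by linarith)
        linarith
    · intro x _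
      have := hnx (-x)
      linarith
  exact Set.countable_of_injective_of_countable_image neg_injective.injOn hc

/-- The set of the kernel dimensions of the members of a family is countable. -/
theorem kd_countable (A : ι → EE G J →L[ℂ] EE G I) (hA : ∀ i, Eqv (A i)) :
    (Set.range (kd A)).Countable := by
  apply countable_of_max
  intro W hW hne
  have hS : {p | kd A p ∈ W}.Nonempty := by
    obtain ⟨w, hw⟩ := hne
    obtain ⟨p, hp⟩ := hW hw
    exact ⟨p, by rw [Set.mem_ofPred_eq, hp]; exact hw⟩
  obtain ⟨p, hp, hmax⟩ := acc A hA _ hS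
  refine ⟨kd A p, hp, fun y hy => ?_⟩
  obtain ⟨q, rfl⟩ := hW hy
  exact hmax q hy

/-- Generic upper bound: the value at one point bounds the kernel dimension outside a countable
union of hypersurfaces. -/
theorem generic_le (A : ι → EE G J →L[ℂ] EE G I) (hA : ∀ i, Eqv (A i)) (p0 : ι → ℂ) :
    ∃ P : ℕ → MvPolynomial ι ℂ, (∀ n, P n ≠ 0) ∧
      ∀ p, (∀ n, eval p (P n) ≠ 0) → kd A p ≤ kd A p0 := by
  have h1 : ∀ n : ℕ, ∃ P : MvPolynomial ι ℂ, P ∈ vanishingIdeal ℂ
      (locus A (kd A p0 + 1 / ((n : ℝ) + 1))) ∧ eval p0 P ≠ 0 := by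
    intro n
    by_contra hcon
    push Not at hcon
    have h2 : p0 ∈ zeroLocus ℂ (vanishingIdeal ℂ (locus A (kd A p0 + 1 / ((n : ℝ) + 1)))) := by
      intro P hP
      rw [aeval_ev]
      exact hcon P hP
    rw [locus_closed A hA] at h2
    have h3 : kd A p0 + 1 / ((n : ℝ) + 1) ≤ kd A p0 := h2
    have h4 : (0 : ℝ) < 1 / ((n : ℝ) + 1) := by positivity
    linarith
  choose P hP hP0 using h1
  refine ⟨P, fun n h => hP0 n (by rw [h, map_zero]), fun p hp => ?_⟩
  by_contra hcon
  push Not at hcon
  obtain ⟨n, hn⟩ := exists_nat_one_div_lt (sub_pos.2 hcon)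
  apply hp n
  rw [← aeval_ev]
  apply hP n
  change kd A p0 + 1 / ((n : ℝ) + 1) ≤ kd A p
  linarith

end

/-! Coordinate subspaces. -/

section
variable {G : Type u} {I : Type v} {J : Type w} [Group G] [Fintype I] [Fintype J]

/-- the vectors which vanish outside the coordinates in `S` -/
def cosub (G : Type u) [Group G] (S : Finset J) : Submodule ℂ (EE G J) where
  carrier := {f | ∀ x : G, ∀ j, j ∉ S → f (x, j) = 0}
  add_mem' := by
    intro f g hf hg x j hj
    have h1 : (f + g) (x, j) = f (x, j) + g (x, j) := rfl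
    rw [h1, hf x j hj, hg x j hj, add_zero]
  zero_mem' := fun _ _ _ => rfl
  smul_mem' := by
    intro c f hf x j hj
    have h1 : (c • f) (x, j) = c * f (x, j) := rfl
    rw [h1, hf x j hj, mul_zero]

theorem cosub_inv (S : Finset J) : Inv (cosub G S) := by
  intro k f hf x j hj
  exact hf (x * k) j hj

theorem apply_isClosed (x : G × J) : IsClosed {f : EE G J | f x = 0} := by
  have h : {f : EE G J | f x = 0} = {f : EE G J | ⟪dl x, f⟫_ℂ = 0} := by
    ext f
    rw [Set.mem_ofPred_eq, Set.mem_ofPred_eq, inner_dl_left]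
  rw [h]
  exact isClosed_singleton.preimage (continuous_const.inner continuous_id)

theorem cosub_closed (S : Finset J) : IsClosed (cosub G S : Set (EE G J)) := by
  have h : (cosub G S : Set (EE G J)) = ⋂ x : G, ⋂ j : J, ⋂ _ : j ∉ S, {f : EE G J | f (x, j) = 0} := by
    ext f
    simp only [Set.mem_iInter]
    rfl
  rw [h]
  exact isClosed_iInter fun x => isClosed_iInter fun j => isClosed_iInter fun _ => apply_isClosed _

theorem vd_cosub (S : Finset J) : vd (cosub G S) = S.card := by
  classical
  have hc : CompleteSpace (cosub G S) := (cosub_closed (G := G) S).completeSpace_coe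
  rw [vd_eq _ _ (topcl_eq (cosub_closed (G := G) S))]
  have h1 : ∀ j, (cosub G S).starProjection (dl ((1 : G), j))
      = if j ∈ S then dl ((1 : G), j) else 0 := by
    intro j
    split_ifs with hj
    · apply Submodule.starProjection_eq_self_iff.2
      intro x j' hj'
      apply dl_apply_ne
      intro h
      have : j' = j := congrArg Prod.snd h
      exact hj' (by rw [this]; exact hj)
    · apply (Submodule.starProjection_apply_eq_zero_iff _).2
      rw [Submodule.mem_orthogonal]
      intro f hf
      rw [inner_dl_right, hf 1 j hj, map_zero]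
  calc _ = ∑ j : J, if j ∈ S then (1 : ℝ) else 0 := by
        refine Finset.sum_congr rfl fun j _ => ?_
        rw [h1]
        split_ifs
        · rw [norm_dl, one_pow]
        · rw [norm_zero]; norm_num
    _ = S.card := by simp

/-- the bound from a block of zeros -/
theorem zero_block (T : EE G J →L[ℂ] EE G I) (hT : Eqv T) (S : Finset J) (N : Finset I)
    (h : ∀ f ∈ cosub G S, T f ∈ cosub G N) :
    (S.card : ℝ) - N.card ≤ vd (LinearMap.ker (T : EE G J →ₗ[ℂ] EE G I)) := by
  have h1 := rank_nullity T hT (cosub_inv (G := G) S) (cosub_closed (G := G) S)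
  rw [vd_cosub] at h1
  have h2 : vd (cosub G S ⊓ LinearMap.ker (T : EE G J →ₗ[ℂ] EE G I))
      ≤ vd (LinearMap.ker (T : EE G J →ₗ[ℂ] EE G I)) := vd_mono inf_le_right
  have h3 : vd ((cosub G S).map (T : EE G J →ₗ[ℂ] EE G I)) ≤ N.card := by
    rw [← vd_cosub (G := G) N]
    apply vd_mono
    rintro y ⟨f, hf, rfl⟩
    exact h f hf
  linarith

end

end Pool.Agent.W649.ZL
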