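import Mathlib

set_option autoImplicit false

/-! Polynomials in two variables: degrees, Taylor coefficients at points, interpolation. -/

namespace Pool.Agent.W649.ZL

open Module MvPolynomial

/-- polynomials in two variables -/
abbrev R2 := MvPolynomial (Fin 2) ℂ

/-- the exponents of degree less than `s` -/
noncomputable def Bs (s : ℕ) : Finset (Fin 2 →₀ ℕ) :=
  ((Finset.range s).sigma (fun i => Finset.range (s - i))).image
    (fun x => Finsupp.single 0 x.1 + Finsupp.single 1 x.2)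

theorem degree_two (n : Fin 2 →₀ ℕ) : n.degree = n 0 + n 1 := by
  rw [Finsupp.degree_eq_sum, Fin.sum_univ_two]

theorem mem_Bs (s : ℕ) (n : Fin 2 →₀ ℕ) : n ∈ Bs s ↔ n.degree < s := by
  unfold Bs
  rw [Finset.mem_image, degree_two]
  constructor
  · rintro ⟨⟨a, b⟩, h, rfl⟩
    rw [Finset.mem_sigma, Finset.mem_range, Finset.mem_range] at h
    simp at h ⊢
    omega
  · intro h
    refine ⟨⟨n 0, n 1⟩, ?_, ?_⟩
    · rw [Finset.mem_sigma, Finset.mem_range, Finset.mem_range]
      constructor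
      · change n 0 < s; omega
      · change n 1 < s - n 0; omega
    · ext i
      fin_cases i <;> simp

theorem card_Bs (s : ℕ) : (Bs s).card * 2 = s * (s + 1) := by
  unfold Bs
  rw [Finset.card_image_of_injective, Finset.card_sigma]
  · have h : ∀ i ∈ Finset.range s, (Finset.range (s - i)).card = s - i := fun i _ =>
      Finset.card_range _
    rw [Finset.sum_congr rfl h]
    have h2 : ∑ i ∈ Finset.range s, (s - i) = ∑ i ∈ Finset.range (s + 1), i := by
      rw [← Finset.sum_range_reflect, Finset.sum_range_succ']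
      simp only [add_zero]
      apply Finset.sum_congr rfl
      intro i hi
      rw [Finset.mem_range] at hi
      omega
    rw [h2, Finset.sum_range_id_mul_two]
    simp [mul_comm]
  · rintro ⟨a, b⟩ ⟨c, d⟩ h
    have h0 := DFunLike.congr_fun h 0
    have h1 := DFunLike.congr_fun h 1
    simp at h0 h1
    rw [h0, h1]

/-- the exponents of degree `m - 1` -/
theorem card_top (m : ℕ) (hm : 1 ≤ m) : ((Bs m).filter (fun n => n.degree = m - 1)).card = m := by
  have h1 : (Bs m).filter (fun n => n.degree = m - 1) = Bs m \ Bs (m - 1) := by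
    ext n
    rw [Finset.mem_filter, Finset.mem_sdiff, mem_Bs, mem_Bs]
    omega
  have h2 : Bs (m - 1) ⊆ Bs m := by
    intro n hn
    rw [mem_Bs] at hn ⊢
    omega
  rw [h1, Finset.card_sdiff_of_subset h2]
  have h3 := card_Bs m
  have h4 := card_Bs (m - 1)
  obtain ⟨k, rfl⟩ : ∃ k, m = k + 1 := ⟨m - 1, by omega⟩
  simp only [Nat.add_sub_cancel] at h4 ⊢
  have h5 : (k + 1) * (k + 1 + 1) = k * (k + 1) + 2 * (k + 1) := by ring
  rw [h5] at h3
  omega

/-- the polynomials of degree less than `s` -/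
def PP (s : ℕ) : Submodule ℂ R2 where
  carrier := {f | ∀ n, s ≤ n.degree → coeff n f = 0}
  add_mem' := by
    intro f g hf hg n hn
    rw [coeff_add, hf n hn, hg n hn, add_zero]
  zero_mem' := by
    intro n _; exact coeff_zero n
  smul_mem' := by
    intro c f hf n hn
    rw [coeff_smul, hf n hn, smul_zero]

theorem mem_PP (s : ℕ) (f : R2) : f ∈ PP s ↔ ∀ n, s ≤ n.degree → coeff n f = 0 := Iff.rfl

theorem PP_mono {s t : ℕ} (h : s ≤ t) : PP s ≤ PP t := fun _ hf n hn => hf n (h.trans hn)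

theorem mem_PP_totalDegree (f : R2) : f ∈ PP (f.totalDegree + 1) := by
  intro n hn
  by_contra hne
  have h1 := le_totalDegree (mem_support_iff.2 hne)
  have h2 : (n.sum fun _ e => e) = n.degree := rfl
  rw [h2] at h1
  omega

theorem totalDegree_lt_of_mem {s : ℕ} {f : R2} (hf : f ∈ PP s) (h0 : f ≠ 0) :
    f.totalDegree < s := by
  have hs : 0 < s := by
    by_contra hcon
    apply h0
    ext n
    rw [coeff_zero]
    exact hf n (by omega)
  unfold totalDegree
  rw [Finset.sup_lt_iff hs]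
  intro n hn
  by_contra hcon
  push Not at hcon
  exact (mem_support_iff.1 hn) (hf n hcon)

theorem mul_mem_PP {a b : ℕ} {f g : R2} (hf : f.totalDegree ≤ a) (hg : g ∈ PP b) :
    f * g ∈ PP (a + b) := by
  by_cases h0 : g = 0
  · rw [h0, mul_zero]; exact Submodule.zero_mem _
  · have h1 := totalDegree_lt_of_mem hg h0
    have h2 := totalDegree_mul f g
    exact PP_mono (by omega) (mem_PP_totalDegree (f * g))

theorem mul_mem_PP_iff {s : ℕ} {f g : R2} (hf : f ≠ 0) (hs : f.totalDegree ≤ s) :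
    f * g ∈ PP s ↔ g ∈ PP (s - f.totalDegree) := by
  constructor
  · intro h
    by_cases h0 : g = 0
    · rw [h0]; exact Submodule.zero_mem _
    · have h1 := totalDegree_lt_of_mem h (mul_ne_zero hf h0)
      rw [totalDegree_mul_of_isDomain hf h0] at h1
      exact PP_mono (by omega) (mem_PP_totalDegree g)
  · intro h
    exact PP_mono (by omega) (mul_mem_PP le_rfl h)

/-- coordinates on `PP s` -/
noncomputable def PPequiv (s : ℕ) : PP s ≃ₗ[ℂ] (Bs s → ℂ) where
  toFun f b := coeff b f.1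
  map_add' f g := by ext b; exact coeff_add _ _ _
  map_smul' c f := by ext b; exact coeff_smul _ _ _
  invFun c := ⟨∑ b : Bs s, monomial b.1 (c b), by
    intro n hn
    rw [coeff_sum]
    apply Finset.sum_eq_zero
    intro b _
    rw [coeff_monomial, if_neg]
    rintro rfl
    have := (mem_Bs s _).1 b.2
    omega⟩
  left_inv f := by
    apply Subtype.ext
    ext n
    change coeff n (∑ b : Bs s, monomial b.1 (coeff b.1 f.1)) = coeff n f.1
    rw [coeff_sum]
    by_cases hn : n ∈ Bs s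
    · rw [Finset.sum_eq_single (⟨n, hn⟩ : Bs s)]
      · rw [coeff_monomial, if_pos rfl]
      · intro b _ hb
        rw [coeff_monomial, if_neg]
        intro h; exact hb (Subtype.ext h)
      · intro h; exact absurd (Finset.mem_univ _) h
    · rw [Finset.sum_eq_zero]
      · rw [mem_Bs] at hn
        exact (f.2 n (by omega)).symm
      · intro b _
        rw [coeff_monomial, if_neg]
        intro h; exact hn (by rw [← h]; exact b.2)
  right_inv c := by
    ext b
    change coeff b.1 (∑ b : Bs s, monomial b.1 (c b)) = c b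
    rw [coeff_sum, Finset.sum_eq_single b]
    · rw [coeff_monomial, if_pos rfl]
    · intro b' _ hb
      rw [coeff_monomial, if_neg]
      intro h; exact hb (Subtype.ext h)
    · intro h; exact absurd (Finset.mem_univ _) h

instance (s : ℕ) : FiniteDimensional ℂ (PP s) := (PPequiv s).symm.finiteDimensional

theorem finrank_PP (s : ℕ) : finrank ℂ (PP s) = (Bs s).card := by
  rw [(PPequiv s).finrank_eq, finrank_fintype_fun_eq_card, Fintype.card_coe]

/-- translation of the argument -/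
noncomputable def shift (p : Fin 2 → ℂ) : R2 →ₐ[ℂ] R2 := aeval (fun i => X i + C (p i))

theorem coeff_zero_shift (p : Fin 2 → ℂ) (f : R2) : coeff 0 (shift p f) = eval p f := by
  have h1 : coeff 0 (shift p f) = eval 0 (shift p f) := by
    rw [eval_zero, ← constantCoeff_eq]
  rw [h1]
  have h2 : (aeval (0 : Fin 2 → ℂ)).comp (shift p) = aeval (R := ℂ) p := by
    apply algHom_ext
    intro i
    rw [AlgHom.comp_apply]
    unfold shift
    simp
  have h3 := DFunLike.congr_fun h2 f
  rw [AlgHom.comp_apply] at h3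
  exact h3

/-- the ideal of a point -/
noncomputable def mI (p : Fin 2 → ℂ) : Ideal R2 := RingHom.ker (eval p)

theorem shift_mem_pow (p : Fin 2 → ℂ) (m : ℕ) (f : R2) (hf : f ∈ (mI p) ^ m) (n : Fin 2 →₀ ℕ)
    (hn : n.degree < m) : coeff n (shift p f) = 0 := by
  have h1 : (mI p).map (shift p) ≤ idealOfVars (Fin 2) ℂ := by
    rw [Ideal.map_le_iff_le_comap]
    intro g hg
    rw [Ideal.mem_comap, ← pow_one (idealOfVars (Fin 2) ℂ), mem_pow_idealOfVars_iff']
    intro x hx
    have hx0 : x = 0 := by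
      rw [← Finsupp.degree_eq_zero_iff]; omega
    rw [hx0, coeff_zero_shift]
    exact hg
  have h2 : shift p f ∈ idealOfVars (Fin 2) ℂ ^ m := by
    have h3 : shift p f ∈ ((mI p) ^ m).map (shift p) := Ideal.mem_map_of_mem _ hf
    rw [Ideal.map_pow] at h3
    exact Ideal.pow_right_mono h1 m h3
  exact (mem_pow_idealOfVars_iff' _ _).1 h2 n hn

theorem mI_coprime (p q : Fin 2 → ℂ) (h : p ≠ q) : IsCoprime (mI p) (mI q) := by
  obtain ⟨i, hi⟩ := Function.ne_iff.1 h
  rw [Ideal.isCoprime_iff_exists]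
  have hne : q i - p i ≠ 0 := sub_ne_zero.2 (Ne.symm hi)
  refine ⟨C (q i - p i)⁻¹ * (X i - C (p i)), ?_, C (q i - p i)⁻¹ * (C (q i) - X i), ?_, ?_⟩
  · change eval p _ = 0
    simp
  · change eval q _ = 0
    simp
  · have : C (q i - p i)⁻¹ * (X i - C (p i)) + C (q i - p i)⁻¹ * (C (q i) - X i)
        = (C ((q i - p i)⁻¹ * (q i - p i)) : R2) := by
      rw [C_mul, C_sub]
      ring
    rw [this, inv_mul_cancel₀ hne, C_1]

/-- the inverse translation -/
theorem shift_shift_neg (p : Fin 2 → ℂ) (f : R2) : shift p (shift (-p) f) = f := by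
  have h : (shift p).comp (shift (-p)) = AlgHom.id ℂ R2 := by
    apply algHom_ext
    intro i
    rw [AlgHom.comp_apply]
    unfold shift
    simp
  exact DFunLike.congr_fun h f

/-- interpolation of the Taylor coefficients of order less than `m p` at the points `p ∈ S` -/
theorem interpolation (S : Finset (Fin 2 → ℂ)) (m : (Fin 2 → ℂ) → ℕ)
    (w : (p : (Fin 2 → ℂ)) → (Fin 2 →₀ ℕ) → ℂ) :
    ∃ f : R2, ∀ p ∈ S, ∀ n, n.degree < m p → coeff n (shift p f) = w p n := by
  let I : S → Ideal R2 := fun p => (mI p.1) ^ (m p.1)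
  have hI : Pairwise (Function.onFun IsCoprime I) := by
    intro p q hpq
    apply IsCoprime.pow
    exact mI_coprime _ _ (fun h => hpq (Subtype.ext h))
  let g : S → R2 := fun p => shift (-p.1) (∑ b : Bs (m p.1), monomial b.1 (w p.1 b.1))
  obtain ⟨y, hy⟩ := Ideal.quotientInfToPiQuotient_surj hI (fun p => Ideal.Quotient.mk (I p) (g p))
  obtain ⟨f, rfl⟩ := Ideal.Quotient.mk_surjective y
  refine ⟨f, fun p hp n hn => ?_⟩
  have h1 := congrFun hy ⟨p, hp⟩
  have h2 : Ideal.Quotient.mk (I ⟨p, hp⟩) f = Ideal.Quotient.mk (I ⟨p, hp⟩) (g ⟨p, hp⟩) := h1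
  rw [Ideal.Quotient.eq] at h2
  have h3 := shift_mem_pow p (m p) _ h2 n hn
  rw [map_sub, coeff_sub, sub_eq_zero] at h3
  rw [h3]
  simp only [g]
  rw [shift_shift_neg, coeff_sum, Finset.sum_eq_single (⟨n, (mem_Bs _ _).2 hn⟩ : Bs (m p))]
  · rw [coeff_monomial, if_pos rfl]
  · intro b _ hb
    rw [coeff_monomial, if_neg]
    intro h; exact hb (Subtype.ext h)
  · intro h; exact absurd (Finset.mem_univ _) h

/-- the Taylor coefficients of order less than `m p` at the points `p ∈ S` -/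
noncomputable def TS (S : Finset (Fin 2 → ℂ)) (m : (Fin 2 → ℂ) → ℕ) :
    R2 →ₗ[ℂ] (((p : S) × Bs (m p.1)) → ℂ) :=
  LinearMap.pi fun x => (lcoeff ℂ x.2.1) ∘ₗ (shift x.1.1).toLinearMap

theorem TS_apply (S : Finset (Fin 2 → ℂ)) (m : (Fin 2 → ℂ) → ℕ) (f : R2)
    (x : (p : S) × Bs (m p.1)) : TS S m f x = coeff x.2.1 (shift x.1.1 f) := rfl

theorem TS_surjective (S : Finset (Fin 2 → ℂ)) (m : (Fin 2 → ℂ) → ℕ) :
    Function.Surjective (TS S m) := by
  classical
  intro w
  obtain ⟨f, hf⟩ := interpolation S m (fun p n =>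
    if h : p ∈ S ∧ n ∈ Bs (m p) then w ⟨⟨p, h.1⟩, ⟨n, h.2⟩⟩ else 0)
  refine ⟨f, ?_⟩
  funext x
  obtain ⟨⟨p, hp⟩, ⟨n, hn⟩⟩ := x
  rw [TS_apply]
  have h1 := hf p hp n ((mem_Bs _ _).1 hn)
  rw [h1, dif_pos ⟨hp, hn⟩]

theorem TS_surjective_PP (S : Finset (Fin 2 → ℂ)) (m : (Fin 2 → ℂ) → ℕ) :
    ∃ s0 : ℕ, ∀ s, s0 ≤ s → Function.Surjective ((TS S m).domRestrict (PP s)) := by
  classical
  choose g hg using fun x : ((p : S) × Bs (m p.1)) => TS_surjective S m (Pi.single x 1)
  refine ⟨Finset.univ.sup (fun x => (g x).totalDegree + 1), fun s hs w => ?_⟩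
  refine ⟨⟨∑ x, w x • g x, Submodule.sum_mem _ fun x _ => Submodule.smul_mem _ _ ?_⟩, ?_⟩
  · exact PP_mono ((Finset.le_sup (f := fun x => (g x).totalDegree + 1)
      (Finset.mem_univ x)).trans hs) (mem_PP_totalDegree _)
  · rw [LinearMap.domRestrict_apply]
    change TS S m (∑ x, w x • g x) = w
    rw [map_sum]
    have : ∀ x, TS S m (w x • g x) = w x • Pi.single x (1 : ℂ) := fun x => by
      rw [map_smul, hg]
    rw [Finset.sum_congr rfl fun x _ => this x]
    funext y
    rw [Finset.sum_apply]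
    simp [Pi.single_apply]

/-- the polynomials of degree less than `s` vanishing to order `m p` at `p ∈ S` -/
noncomputable def WI (S : Finset (Fin 2 → ℂ)) (m : (Fin 2 → ℂ) → ℕ) (s : ℕ) : Submodule ℂ R2 :=
  PP s ⊓ LinearMap.ker (TS S m)

theorem card_sigma_Bs (S : Finset (Fin 2 → ℂ)) (m : (Fin 2 → ℂ) → ℕ) :
    Fintype.card ((p : S) × Bs (m p.1)) = ∑ p ∈ S, (Bs (m p)).card := by
  rw [Fintype.card_sigma, ← Finset.sum_coe_sort S (fun p => (Bs (m p)).card)]
  simp

theorem finrank_WI (S : Finset (Fin 2 → ℂ)) (m : (Fin 2 → ℂ) → ℕ) (s : ℕ)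
    (h : Function.Surjective ((TS S m).domRestrict (PP s))) :
    finrank ℂ (WI S m s) + ∑ p ∈ S, (Bs (m p)).card = (Bs s).card := by
  have h1 := LinearMap.finrank_range_add_finrank_ker ((TS S m).domRestrict (PP s))
  rw [LinearMap.range_eq_top.2 h, finrank_top, finrank_fintype_fun_eq_card, card_sigma_Bs,
    finrank_PP] at h1
  have h2 : WI S m s = (LinearMap.ker ((TS S m).domRestrict (PP s))).map (PP s).subtype := by
    unfold WI
    rw [← Submodule.map_comap_subtype]
    rfl
  rw [h2, Submodule.finrank_map_subtype_eq]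
  omega

/-- a polynomial vanishing to high order at the points of `S` -/
theorem exists_vanishing (S : Finset (Fin 2 → ℂ)) (m : (Fin 2 → ℂ) → ℕ) (s : ℕ)
    (h : ∑ p ∈ S, (Bs (m p)).card < (Bs s).card) :
    ∃ F : R2, F ≠ 0 ∧ F.totalDegree < s ∧ ∀ p ∈ S, ∀ n, n.degree < m p →
      coeff n (shift p F) = 0 := by
  have h1 : LinearMap.ker ((TS S m).domRestrict (PP s)) ≠ ⊥ := by
    apply LinearMap.ker_ne_bot_of_finrank_lt
    rw [finrank_fintype_fun_eq_card, card_sigma_Bs, finrank_PP]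
    exact h
  obtain ⟨⟨F, hF⟩, hker, hne⟩ := Submodule.exists_mem_ne_zero_of_ne_bot h1
  have hF0 : F ≠ 0 := fun h0 => hne (Subtype.ext h0)
  refine ⟨F, hF0, totalDegree_lt_of_mem hF hF0, fun p hp n hn => ?_⟩
  have h2 : TS S m F = 0 := hker
  exact congrFun h2 ⟨⟨p, hp⟩, ⟨n, (mem_Bs _ _).2 hn⟩⟩

/-- the multiples of `F` of degree less than `s` -/
noncomputable def WF (F : R2) (s : ℕ) : Submodule ℂ R2 :=
  PP s ⊓ LinearMap.range (LinearMap.mulLeft ℂ F)

theorem finrank_WF (F : R2) (hF : F ≠ 0) (s : ℕ) (hs : F.totalDegree ≤ s) :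
    finrank ℂ (WF F s) = (Bs (s - F.totalDegree)).card := by
  have h1 : WF F s = (PP (s - F.totalDegree)).map (LinearMap.mulLeft ℂ F) := by
    ext f
    constructor
    · rintro ⟨hf, g, rfl⟩
      exact ⟨g, (mul_mem_PP_iff hF hs).1 hf, rfl⟩
    · rintro ⟨g, hg, rfl⟩
      exact ⟨(mul_mem_PP_iff hF hs).2 hg, g, rfl⟩
  rw [h1, ← finrank_PP]
  exact (Submodule.equivMapOfInjective (LinearMap.mulLeft ℂ F) (mul_right_injective₀ hF)
    (PP (s - F.totalDegree))).finrank_eq.symm

end Pool.Agent.W649.ZL
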