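import Pool.Agent.W649.ZL.Alg

set_option autoImplicit false

/-! Injectivity of linear families of operators over the coordinate ring of a curve with a good
point, and divisibility. -/

namespace Pool.Agent.W649.ZL

open Module TensorProduct

universe u v w z

section
variable {E : Type u} {E' : Type v} [AddCommGroup E] [Module ℂ E] [AddCommGroup E'] [Module ℂ E']
variable {ι : Type z} [Fintype ι]
variable {R : Type w} [CommRing R] [Algebra ℂ R]

/-- the family of operators with the coefficients `x` -/
noncomputable def opT (A : ι → E →ₗ[ℂ] E') (x : ι → R) : E ⊗[ℂ] R →ₗ[ℂ] E' ⊗[ℂ] R :=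
  ∑ k, TensorProduct.map (A k) (LinearMap.mulLeft ℂ (x k))

theorem opT_tmul (A : ι → E →ₗ[ℂ] E') (x : ι → R) (e : E) (r : R) :
    opT A x (e ⊗ₜ r) = ∑ k, A k e ⊗ₜ (x k * r) := by
  unfold opT
  rw [LinearMap.sum_apply]
  rfl

/-- the coefficient of a tensor given by a functional on the second factor -/
noncomputable def cf (φ : R →ₗ[ℂ] ℂ) : E ⊗[ℂ] R →ₗ[ℂ] E :=
  (TensorProduct.rid ℂ E).toLinearMap ∘ₗ LinearMap.lTensor E φ

theorem cf_tmul (φ : R →ₗ[ℂ] ℂ) (e : E) (r : R) : cf φ (e ⊗ₜ[ℂ] r) = φ r • e := by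
  simp [cf]

/-- the evaluation of a tensor at a functional on the first factor -/
noncomputable def ef {N : Type w} [AddCommGroup N] [Module ℂ N] (l : E →ₗ[ℂ] ℂ) :
    E ⊗[ℂ] N →ₗ[ℂ] N :=
  (TensorProduct.lid ℂ N).toLinearMap ∘ₗ LinearMap.rTensor N l

theorem ef_tmul {N : Type w} [AddCommGroup N] [Module ℂ N] (l : E →ₗ[ℂ] ℂ) (e : E) (r : N) :
    ef l (e ⊗ₜ[ℂ] r) = l e • r := by
  simp [ef]

theorem cf_ef (φ : R →ₗ[ℂ] ℂ) (l : E →ₗ[ℂ] ℂ) (w : E ⊗[ℂ] R) : φ (ef l w) = l (cf φ w) := by
  induction w using TensorProduct.induction_on with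
  | zero => simp
  | tmul e r => rw [ef_tmul, cf_tmul, map_smul, map_smul, smul_eq_mul, smul_eq_mul, mul_comm]
  | add a b ha hb => rw [map_add, map_add, map_add, map_add, ha, hb]

theorem eq_zero_of_ef {N : Type w} [AddCommGroup N] [Module ℂ N] (t : E ⊗[ℂ] N)
    (h : ∀ l : E →ₗ[ℂ] ℂ, ef l t = 0) : t = 0 := by
  classical
  let C := Basis.ofVectorSpace ℂ N
  have key : ∀ (t : E ⊗[ℂ] N) (l : E →ₗ[ℂ] ℂ) (i : _),
      C.repr (ef l t) i = l (TensorProduct.equivFinsuppOfBasisRight C t i) := by
    intro t l i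
    induction t using TensorProduct.induction_on with
    | zero => simp
    | tmul e r =>
      rw [ef_tmul, TensorProduct.equivFinsuppOfBasisRight_apply_tmul_apply, map_smul, map_smul,
        Finsupp.smul_apply, smul_eq_mul, smul_eq_mul, mul_comm]
    | add a b ha hb =>
      rw [map_add, map_add, map_add, Finsupp.add_apply, Finsupp.add_apply, map_add, ha, hb]
  apply (TensorProduct.equivFinsuppOfBasisRight C).injective
  rw [map_zero]
  ext i
  rw [Finsupp.zero_apply]
  rw [← Module.forall_dual_apply_eq_zero_iff ℂ]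
  intro l
  have h1 := key t l i
  rw [h l] at h1
  simpa using h1.symm

/-- Injectivity over a domain with a good point. -/
theorem opT_injective [IsDomain R] [IsNoetherianRing R] (A : ι → E →ₗ[ℂ] E') (x : ι → R)
    (ev : R →ₐ[ℂ] ℂ) (h : Function.Injective (∑ k, ev (x k) • A k : E →ₗ[ℂ] E')) :
    Function.Injective (opT A x) := by
  classical
  rw [injective_iff_map_eq_zero]
  intro t ht
  let F : ℕ → Submodule ℂ R := fun e => ((RingHom.ker ev) ^ e).restrictScalars ℂ
  have hanti : Antitone F := fun a b hab => by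
    intro f hf
    exact Ideal.pow_le_pow_right hab hf
  have hinf : ⨅ e : ℕ, (RingHom.ker ev) ^ e = ⊥ := by
    apply Ideal.iInf_pow_eq_bot_of_isDomain
    intro htop
    have h1 : (1 : R) ∈ RingHom.ker ev := by
      rw [htop]; exact Submodule.mem_top
    rw [RingHom.mem_ker, map_one] at h1
    exact one_ne_zero h1
  have hF : ⨅ e, F e = ⊥ := by
    rw [eq_bot_iff]
    intro f hf
    rw [Submodule.mem_iInf] at hf
    have : f ∈ (⨅ e : ℕ, (RingHom.ker ev) ^ e : Ideal R) := by
      rw [Submodule.mem_iInf]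
      exact hf
    rw [hinf] at this
    exact this
  -- a finite dimensional space
  obtain ⟨s, hs⟩ := TensorProduct.exists_finset t
  let V : Submodule ℂ R := Submodule.span ℂ ((s.image Prod.snd : Finset R) : Set R)
  have hVfin : FiniteDimensional ℂ V := FiniteDimensional.span_finset ℂ _
  obtain ⟨v, e, -, he, hv, hve, hadapt⟩ := exists_adapted F hanti hF (finrank ℂ V) V rfl 0 (by
    intro f _
    change f ∈ (RingHom.ker ev) ^ 0
    rw [pow_zero, Ideal.one_eq_top]; exact Submodule.mem_top)
  have hli : LinearIndependent ℂ v := by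
    rw [Fintype.linearIndependent_iff]
    intro c hc
    have : ∀ n : ℕ, ∀ b : Fin (finrank ℂ V), b.1 = n → c b = 0 := by
      intro n
      induction n using Nat.strong_induction_on with
      | _ n ih =>
        intro b hb
        apply hadapt b c (fun b' hb' => ih b'.1 (by rw [← hb]; exact hb') b' rfl)
        rw [hc]; exact Submodule.zero_mem _
    exact fun b => this b.1 b rfl
  have hspan : Submodule.span ℂ (Set.range v) = V := by
    apply Submodule.eq_of_le_of_finrank_eq
    · rw [Submodule.span_le]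
      rintro _ ⟨b, rfl⟩
      exact hv b
    · rw [finrank_span_eq_card hli, Fintype.card_fin]
  -- expand `t`
  obtain ⟨u, hu⟩ : ∃ u : Fin (finrank ℂ V) → E, t = ∑ b, u b ⊗ₜ[ℂ] v b := by
    have hex : ∀ i ∈ s, ∃ c : Fin (finrank ℂ V) → ℂ, ∑ b, c b • v b = i.2 := by
      intro i hi
      rw [← Submodule.mem_span_range_iff_exists_fun, hspan]
      exact Submodule.subset_span (Finset.mem_coe.2 (Finset.mem_image_of_mem _ hi))
    choose! c hc using hex
    refine ⟨fun b => ∑ i ∈ s, c i b • i.1, ?_⟩
    rw [hs]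
    simp_rw [TensorProduct.sum_tmul]
    rw [Finset.sum_comm]
    refine Finset.sum_congr rfl fun i hi => ?_
    conv_lhs => rw [← hc i hi]
    rw [TensorProduct.tmul_sum]
    refine Finset.sum_congr rfl fun b _ => ?_
    rw [TensorProduct.tmul_smul, TensorProduct.smul_tmul']
  have hzero : ∀ n : ℕ, ∀ b : Fin (finrank ℂ V), b.1 = n → u b = 0 := by
    intro n
    induction n using Nat.strong_induction_on with
    | _ n ih =>
      intro b hb
      have hlow : ∀ b', b' < b → u b' = 0 := fun b' hb' => ih b'.1 (by rw [← hb]; exact hb') b' rfl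
      have hker : (∑ k, ev (x k) • A k) (u b) = 0 := by
        rw [← Module.forall_dual_apply_eq_zero_iff ℂ]
        intro l
        have h1 : ef l (opT A x t) = 0 := by rw [ht, map_zero]
        rw [hu, map_sum, map_sum] at h1
        have h2 : ∀ b', ef l (opT A x (u b' ⊗ₜ[ℂ] v b')) = ∑ k, l (A k (u b')) • (x k * v b') := by
          intro b'
          rw [opT_tmul, map_sum]
          exact Finset.sum_congr rfl fun k _ => ef_tmul _ _ _
        rw [Finset.sum_congr rfl fun b' _ => h2 b'] at h1
        have h3 : ∀ b', (l ((∑ k, ev (x k) • A k) (u b'))) • v b'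
            = (∑ k, l (A k (u b')) • (x k * v b'))
              + ∑ k, l (A k (u b')) • ((algebraMap ℂ R (ev (x k)) - x k) * v b') := by
          intro b'
          rw [← Finset.sum_add_distrib, LinearMap.sum_apply, map_sum, Finset.sum_smul]
          refine Finset.sum_congr rfl fun k _ => ?_
          rw [LinearMap.smul_apply, map_smul, smul_eq_mul, mul_comm, mul_smul, ← smul_add]
          congr 1
          rw [Algebra.smul_def]
          ring
        refine hadapt b (fun b' => l ((∑ k, ev (x k) • A k) (u b'))) ?_ ?_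
        · intro b' hb'
          change l ((∑ k, ev (x k) • A k) (u b')) = 0
          rw [hlow b' hb', map_zero, map_zero]
        · rw [Finset.sum_congr rfl fun b' _ => h3 b', Finset.sum_add_distrib, h1, zero_add]
          apply Submodule.sum_mem
          intro b' _
          by_cases hlt : b' < b
          · rw [hlow b' hlt]; simp
          · push Not at hlt
            apply Submodule.sum_mem
            intro k _
            apply Submodule.smul_mem
            change _ ∈ (RingHom.ker ev) ^ (e b + 1)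
            rw [pow_succ']
            apply Ideal.mul_mem_mul
            · rw [RingHom.mem_ker, map_sub, AlgHom.commutes]
              simp
            · exact hanti (he hlt) (hve b')
      rw [← map_zero (∑ k, ev (x k) • A k)] at hker
      exact h hker
  rw [hu]
  apply Finset.sum_eq_zero
  intro b _
  rw [hzero b.1 b rfl, TensorProduct.zero_tmul]

/-- the multiples of `f` -/
noncomputable def mulT (E : Type u) [AddCommGroup E] [Module ℂ E] (f : R) :
    E ⊗[ℂ] R →ₗ[ℂ] E ⊗[ℂ] R := LinearMap.lTensor E (LinearMap.mulLeft ℂ f)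

theorem mulT_tmul (f : R) (e : E) (r : R) : mulT E f (e ⊗ₜ r) = e ⊗ₜ (f * r) := by
  simp [mulT]

theorem mulT_mul (f g : R) (t : E ⊗[ℂ] R) : mulT E (f * g) t = mulT E f (mulT E g t) := by
  induction t using TensorProduct.induction_on with
  | zero => simp
  | tmul e r => rw [mulT_tmul, mulT_tmul, mulT_tmul, mul_assoc]
  | add a b ha hb => rw [map_add, map_add, map_add, ha, hb]

theorem opT_mulT (A : ι → E →ₗ[ℂ] E') (x : ι → R) (f : R) (t : E ⊗[ℂ] R) :
    opT A x (mulT E f t) = mulT E' f (opT A x t) := by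
  induction t using TensorProduct.induction_on with
  | zero => simp
  | tmul e r =>
    rw [mulT_tmul, opT_tmul, opT_tmul, map_sum]
    refine Finset.sum_congr rfl fun k _ => ?_
    rw [mulT_tmul]
    congr 1
    ring
  | add a b ha hb => rw [map_add, map_add, map_add, map_add, ha, hb]

theorem mulT_injective [IsDomain R] (f : R) (hf : f ≠ 0) : Function.Injective (mulT E f) := by
  unfold mulT
  apply Module.Flat.lTensor_preserves_injective_linearMap
  exact mul_right_injective₀ hf

theorem mem_mulT_iff (f : R) (t : E ⊗[ℂ] R) :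
    (∃ t', mulT E f t' = t) ↔ ∀ l : E →ₗ[ℂ] ℂ, f ∣ ef l t := by
  constructor
  · rintro ⟨t', rfl⟩ l
    refine ⟨ef l t', ?_⟩
    induction t' using TensorProduct.induction_on with
    | zero => simp
    | tmul e r => rw [mulT_tmul, ef_tmul, ef_tmul, mul_smul_comm]
    | add a b ha hb => rw [map_add, map_add, map_add, ha, hb, mul_add]
  · intro h
    let I : Ideal R := Ideal.span {f}
    have hex : Function.Exact (LinearMap.mulLeft ℂ f) ((Ideal.Quotient.mkₐ ℂ I).toLinearMap) := by
      intro r
      constructor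
      · intro hr
        have h1 : Ideal.Quotient.mk I r = 0 := hr
        rw [Ideal.Quotient.eq_zero_iff_mem, Ideal.mem_span_singleton] at h1
        obtain ⟨c, rfl⟩ := h1
        exact ⟨c, rfl⟩
      · rintro ⟨c, rfl⟩
        change Ideal.Quotient.mk I (f * c) = 0
        rw [Ideal.Quotient.eq_zero_iff_mem, Ideal.mem_span_singleton]
        exact ⟨c, rfl⟩
    have hsur : Function.Surjective ((Ideal.Quotient.mkₐ ℂ I).toLinearMap) :=
      Ideal.Quotient.mk_surjective
    have hT := lTensor_exact E hex hsur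
    apply (hT t).1
    apply eq_zero_of_ef
    intro l
    have h1 : ∀ t : E ⊗[ℂ] R, ef l (LinearMap.lTensor E (Ideal.Quotient.mkₐ ℂ I).toLinearMap t)
        = Ideal.Quotient.mk I (ef l t) := by
      intro t
      induction t using TensorProduct.induction_on with
      | zero => simp
      | tmul e r =>
        rw [LinearMap.lTensor_tmul, ef_tmul, ef_tmul]
        rfl
      | add a b ha hb => rw [map_add, map_add, map_add, map_add, ha, hb]
    rw [h1, Ideal.Quotient.eq_zero_iff_mem, Ideal.mem_span_singleton]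
    exact h l

theorem opT_quot (A : ι → E →ₗ[ℂ] E') (x : ι → R) (I : Ideal R) (t : E ⊗[ℂ] R) :
    LinearMap.lTensor E' (Ideal.Quotient.mkₐ ℂ I).toLinearMap (opT A x t)
      = opT A (fun k => Ideal.Quotient.mk I (x k))
        (LinearMap.lTensor E (Ideal.Quotient.mkₐ ℂ I).toLinearMap t) := by
  induction t using TensorProduct.induction_on with
  | zero => simp
  | tmul e r =>
    rw [LinearMap.lTensor_tmul, opT_tmul, opT_tmul, map_sum]
    rfl
  | add a b ha hb => rw [map_add, map_add, map_add, map_add, ha, hb]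

/-- Divisibility by a prime element whose zero set contains a good point. -/
theorem dvd_of_prime [IsDomain R] [IsNoetherianRing R] (A : ι → E →ₗ[ℂ] E') (x : ι → R) (f : R)
    (hf : Prime f) (ev : R →ₐ[ℂ] ℂ) (hev : ev f = 0)
    (h : Function.Injective (∑ k, ev (x k) • A k : E →ₗ[ℂ] E')) (t : E ⊗[ℂ] R)
    (ht : ∃ t', mulT E' f t' = opT A x t) : ∃ t', mulT E f t' = t := by
  let I : Ideal R := Ideal.span {f}
  have hI : I.IsPrime := (Ideal.span_singleton_prime hf.ne_zero).2 hf
  have hdom : IsDomain (R ⧸ I) := Ideal.Quotient.isDomain I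
  have hex : Function.Exact (LinearMap.mulLeft ℂ f) ((Ideal.Quotient.mkₐ ℂ I).toLinearMap) := by
    intro r
    constructor
    · intro hr
      have h1 : Ideal.Quotient.mk I r = 0 := hr
      rw [Ideal.Quotient.eq_zero_iff_mem, Ideal.mem_span_singleton] at h1
      obtain ⟨c, rfl⟩ := h1
      exact ⟨c, rfl⟩
    · rintro ⟨c, rfl⟩
      change Ideal.Quotient.mk I (f * c) = 0
      rw [Ideal.Quotient.eq_zero_iff_mem, Ideal.mem_span_singleton]
      exact ⟨c, rfl⟩
  have hsur : Function.Surjective ((Ideal.Quotient.mkₐ ℂ I).toLinearMap) :=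
    Ideal.Quotient.mk_surjective
  apply (lTensor_exact E hex hsur t).1
  have hzero : LinearMap.lTensor E' (Ideal.Quotient.mkₐ ℂ I).toLinearMap (opT A x t) = 0 :=
    (lTensor_exact E' hex hsur _).2 ht
  rw [opT_quot] at hzero
  let ev' : (R ⧸ I) →ₐ[ℂ] ℂ := Ideal.Quotient.liftₐ I ev (by
    intro a ha
    rw [Ideal.mem_span_singleton] at ha
    obtain ⟨c, rfl⟩ := ha
    rw [map_mul, hev, zero_mul])
  have hinj := opT_injective A (fun k => Ideal.Quotient.mk I (x k)) ev' h
  rw [← map_zero (opT A (fun k => Ideal.Quotient.mk I (x k)))] at hzero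
  exact hinj hzero

/-- Divisibility by an element all of whose prime factors have a good point. -/
theorem dvd_of_good [IsDomain R] [IsNoetherianRing R] [UniqueFactorizationMonoid R]
    (A : ι → E →ₗ[ℂ] E') (x : ι → R) (f : R) (hf0 : f ≠ 0)
    (h : ∀ p : R, Prime p → p ∣ f → ∃ ev : R →ₐ[ℂ] ℂ, ev p = 0 ∧
      Function.Injective (∑ k, ev (x k) • A k : E →ₗ[ℂ] E')) :
    ∀ t : E ⊗[ℂ] R, (∃ t', mulT E' f t' = opT A x t) → ∃ t', mulT E f t' = t := by
  induction f using UniqueFactorizationMonoid.induction_on_prime with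
  | h₁ => exact absurd rfl hf0
  | h₂ f hu =>
    intro t _
    obtain ⟨g, hg⟩ := hu.exists_right_inv
    refine ⟨mulT E g t, ?_⟩
    rw [← mulT_mul, hg]
    unfold mulT
    have : LinearMap.mulLeft ℂ (1 : R) = LinearMap.id := by
      ext r; simp
    rw [this, LinearMap.lTensor_id]; rfl
  | h₃ a p ha hp ih =>
    rintro t ⟨t', ht'⟩
    obtain ⟨ev, hev, hinj⟩ := h p hp (dvd_mul_right p a)
    obtain ⟨t1, ht1⟩ := dvd_of_prime A x p hp ev hev hinj t
      ⟨mulT E' a t', by rw [← mulT_mul]; exact ht'⟩
    obtain ⟨t2, ht2⟩ := ih ha (fun q hq hqa => h q hq (hqa.trans (dvd_mul_left a p))) t1 ⟨t', by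
      apply mulT_injective p hp.ne_zero
      rw [← mulT_mul, ht', ← ht1, opT_mulT]⟩
    exact ⟨t2, by rw [mulT_mul, ht2, ht1]⟩

end

end Pool.Agent.W649.ZL
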