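import Pool.Agent.W649.ZL.Cut
import Pool.Agent.W649.ZL.Poly2
import Pool.Agent.W649.ZL.Tens

set_option autoImplicit false
set_option linter.unusedSectionVars false

open scoped InnerProductSpace InnerProduct ENNReal

/-! The local conditions at a point. -/

namespace Pool.Agent.W649.ZL

open Module MvPolynomial

universe u v w z

section
variable {G : Type u} {J : Type w} {B : Type z} [Group G] [Fintype J] [Fintype B]
variable {ι : Type*} [Fintype ι]

/-- the operator `u ↦ ∑ c_b u_b` -/
noncomputable def ll (c : B → ℂ) : EE G (B × J) →L[ℂ] EE G J := ∑ b, c b • coord b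

theorem ll_apply (c : B → ℂ) (f : EE G (B × J)) : ll c f = ∑ b, c b • coord b f := by
  unfold ll
  rw [sum_apply]
  rfl

theorem ll_eqv (c : B → ℂ) : Eqv (ll (G := G) (J := J) c) := by
  intro k f
  rw [ll_apply, ll_apply, tr_sum]
  refine Finset.sum_congr rfl fun b _ => ?_
  rw [coord_tr, tr_smul]

/-- the coefficients of the operator on the Taylor coefficients -/
noncomputable def cc (x : ι → R2) (p : Fin 2 → ℂ) (n n' : Fin 2 →₀ ℕ) (k : ι) : ℂ :=
  ∑ y ∈ Finset.HasAntidiagonal.antidiagonal n, if y.2 = n' then coeff y.1 (shift p (x k)) else 0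

theorem cc_top (x : ι → R2) (p : Fin 2 → ℂ) (m : ℕ) (n n' : Fin 2 →₀ ℕ) (hn : n.degree < m)
    (hn' : n'.degree = m - 1) (k : ι) : cc x p n n' k = if n = n' then eval p (x k) else 0 := by
  classical
  unfold cc
  have key : ∀ y ∈ Finset.HasAntidiagonal.antidiagonal n, y.2 = n' → y.1 = 0 ∧ n = n' := by
    intro y hy h
    rw [Finset.HasAntidiagonal.mem_antidiagonal] at hy
    have h1 : y.1.degree + y.2.degree = n.degree := by rw [← map_add, hy]
    rw [h] at h1
    have h2 : y.1 = 0 := by
      rw [← Finsupp.degree_eq_zero_iff]; omega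
    refine ⟨h2, ?_⟩
    rw [h2, zero_add, h] at hy
    exact hy.symm
  by_cases h : n = n'
  · rw [if_pos h]
    subst h
    rw [Finset.sum_eq_single (0, n)]
    · rw [if_pos rfl, coeff_zero_shift]
    · intro y hy hne
      rw [if_neg]
      intro h2
      apply hne
      obtain ⟨h3, -⟩ := key y hy h2
      exact Prod.ext h3 h2
    · intro hh
      exfalso
      apply hh
      rw [Finset.HasAntidiagonal.mem_antidiagonal, zero_add]
  · rw [if_neg h]
    apply Finset.sum_eq_zero
    intro y hy
    rw [if_neg]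
    intro h2
    exact h (key y hy h2).2

/-- the operator on the Taylor coefficients of order less than `m` -/
noncomputable def sharp (A : ι → EE G J →L[ℂ] EE G J) (x : ι → R2) (p : Fin 2 → ℂ) (m : ℕ) :
    EE G (Bs m × J) →L[ℂ] EE G (Bs m × J) :=
  asm (fun n : Bs m => NN A (fun (n' : Bs m) k => cc x p n.1 n'.1 k))

theorem sharp_eqv (A : ι → EE G J →L[ℂ] EE G J) (hA : ∀ i, Eqv (A i)) (x : ι → R2)
    (p : Fin 2 → ℂ) (m : ℕ) : Eqv (sharp A x p m) :=
  asm_eqv _ (fun _ => NN_eqv A hA _)

theorem ker_sharp (A : ι → EE G J →L[ℂ] EE G J) (hA : ∀ i, Eqv (A i)) (x : ι → R2)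
    (p : Fin 2 → ℂ) (m : ℕ) :
    (m : ℝ) * vd (LinearMap.ker (lin A (fun k => eval p (x k)) : EE G J →ₗ[ℂ] EE G J))
      ≤ vd (LinearMap.ker (sharp A x p m : EE G (Bs m × J) →ₗ[ℂ] EE G (Bs m × J))) := by
  classical
  rcases Nat.eq_zero_or_pos m with h0 | hm
  · rw [h0]; simp; exact vd_nonneg _
  set Ap := lin A (fun k => eval p (x k)) with hAp
  set d := vd (LinearMap.ker (Ap : EE G J →ₗ[ℂ] EE G J)) with hd
  have hApe : Eqv Ap := lin_eqv A hA _
  have hrange : vd (LinearMap.range (Ap : EE G J →ₗ[ℂ] EE G J)) = Fintype.card J - d := by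
    have := ker_add_range Ap hApe
    linarith
  let M : Bs m → Submodule ℂ (EE G (Bs m × J)) := fun n =>
    if n.1.degree = m - 1 then LinearMap.ker ((Ap.comp (coord n)) : EE G (Bs m × J) →ₗ[ℂ] EE G J)
    else LinearMap.ker ((coord n : EE G (Bs m × J) →L[ℂ] EE G J) : EE G (Bs m × J) →ₗ[ℂ] EE G J)
  let r : Bs m → ℝ := fun n => if n.1.degree = m - 1 then Fintype.card J - d else Fintype.card J
  obtain ⟨Z, hZ, hcut⟩ := cut_finset Finset.univ M r (by
    intro n _
    simp only [M, r]
    split_ifs with h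
    · apply cut_ker
      · intro k f
        rw [ContinuousLinearMap.comp_apply, ContinuousLinearMap.comp_apply, coord_tr, hApe]
      · rw [← hrange]
        apply vd_mono
        rintro _ ⟨f, rfl⟩
        exact ⟨coord n f, rfl⟩
    · exact cut_any _ (coord_tr n))
  have hsum : ∑ n : Bs m, r n = (m : ℝ) * (Fintype.card J - d)
      + ((Bs m).card - m : ℝ) * Fintype.card J := by
    have h1 : ∀ n : Bs m, r n = Fintype.card J - (if n.1.degree = m - 1 then d else 0) := by
      intro n
      simp only [r]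
      split_ifs <;> ring
    rw [Finset.sum_congr rfl fun n _ => h1 n, Finset.sum_sub_distrib, Finset.sum_const,
      Finset.card_univ, Fintype.card_coe, nsmul_eq_mul,
      Finset.sum_coe_sort (Bs m) (fun n => if n.degree = m - 1 then d else 0),
      ← Finset.sum_filter, Finset.sum_const, card_top m hm, nsmul_eq_mul]
    ring
  have h1 := hcut.cut ⊤ (by simp) (fun _ _ _ => trivial)
  rw [vd_top, top_inf_eq, hsum, Fintype.card_prod, Fintype.card_coe] at h1
  have h2 : vd Z ≤ vd (LinearMap.ker (sharp A x p m :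
      EE G (Bs m × J) →ₗ[ℂ] EE G (Bs m × J))) := by
    apply vd_mono
    intro f hf
    rw [hZ] at hf
    have hf1 : ∀ n : Bs m, n.1.degree = m - 1 → Ap (coord n f) = 0 := by
      intro n hn
      have := hf n (Finset.mem_univ _)
      simp only [M] at this
      rw [if_pos hn] at this
      exact this
    have hf2 : ∀ n : Bs m, n.1.degree ≠ m - 1 → coord n f = 0 := by
      intro n hn
      have := hf n (Finset.mem_univ _)
      simp only [M] at this
      rw [if_neg hn] at this
      exact this
    change sharp A x p m f = 0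
    apply ext_coord
    intro n
    rw [map_zero]
    unfold sharp
    rw [coord_asm, NN_apply]
    apply Finset.sum_eq_zero
    intro n' _
    by_cases hn' : n'.1.degree = m - 1
    · by_cases hnn : n = n'
      · subst hnn
        have h3 : ∑ k, cc x p n.1 n.1 k • A k (coord n f) = Ap (coord n f) := by
          rw [hAp, lin_apply]
          refine Finset.sum_congr rfl fun k _ => ?_
          rw [cc_top x p m n.1 n.1 ((mem_Bs _ _).1 n.2) hn', if_pos rfl]
        rw [h3, hf1 n hn']
      · apply Finset.sum_eq_zero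
        intro k _
        rw [cc_top x p m n.1 n'.1 ((mem_Bs _ _).1 n.2) hn', if_neg, zero_smul]
        intro h; exact hnn (Subtype.ext h)
    · apply Finset.sum_eq_zero
      intro k _
      rw [hf2 n' hn', map_zero, smul_zero]
  push_cast at h1
  nlinarith

/-- the monomial with exponent `b` -/
noncomputable def mon (b : Fin 2 →₀ ℕ) : R2 := monomial b 1

/-- the map from the coordinates to the Taylor coefficients -/
noncomputable def tay (G : Type u) (J : Type w) [Group G] [Fintype J] (p : Fin 2 → ℂ) (m t : ℕ) :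
    EE G (Bs t × J) →L[ℂ] EE G (Bs m × J) :=
  asm (fun n : Bs m => ll (fun b : Bs t => coeff n.1 (shift p (mon b.1))))

theorem local_apply (A : ι → EE G J →L[ℂ] EE G J) (x : ι → R2) (p : Fin 2 → ℂ) (m t : ℕ)
    (f : EE G (Bs t × J)) (n : Bs m) :
    coord n (sharp A x p m (tay G J p m t f))
      = NN A (fun (b : Bs t) k => coeff n.1 (shift p (x k * mon b.1))) f := by
  classical
  unfold sharp
  rw [coord_asm, NN_apply, NN_apply]
  unfold tay
  have h1 : ∀ n' : Bs m, ∑ k, cc x p n.1 n'.1 k • A k (coord n' (asm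
      (fun n : Bs m => ll (fun b : Bs t => coeff n.1 (shift p (mon b.1)))) f))
      = ∑ b : Bs t, ∑ k, (cc x p n.1 n'.1 k * coeff n'.1 (shift p (mon b.1))) • A k (coord b f) := by
    intro n'
    rw [coord_asm, Finset.sum_comm]
    refine Finset.sum_congr rfl fun k _ => ?_
    rw [ll_apply, map_sum, Finset.smul_sum]
    refine Finset.sum_congr rfl fun b _ => ?_
    rw [map_smul, smul_smul]
  rw [Finset.sum_congr rfl fun n' _ => h1 n', Finset.sum_comm]
  refine Finset.sum_congr rfl fun b _ => ?_
  rw [Finset.sum_comm]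
  refine Finset.sum_congr rfl fun k _ => ?_
  rw [← Finset.sum_smul]
  congr 1
  rw [map_mul, coeff_mul]
  unfold cc
  simp_rw [Finset.sum_mul]
  rw [Finset.sum_comm]
  refine Finset.sum_congr rfl fun y hy => ?_
  have hy2 : y.2 ∈ Bs m := by
    rw [Finset.HasAntidiagonal.mem_antidiagonal] at hy
    have h2 : y.1.degree + y.2.degree = n.1.degree := by rw [← map_add, hy]
    have h3 := (mem_Bs _ _).1 n.2
    rw [mem_Bs]; omega
  rw [Finset.sum_eq_single (⟨y.2, hy2⟩ : Bs m)]
  · rw [if_pos rfl]
  · intro n' _ hne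
    rw [if_neg, zero_mul]
    intro h; exact hne (Subtype.ext h.symm)
  · intro h; exact absurd (Finset.mem_univ _) h

/-- The local conditions at `p`. -/
theorem local_cut (A : ι → EE G J →L[ℂ] EE G J) (hA : ∀ i, Eqv (A i)) (x : ι → R2)
    (p : Fin 2 → ℂ) (m t : ℕ) :
    ∃ L : Submodule ℂ (EE G (Bs t × J)),
      (∀ f, f ∈ L → ∀ n ∈ Bs m,
        NN A (fun (b : Bs t) k => coeff n (shift p (x k * mon b.1))) f = 0) ∧
      Cut L (((Bs m).card : ℝ) * Fintype.card J
        - m * vd (LinearMap.ker (lin A (fun k => eval p (x k)) : EE G J →ₗ[ℂ] EE G J))) := by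
  refine ⟨LinearMap.ker (((sharp A x p m).comp (tay G J p m t) :
    EE G (Bs t × J) →L[ℂ] EE G (Bs m × J)) : EE G (Bs t × J) →ₗ[ℂ] EE G (Bs m × J)), ?_, ?_⟩
  · intro f hf n hn
    have h1 : sharp A x p m (tay G J p m t f) = 0 := hf
    have h2 := local_apply A x p m t f ⟨n, hn⟩
    rw [h1, map_zero] at h2
    exact h2.symm
  · apply cut_ker
    · intro k f
      rw [ContinuousLinearMap.comp_apply, ContinuousLinearMap.comp_apply]
      unfold tay
      rw [asm_eqv _ (fun n => ll_eqv _), sharp_eqv A hA]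
    · have h1 : vd (LinearMap.range (((sharp A x p m).comp (tay G J p m t) :
          EE G (Bs t × J) →L[ℂ] EE G (Bs m × J)) : EE G (Bs t × J) →ₗ[ℂ] EE G (Bs m × J)))
          ≤ vd (LinearMap.range (sharp A x p m : EE G (Bs m × J) →ₗ[ℂ] EE G (Bs m × J))) := by
        apply vd_mono
        rintro _ ⟨f, rfl⟩
        exact ⟨tay G J p m t f, rfl⟩
      have h2 := ker_add_range (sharp A x p m) (sharp_eqv A hA x p m)
      have h3 := ker_sharp A hA x p m
      rw [Fintype.card_prod, Fintype.card_coe] at h2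
      push_cast at h2
      linarith

end

end Pool.Agent.W649.ZL
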