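import Pool.Agent.W649.ZL.Bez1

set_option autoImplicit false
set_option linter.unusedSectionVars false

open scoped InnerProductSpace InnerProduct ENNReal TensorProduct

/-! The Bezout inequality for kernel dimensions in families with two parameters. -/

namespace Pool.Agent.W649.ZL

open Module MvPolynomial

universe u v w z

section
variable {G : Type u} {J : Type w} [Group G] [Fintype J]
variable {ι : Type z} [Fintype ι]

/-- the operators as linear maps -/
noncomputable def LA (A : ι → EE G J →L[ℂ] EE G J) (k : ι) : EE G J →ₗ[ℂ] EE G J := A k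

/-- the polynomial with coefficients in `ℓ²` -/
noncomputable def tt (t : ℕ) (f : EE G (Bs t × J)) : EE G J ⊗[ℂ] R2 :=
  ∑ b : Bs t, coord b f ⊗ₜ[ℂ] mon b.1

theorem cf_tt (t : ℕ) (φ : R2 →ₗ[ℂ] ℂ) (f : EE G (Bs t × J)) :
    cf φ (tt t f) = ll (fun b : Bs t => φ (mon b.1)) f := by
  unfold tt
  rw [map_sum, ll_apply]
  exact Finset.sum_congr rfl fun b _ => cf_tmul _ _ _

theorem cf_opT (A : ι → EE G J →L[ℂ] EE G J) (x : ι → R2) (t : ℕ) (φ : R2 →ₗ[ℂ] ℂ)
    (f : EE G (Bs t × J)) :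
    cf φ (opT (LA A) x (tt t f)) = NN A (fun (b : Bs t) k => φ (x k * mon b.1)) f := by
  unfold tt
  rw [map_sum, map_sum, NN_apply]
  refine Finset.sum_congr rfl fun b _ => ?_
  rw [opT_tmul, map_sum]
  exact Finset.sum_congr rfl fun k _ => cf_tmul _ _ _

theorem mon_mem (t : ℕ) (b : Bs t) : mon b.1 ∈ PP t := by
  intro n hn
  unfold mon
  rw [coeff_monomial, if_neg]
  rintro rfl
  have := (mem_Bs _ _).1 b.2
  omega

theorem ef_tt_mem (t : ℕ) (l : EE G J →ₗ[ℂ] ℂ) (f : EE G (Bs t × J)) : ef l (tt t f) ∈ PP t := by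
  unfold tt
  rw [map_sum]
  apply Submodule.sum_mem
  intro b _
  rw [ef_tmul]
  exact Submodule.smul_mem _ _ (mon_mem t b)

theorem ef_opT_mem (A : ι → EE G J →L[ℂ] EE G J) (x : ι → R2) (δ : ℕ)
    (hx : ∀ k, (x k).totalDegree ≤ δ) (t : ℕ) (l : EE G J →ₗ[ℂ] ℂ) (f : EE G (Bs t × J)) :
    ef l (opT (LA A) x (tt t f)) ∈ PP (δ + t) := by
  unfold tt
  rw [map_sum, map_sum]
  apply Submodule.sum_mem
  intro b _
  rw [opT_tmul, map_sum]
  apply Submodule.sum_mem
  intro k _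
  rw [ef_tmul]
  exact Submodule.smul_mem _ _ (mul_mem_PP (hx k) (mon_mem t b))

theorem tt_injective (t : ℕ) (f : EE G (Bs t × J)) (h : tt t f = 0) : f = 0 := by
  classical
  apply eq_zero_of_coord
  intro b
  have h1 : cf (lcoeff ℂ b.1) (tt t f) = coord b f := by
    rw [cf_tt, ll_apply, Finset.sum_eq_single b]
    · unfold mon
      rw [lcoeff_apply, coeff_monomial, if_pos rfl, one_smul]
    · intro b' _ hb
      unfold mon
      rw [lcoeff_apply, coeff_monomial, if_neg, zero_smul]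
      intro h; exact hb (Subtype.ext h)
    · intro h; exact absurd (Finset.mem_univ _) h
  rw [h, map_zero] at h1
  exact h1.symm

/-- functionals cutting out a subspace of a finite dimensional space -/
theorem exists_functionals {V : Type*} [AddCommGroup V] [Module ℂ V] (W W' : Submodule ℂ V)
    [FiniteDimensional ℂ W'] (hW : W ≤ W') :
    ∃ Y : Finset (V →ₗ[ℂ] ℂ), Y.card + finrank ℂ W ≤ finrank ℂ W' ∧
      ∀ f ∈ W', (∀ φ ∈ Y, φ f = 0) → f ∈ W := by
  classical
  let q := W.mkQ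
  have hfin : FiniteDimensional ℂ (W'.map q : Submodule ℂ (V ⧸ W)) := inferInstance
  have hrk : finrank ℂ (W'.map q : Submodule ℂ (V ⧸ W)) + finrank ℂ W = finrank ℂ W' := by
    have h1 := LinearMap.finrank_range_add_finrank_ker (q.domRestrict W')
    have h2 : LinearMap.range (q.domRestrict W') = W'.map q := by
      ext y
      constructor
      · rintro ⟨⟨a, ha⟩, rfl⟩
        exact ⟨a, ha, rfl⟩
      · rintro ⟨a, ha, rfl⟩
        exact ⟨⟨a, ha⟩, rfl⟩
    have h3 : (LinearMap.ker (q.domRestrict W')).map W'.subtype = W := by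
      ext y
      constructor
      · rintro ⟨⟨a, ha⟩, ha', rfl⟩
        have h4 : q a = 0 := ha'
        exact (Submodule.Quotient.mk_eq_zero W).1 h4
      · intro hy
        exact ⟨⟨y, hW hy⟩, (Submodule.Quotient.mk_eq_zero W).2 hy, rfl⟩
    rw [h2] at h1
    rw [← h1, ← Submodule.finrank_map_subtype_eq W' (LinearMap.ker (q.domRestrict W')), h3]
  obtain ⟨Y, hY1, hY2⟩ := exists_points (P := (V ⧸ W) →ₗ[ℂ] ℂ) (fun φ => φ)
    (finrank ℂ (W'.map q : Submodule ℂ (V ⧸ W))) (W'.map q) le_rfl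
    (fun f _ hf => (Module.forall_dual_apply_eq_zero_iff ℂ f).1 hf)
  refine ⟨Y.image (fun φ => φ ∘ₗ q), ?_, ?_⟩
  · have := Finset.card_image_le (s := Y) (f := fun φ => φ ∘ₗ q)
    omega
  · intro f hf h
    have h1 := hY2 (q f) ⟨f, hf, rfl⟩ (fun φ hφ => h _ (Finset.mem_image_of_mem _ hφ))
    exact (Submodule.Quotient.mk_eq_zero W).1 h1

theorem bez_arith (s t δ D J y z bs bt bsD btD : ℕ) (hs : s = δ + t) (ht : D ≤ t) (σ : ℕ)
    (h1 : y + bsD + σ ≤ bs) (h2 : z ≤ btD) (c1 : bs * 2 = s * (s + 1)) (c2 : bt * 2 = t * (t + 1))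
    (c3 : bsD * 2 = (s - D) * (s - D + 1)) (c4 : btD * 2 = (t - D) * (t - D + 1))
    (v12 sg : ℝ) (e1 : (bt : ℝ) * J ≤ v12 + ((σ : ℝ) * J - sg + y * J))
    (e2 : v12 ≤ 0 + z * J) : sg ≤ δ * J * D := by
  have k1 : (y : ℝ) + bsD + σ ≤ bs := by exact_mod_cast h1
  have k2 : (z : ℝ) ≤ btD := by exact_mod_cast h2
  have c1' : (bs : ℝ) * 2 = s * (s + 1) := by exact_mod_cast c1
  have c2' : (bt : ℝ) * 2 = t * (t + 1) := by exact_mod_cast c2
  have c3' : (bsD : ℝ) * 2 = (s - D) * (s - D + 1) := by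
    have h2 : ((s - D : ℕ) : ℝ) = s - D := by rw [Nat.cast_sub (by omega)]
    rw [← h2]; exact_mod_cast c3
  have c4' : (btD : ℝ) * 2 = (t - D) * (t - D + 1) := by
    have h2 : ((t - D : ℕ) : ℝ) = t - D := by rw [Nat.cast_sub (by omega)]
    rw [← h2]; exact_mod_cast c4
  have hsr : (s : ℝ) = δ + t := by rw [hs]; push_cast; ring
  have hJ : (0 : ℝ) ≤ J := by positivity
  have k3 : (y : ℝ) + z + σ - bt ≤ δ * D := by
    rw [hsr] at c1' c3'
    nlinarith
  have k4 : (J : ℝ) * ((y : ℝ) + z + σ - bt) ≤ J * (δ * D) := mul_le_mul_of_nonneg_left k3 hJ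
  nlinarith

/-- **Bezout inequality.** -/
theorem bezout (A : ι → EE G J →L[ℂ] EE G J) (hA : ∀ k, Eqv (A k)) (x : ι → R2) (δ : ℕ)
    (hx : ∀ k, (x k).totalDegree ≤ δ) (F : R2) (hF : F ≠ 0)
    (hgood : ∀ f : R2, Prime f → f ∣ F → ∃ y, eval y f = 0 ∧
      Function.Injective (lin A (fun k => eval y (x k))))
    (S : Finset (Fin 2 → ℂ)) (m : (Fin 2 → ℂ) → ℕ)
    (hm : ∀ p ∈ S, ∀ n : Fin 2 →₀ ℕ, n.degree < m p → coeff n (shift p F) = 0) :
    ∑ p ∈ S, (m p : ℝ)
        * vd (LinearMap.ker (lin A (fun k => eval p (x k)) : EE G J →ₗ[ℂ] EE G J))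
      ≤ δ * Fintype.card J * F.totalDegree := by
  classical
  set D := F.totalDegree with hD
  obtain ⟨s0, hs0⟩ := TS_surjective_PP S m
  obtain ⟨t, ht⟩ : ∃ t : ℕ, s0 ≤ δ + t ∧ D ≤ t := ⟨s0 + D, by omega, by omega⟩
  set s := δ + t with hs
  set E := EE G J with hE
  have hsurj := hs0 s ht.1
  have hWFI : WF F s ≤ WI S m s := by
    rintro f ⟨hf, g, rfl⟩
    refine ⟨hf, ?_⟩
    change TS S m (F * g) = 0
    funext y
    obtain ⟨⟨p, hp⟩, ⟨n, hn⟩⟩ := y
    rw [TS_apply]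
    change coeff n (shift p (F * g)) = 0
    rw [map_mul, coeff_mul]
    apply Finset.sum_eq_zero
    intro y hy
    rw [Finset.HasAntidiagonal.mem_antidiagonal] at hy
    have h2 : y.1.degree + y.2.degree = n.degree := by rw [← map_add, hy]
    have h4 : n.degree < m p := (mem_Bs _ _).1 hn
    rw [hm p hp y.1 (by omega), zero_mul]
  have : FiniteDimensional ℂ (WI S m s) := Submodule.finiteDimensional_inf_left _ _
  have : FiniteDimensional ℂ (WF F t) := Submodule.finiteDimensional_inf_left _ _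
  obtain ⟨Y, hY1, hY2⟩ := exists_functionals (WF F s) (WI S m s) hWFI
  obtain ⟨Z, hZ1, hZ2⟩ := exists_functionals ⊥ (WF F t) bot_le
  rw [finrank_bot, add_zero] at hZ1
  have hfWI := finrank_WI S m s hsurj
  rw [finrank_WF F hF s (by omega), ← hD] at hY1
  rw [finrank_WF F hF t (by omega), ← hD] at hZ1
  -- the conditions
  choose L hL1 hL2 using fun p : Fin 2 → ℂ => local_cut A hA x p (m p) t
  obtain ⟨N1, hN1, hc1⟩ := cut_finset S L _ (fun p _ => hL2 p)
  obtain ⟨N2, hN2, hc2⟩ := cut_finset Y (fun φ : R2 →ₗ[ℂ] ℂ =>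
    LinearMap.ker (NN A (fun (b : Bs t) k => φ (x k * mon b.1)) :
      EE G (Bs t × J) →ₗ[ℂ] EE G J)) (fun _ => (Fintype.card J : ℝ))
    (fun φ _ => cut_any _ (NN_eqv A hA _))
  obtain ⟨N3, hN3, hc3⟩ := cut_finset Z (fun φ : R2 →ₗ[ℂ] ℂ =>
    LinearMap.ker ((ll (fun (b : Bs t) => φ (mon b.1)) : EE G (Bs t × J) →L[ℂ] EE G J) :
      EE G (Bs t × J) →ₗ[ℂ] EE G J)) (fun _ => (Fintype.card J : ℝ))
    (fun φ _ => cut_any _ (ll_eqv _))
  have hc12 := cut_inf hc1 hc2
  have e1 := hc12.cut ⊤ (by simp) (fun _ _ _ => trivial)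
  have e2 := hc3.cut (N1 ⊓ N2) hc12.closed hc12.inv
  have hbot : N1 ⊓ N2 ⊓ N3 = ⊥ := by
    rw [eq_bot_iff]
    rintro f ⟨⟨hf1, hf2⟩, hf3⟩
    have hf1' := (hN1 f).1 hf1
    have hf2' := (hN2 f).1 hf2
    have hf3' := (hN3 f).1 hf3
    have hdiv : ∃ t', mulT E F t' = opT (LA A) x (tt t f) := by
      rw [mem_mulT_iff]
      intro l
      have hmem : ef l (opT (LA A) x (tt t f)) ∈ WI S m s := by
        refine ⟨ef_opT_mem A x δ hx t l f, ?_⟩
        change TS S m _ = 0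
        funext y
        obtain ⟨⟨p, hp⟩, ⟨n, hn⟩⟩ := y
        have h1 := cf_ef ((lcoeff ℂ n) ∘ₗ (shift p).toLinearMap) l (opT (LA A) x (tt t f))
        rw [cf_opT] at h1
        have h2 := hL1 p f (hf1' p hp) n hn
        have h3 : NN A (fun (b : Bs t) k => ((lcoeff ℂ n) ∘ₗ (shift p).toLinearMap)
            (x k * mon b.1)) f = 0 := h2
        rw [h3, map_zero] at h1
        exact h1
      have hWF := hY2 _ hmem (fun φ hφ => by
        rw [cf_ef, cf_opT]
        have h3 : NN A (fun (b : Bs t) k => φ (x k * mon b.1)) f = 0 := hf2' φ hφ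
        rw [h3, map_zero])
      obtain ⟨-, g, hg⟩ := hWF
      exact ⟨g, hg.symm⟩
    have hdiv2 := dvd_of_good (LA A) x F hF (fun q hq hqF => by
      obtain ⟨y, hy1, hy2⟩ := hgood q hq hqF
      refine ⟨aeval y, hy1, ?_⟩
      intro a b hab
      apply hy2
      have h4 : ∀ a : E, (∑ k, (aeval y) (x k) • LA A k : E →ₗ[ℂ] E) a
          = lin A (fun k => eval y (x k)) a := by
        intro a
        rw [lin_apply, LinearMap.sum_apply]
        rfl
      rw [h4, h4] at hab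
      exact hab) (tt t f) hdiv
    rw [mem_mulT_iff] at hdiv2
    rw [Submodule.mem_bot]
    apply tt_injective t
    apply eq_zero_of_ef
    intro l
    have h5 : ef l (tt t f) ∈ WF F t := by
      refine ⟨ef_tt_mem t l f, ?_⟩
      obtain ⟨g, hg⟩ := hdiv2 l
      exact ⟨g, hg.symm⟩
    have h6 := hZ2 _ h5 (fun φ hφ => by
      rw [cf_ef, cf_tt]
      have h3 : ll (fun (b : Bs t) => φ (mon b.1)) f = 0 := hf3' φ hφ
      rw [h3, map_zero])
    exact (Submodule.mem_bot ℂ).1 h6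
  rw [hbot, vd_bot] at e2
  rw [vd_top, top_inf_eq, Fintype.card_prod, Fintype.card_coe] at e1
  simp only [Finset.sum_const, nsmul_eq_mul, Finset.sum_sub_distrib] at e1 e2
  rw [← Finset.sum_mul] at e1
  push_cast at e1
  exact bez_arith s t δ D (Fintype.card J) Y.card Z.card (Bs s).card (Bs t).card
    (Bs (s - D)).card (Bs (t - D)).card hs ht.2 (∑ p ∈ S, (Bs (m p)).card) (by omega) hZ1
    (card_Bs s) (card_Bs t) (card_Bs _) (card_Bs _) _ _ (by push_cast; exact e1) e2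

end

end Pool.Agent.W649.ZL
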