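import Pool.Agent.W649.ZL.Poly2

set_option autoImplicit false

/-! A plane curve has uncountably many points. -/

namespace Pool.Agent.W649.ZL

open Module MvPolynomial

theorem eval_fin2 (f : R2) (a b : ℂ) :
    eval ![a, b] f = Polynomial.eval a ((finSuccEquiv ℂ 1 f).map (eval ![b])) := by
  have h := eval_eq_eval_mv_eval' ![b] a f
  have h2 : (Fin.cons a ![b] : Fin 2 → ℂ) = ![a, b] := by
    funext i
    fin_cases i <;> rfl
  rw [h2] at h
  exact h

/-- The zero set of a non-unit is not contained in a countable set. -/
theorem exists_point (f : R2) (hf : ¬ IsUnit f) (hf0 : f ≠ 0) (E : Set (Fin 2 → ℂ))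
    (hE : E.Countable) : ∃ y, eval y f = 0 ∧ y ∉ E := by
  classical
  by_contra hcon
  push Not at hcon
  set q := finSuccEquiv ℂ 1 f with hq
  have hq0 : q ≠ 0 := fun h => hf0 ((map_eq_zero_iff _ (finSuccEquiv ℂ 1).injective).1 h)
  -- for uncountably many `b` the polynomial `q_b` has no root
  have hproj : (Set.image (fun y : Fin 2 → ℂ => y 1) E).Countable := hE.image _
  have hroot : ∀ b : ℂ, b ∉ Set.image (fun y : Fin 2 → ℂ => y 1) E →
      ∀ a, Polynomial.eval a (q.map (eval ![b])) ≠ 0 := by
    intro b hb a h
    rw [hq, ← eval_fin2] at h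
    exact hb ⟨_, hcon _ h, rfl⟩
  have hdeg : ∀ b : ℂ, b ∉ Set.image (fun y : Fin 2 → ℂ => y 1) E →
      (q.map (eval ![b])).degree = 0 := by
    intro b hb
    by_contra hne
    obtain ⟨a, ha⟩ := IsAlgClosed.exists_root _ hne
    exact hroot b hb a ha
  -- the higher coefficients vanish
  have hhigh : ∀ n, 0 < n → q.coeff n = 0 := by
    intro n hn
    by_contra hne
    have h1 : (MvPolynomial.rename (fun _ : Fin 1 => ()) (q.coeff n)) ≠ 0 := by
      intro h
      apply hne
      exact (map_eq_zero_iff _ (rename_injective _ (fun a b _ => Subsingleton.elim a b))).1 h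
    let r : Polynomial ℂ := aeval (fun _ : Fin 1 => (Polynomial.X : Polynomial ℂ)) (q.coeff n)
    have hr : ∀ b, r.eval b = eval ![b] (q.coeff n) := by
      intro b
      have h2 : (Polynomial.aeval b).comp (aeval (fun _ : Fin 1 => (Polynomial.X : Polynomial ℂ)))
          = aeval (R := ℂ) ![b] := by
        apply algHom_ext
        intro i
        fin_cases i
        simp
      exact DFunLike.congr_fun h2 (q.coeff n)
    have hr0 : r ≠ 0 := by
      intro h
      apply hne
      apply MvPolynomial.funext
      intro x
      have h3 := hr (x 0)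
      rw [h, Polynomial.eval_zero] at h3
      have h4 : (![x 0] : Fin 1 → ℂ) = x := by
        funext i; fin_cases i; rfl
      rw [h4] at h3
      rw [← h3, map_zero]
    have hc : ((Set.image (fun y : Fin 2 → ℂ => y 1) E) ∪ (r.roots.toFinset : Set ℂ)).Countable :=
      hproj.union (Finset.countable_toSet _)
    have : ∃ b : ℂ, b ∉ (Set.image (fun y : Fin 2 → ℂ => y 1) E) ∪ (r.roots.toFinset : Set ℂ) := by
      by_contra h5
      push Not at h5
      exact not_countable_complex (hc.mono (fun t _ => h5 t))
    obtain ⟨b, hb⟩ := this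
    rw [Set.mem_union, not_or] at hb
    have h6 := hdeg b hb.1
    have h7 : (q.map (eval ![b])).coeff n = 0 := by
      apply Polynomial.coeff_eq_zero_of_degree_lt
      rw [h6]
      exact_mod_cast hn
    rw [Polynomial.coeff_map, ← hr] at h7
    apply hb.2
    rw [Finset.mem_coe, Multiset.mem_toFinset, Polynomial.mem_roots hr0]
    exact h7
  have hqC : q = Polynomial.C (q.coeff 0) := by
    ext1 n
    rcases Nat.eq_zero_or_pos n with rfl | hn
    · rw [Polynomial.coeff_C_zero]
    · rw [hhigh n hn, Polynomial.coeff_C, if_neg (by omega)]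
  -- now `f` does not depend on the first variable
  by_cases hex : ∃ b : ℂ, eval ![b] (q.coeff 0) = 0
  · obtain ⟨b, hb⟩ := hex
    have h1 : ∀ a : ℂ, ![a, b] ∈ E := by
      intro a
      apply hcon
      rw [eval_fin2, ← hq, hqC, Polynomial.map_C, Polynomial.eval_C]
      exact hb
    have h2 : (Set.univ : Set ℂ).Countable := by
      have h3 : Set.image (fun y : Fin 2 → ℂ => y 0) E = Set.univ := by
        rw [Set.eq_univ_iff_forall]
        intro a
        exact ⟨_, h1 a, rfl⟩
      rw [← h3]
      exact hE.image _
    exact not_countable_complex h2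
  · push Not at hex
    -- a polynomial in one variable without zeros is constant
    let r : Polynomial ℂ := aeval (fun _ : Fin 1 => (Polynomial.X : Polynomial ℂ)) (q.coeff 0)
    have hr : ∀ b, r.eval b = eval ![b] (q.coeff 0) := by
      intro b
      have h2 : (Polynomial.aeval b).comp (aeval (fun _ : Fin 1 => (Polynomial.X : Polynomial ℂ)))
          = aeval (R := ℂ) ![b] := by
        apply algHom_ext
        intro i
        fin_cases i
        simp
      exact DFunLike.congr_fun h2 (q.coeff 0)
    have hrd : r.degree = 0 := by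
      by_contra hne
      obtain ⟨b, hb⟩ := IsAlgClosed.exists_root r hne
      exact hex b (by rw [← hr]; exact hb)
    have hrC := Polynomial.eq_C_of_degree_eq_zero hrd
    have h3 : q.coeff 0 = C (r.coeff 0) := by
      apply MvPolynomial.funext
      intro x
      have h4 : (![x 0] : Fin 1 → ℂ) = x := by
        funext i; fin_cases i; rfl
      rw [← h4, ← hr, hrC]
      simp
    have h5 : r.coeff 0 ≠ 0 := by
      intro h0
      apply hq0
      rw [hqC, h3, h0, map_zero, map_zero]
    apply hf
    have h6 : f = C (r.coeff 0) := by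
      apply (finSuccEquiv ℂ 1).injective
      rw [← hq, hqC, h3, finSuccEquiv_apply]
      simp
    rw [h6]
    exact (isUnit_iff_ne_zero.2 h5).map C

end Pool.Agent.W649.ZL
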