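import Pool.Agent.W649.ZL.Bez2
import Pool.Agent.W649.ZL.Curve

set_option autoImplicit false
set_option linter.unusedSectionVars false

open scoped InnerProductSpace InnerProduct ENNReal TensorProduct

/-! The sum of the squares of the kernel dimensions. -/

namespace Pool.Agent.W649.ZL

open Module MvPolynomial

universe u v w z

/-- The optimisation in the Bezout inequality. -/
theorem squares_of_bezout (S : Finset (Fin 2 → ℂ)) (d : (Fin 2 → ℂ) → ℝ) (hd : ∀ p, 0 ≤ d p)
    (c : ℝ) (hc : 0 ≤ c)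
    (h : ∀ (F : R2), F ≠ 0 → ∀ m : (Fin 2 → ℂ) → ℕ,
      (∀ p ∈ S, ∀ n : Fin 2 →₀ ℕ, n.degree < m p → coeff n (shift p F) = 0) →
      ∑ p ∈ S, (m p : ℝ) * d p ≤ c * F.totalDegree) :
    ∑ p ∈ S, d p ^ 2 ≤ c ^ 2 := by
  set Q := ∑ p ∈ S, d p ^ 2 with hQ
  set s1 := ∑ p ∈ S, d p with hs1
  have hQ0 : 0 ≤ Q := Finset.sum_nonneg fun p _ => by positivity
  have hs10 : 0 ≤ s1 := Finset.sum_nonneg fun p _ => hd p
  rcases hQ0.eq_or_lt with h0 | hQpos
  · rw [← h0]; positivity
  set q := Real.sqrt Q with hq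
  have hqpos : 0 < q := Real.sqrt_pos.2 hQpos
  have hqq : q * q = Q := Real.mul_self_sqrt hQ0
  -- the inequality for every `t`
  have key : ∀ t : ℕ, t * Q - s1 ≤ c * (t * q + s1 / (2 * q) + 1) := by
    intro t
    let m : (Fin 2 → ℂ) → ℕ := fun p => ⌊(t : ℝ) * d p⌋₊
    have hm1 : ∀ p, (m p : ℝ) ≤ t * d p := fun p =>
      Nat.floor_le (mul_nonneg (Nat.cast_nonneg _) (hd p))
    have hm2 : ∀ p, (t : ℝ) * d p - 1 ≤ m p := fun p => by
      have := Nat.lt_floor_add_one ((t : ℝ) * d p)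
      simp only [m]; linarith
    set D := ⌈(t : ℝ) * q + s1 / (2 * q)⌉₊ with hD
    have hD1 : (t : ℝ) * q + s1 / (2 * q) ≤ D := Nat.le_ceil _
    have hD2 : (D : ℝ) < (t : ℝ) * q + s1 / (2 * q) + 1 := Nat.ceil_lt_add_one (by positivity)
    have hcount : ∑ p ∈ S, (Bs (m p)).card < (Bs (D + 1)).card := by
      have h1 : (((∑ p ∈ S, (Bs (m p)).card) * 2 : ℕ) : ℝ) < (((Bs (D + 1)).card * 2 : ℕ) : ℝ) := by
        rw [card_Bs]
        push_cast
        rw [Finset.sum_mul]
        have h2 : ∀ p, (((Bs (m p)).card : ℝ) * 2) = m p * (m p + 1) := fun p => by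
          exact_mod_cast card_Bs (m p)
        rw [Finset.sum_congr rfl fun p _ => h2 p]
        have h3 : ∑ p ∈ S, ((m p : ℝ) * (m p + 1)) ≤ t ^ 2 * Q + t * s1 := by
          rw [hQ, hs1, Finset.mul_sum, Finset.mul_sum, ← Finset.sum_add_distrib]
          refine Finset.sum_le_sum fun p _ => ?_
          have h4 := hm1 p
          have h5 : (0 : ℝ) ≤ m p := Nat.cast_nonneg _
          nlinarith
        have h6 : (t : ℝ) ^ 2 * Q + t * s1 ≤ (t * q + s1 / (2 * q)) ^ 2 := by
          have h7 : ((t : ℝ) * q + s1 / (2 * q)) ^ 2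
              = t ^ 2 * Q + t * s1 + (s1 / (2 * q)) ^ 2 := by
            rw [← hqq]
            field_simp
            ring
          rw [h7]
          nlinarith [sq_nonneg (s1 / (2 * q))]
        have h8 : ((t : ℝ) * q + s1 / (2 * q)) ^ 2 ≤ (D : ℝ) ^ 2 := by
          apply pow_le_pow_left₀ (by positivity) hD1
        have h9 : (0 : ℝ) ≤ D := Nat.cast_nonneg _
        nlinarith
      have h10 : (∑ p ∈ S, (Bs (m p)).card) * 2 < (Bs (D + 1)).card * 2 := by exact_mod_cast h1
      omega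
    obtain ⟨F, hF0, hFd, hFv⟩ := exists_vanishing S m (D + 1) hcount
    have h1 := h F hF0 m hFv
    have h2 : (F.totalDegree : ℝ) ≤ D := by exact_mod_cast (by omega)
    have h3 : (t : ℝ) * Q - s1 ≤ ∑ p ∈ S, (m p : ℝ) * d p := by
      rw [hQ, hs1, Finset.mul_sum, ← Finset.sum_sub_distrib]
      refine Finset.sum_le_sum fun p _ => ?_
      have h4 := mul_le_mul_of_nonneg_right (hm2 p) (hd p)
      nlinarith
    have h4 : c * F.totalDegree ≤ c * (t * q + s1 / (2 * q) + 1) :=
      mul_le_mul_of_nonneg_left (by linarith) hc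
    linarith
  -- conclusion
  have hle : q ≤ c := by
    by_contra hcon
    push Not at hcon
    have hpos : 0 < q * (q - c) := mul_pos hqpos (by linarith)
    obtain ⟨t, ht⟩ := exists_nat_gt ((s1 + c * (s1 / (2 * q) + 1)) / (q * (q - c)))
    rw [div_lt_iff₀ hpos] at ht
    have h1 := key t
    rw [← hqq] at h1
    nlinarith
  calc Q = q ^ 2 := by rw [← hqq]; ring
    _ ≤ c ^ 2 := pow_le_pow_left₀ hqpos.le hle 2

section
variable {G : Type u} {J : Type w} [Group G] [Fintype J]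
variable {ι : Type z} [Fintype ι]

/-- The sum of the squares of the kernel dimensions over the plane. -/
theorem sum_squares (A : ι → EE G J →L[ℂ] EE G J) (hA : ∀ k, Eqv (A k)) (x : ι → R2) (δ : ℕ)
    (hx : ∀ k, (x k).totalDegree ≤ δ)
    (hgood : ∀ f : R2, Prime f → ∃ y, eval y f = 0 ∧
      Function.Injective (lin A (fun k => eval y (x k))))
    (S : Finset (Fin 2 → ℂ)) :
    ∑ p ∈ S, vd (LinearMap.ker (lin A (fun k => eval p (x k)) : EE G J →ₗ[ℂ] EE G J)) ^ 2
      ≤ ((δ : ℝ) * Fintype.card J) ^ 2 := by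
  apply squares_of_bezout S _ (fun p => vd_nonneg _) _ (by positivity)
  intro F hF m hm
  exact bezout A hA x δ hx F hF (fun f hf _ => hgood f hf) S m hm

end

end Pool.Agent.W649.ZL
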