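import Pool.Agent.W649.ZL.Fam

set_option autoImplicit false
set_option linter.unusedSectionVars false

open scoped InnerProductSpace InnerProduct ENNReal

/-! The group algebra acting on `ℓ²(G)` by left convolution. -/

namespace Pool.Agent.W649.ZL

open Module MvPolynomial

universe u

section
variable {G : Type u} [Group G]

/-- left translation -/
noncomputable abbrev Ltr (t : G) : EE G Unit →L[ℂ] EE G Unit := elem t () ()

theorem Ltr_apply (t : G) (f : EE G Unit) (x : G) : Ltr t f (x, ()) = f (t⁻¹ * x, ()) := rfl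

theorem Ltr_mul (s t : G) : Ltr (s * t) = (Ltr s).comp (Ltr t) := by
  ext f x
  obtain ⟨x, ⟨⟩⟩ := x
  rw [ContinuousLinearMap.comp_apply, Ltr_apply, Ltr_apply, Ltr_apply, mul_inv_rev, mul_assoc]

theorem Ltr_one : Ltr (1 : G) = ContinuousLinearMap.id ℂ _ := by
  ext f x
  obtain ⟨x, ⟨⟩⟩ := x
  rw [Ltr_apply]; simp

theorem Ltr_pow (t : G) (n : ℕ) : Ltr (t ^ n) = (Ltr t) ^ n := by
  induction n with
  | zero => rw [pow_zero, pow_zero, Ltr_one]; rfl
  | succ n ih => rw [pow_succ, Ltr_mul, ih, pow_succ]; rfl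

theorem Ltr_injective (t : G) : Function.Injective (Ltr t) := by
  intro f g hfg
  have h1 : (Ltr t⁻¹) (Ltr t f) = (Ltr t⁻¹) (Ltr t g) := by rw [hfg]
  rw [← ContinuousLinearMap.comp_apply, ← ContinuousLinearMap.comp_apply, ← Ltr_mul,
    inv_mul_cancel, Ltr_one] at h1
  exact h1

/-- `L_g - λ` is injective if `g` has infinite order -/
theorem Ltr_sub_injective (g : G) (hg : ¬ IsOfFinOrder g) (c : ℂ) :
    Function.Injective (Ltr g - c • ContinuousLinearMap.id ℂ (EE G Unit)) := by
  rw [injective_iff_map_eq_zero]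
  intro f hf
  have h1 : ∀ x, f (g⁻¹ * x, ()) = c * f (x, ()) := by
    intro x
    have := congrArg (fun F : EE G Unit => F (x, ())) hf
    have h2 : f (g⁻¹ * x, ()) - c * f (x, ()) = 0 := this
    exact sub_eq_zero.1 h2
  have h2 : ∀ (n : ℕ) x, f ((g ^ n)⁻¹ * x, ()) = c ^ n * f (x, ()) := by
    intro n
    induction n with
    | zero => intro x; simp
    | succ n ih =>
      intro x
      rw [pow_succ, mul_inv_rev, mul_assoc, h1, ih, pow_succ]
      ring
  have hinj : Function.Injective (fun n : ℕ => g ^ n) := injective_pow_iff_not_isOfFinOrder.2 hg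
  have hsum := (memlp_two_iff _).1 f.2
  -- decay along the two half orbits
  have hdec1 : ∀ x, Filter.Tendsto (fun n : ℕ => ‖f ((g ^ n)⁻¹ * x, ())‖ ^ 2) Filter.atTop
      (nhds 0) := by
    intro x
    have := hsum.comp_injective (i := fun n : ℕ => (((g ^ n)⁻¹ * x, ()) : G × Unit)) (by
      intro a b hab
      simp only [Prod.mk.injEq, and_true, mul_left_inj, inv_inj] at hab
      exact hinj hab)
    exact this.tendsto_atTop_zero
  have hdec2 : ∀ x, Filter.Tendsto (fun n : ℕ => ‖f (g ^ n * x, ())‖ ^ 2) Filter.atTop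
      (nhds 0) := by
    intro x
    have := hsum.comp_injective (i := fun n : ℕ => ((g ^ n * x, ()) : G × Unit)) (by
      intro a b hab
      simp only [Prod.mk.injEq, and_true, mul_left_inj] at hab
      exact hinj hab)
    exact this.tendsto_atTop_zero
  ext ⟨x, ⟨⟩⟩
  change f (x, ()) = 0
  by_contra hx
  have hpos : 0 < ‖f (x, ())‖ ^ 2 := by positivity
  rcases le_total 1 ‖c‖ with hc | hc
  · have h3 := (hdec1 x).eventually_lt_const hpos
    obtain ⟨n, hn⟩ := h3.exists
    rw [h2, norm_mul, norm_pow] at hn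
    have : 1 ≤ ‖c‖ ^ n := one_le_pow₀ hc
    have h4 : ‖f (x, ())‖ ≤ ‖c‖ ^ n * ‖f (x, ())‖ := le_mul_of_one_le_left (norm_nonneg _) this
    have h5 : ‖f (x, ())‖ ^ 2 ≤ (‖c‖ ^ n * ‖f (x, ())‖) ^ 2 := by gcongr
    linarith
  · have h3 := (hdec2 x).eventually_lt_const hpos
    obtain ⟨n, hn⟩ := h3.exists
    have h4 := h2 n (g ^ n * x)
    rw [inv_mul_cancel_left] at h4
    rw [h4, norm_mul, norm_pow] at hn
    have : ‖c‖ ^ n ≤ 1 := pow_le_one₀ (norm_nonneg _) hc
    have h5 : ‖c‖ ^ n * ‖f (g ^ n * x, ())‖ ≤ ‖f (g ^ n * x, ())‖ :=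
      mul_le_of_le_one_left (norm_nonneg _) this
    have h6 : (‖c‖ ^ n * ‖f (g ^ n * x, ())‖) ^ 2 ≤ ‖f (g ^ n * x, ())‖ ^ 2 := by gcongr
    linarith

theorem aeval_injective (T : EE G Unit →L[ℂ] EE G Unit)
    (hT : ∀ c : ℂ, Function.Injective (T - c • ContinuousLinearMap.id ℂ (EE G Unit)))
    (p : Polynomial ℂ) (hp : p ≠ 0) : Function.Injective (Polynomial.aeval T p) := by
  have hsplit := (IsAlgClosed.splits p).eq_prod_roots
  rw [hsplit, map_mul, Polynomial.aeval_C]
  have h1 : ∀ s : Multiset ℂ, Function.Injective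
      (Polynomial.aeval T ((s.map (fun a => Polynomial.X - Polynomial.C a)).prod)) := by
    intro s
    induction s using Multiset.induction_on with
    | empty =>
      rw [Multiset.map_zero, Multiset.prod_zero, map_one]
      exact Function.injective_id
    | cons a s ih =>
      rw [Multiset.map_cons, Multiset.prod_cons, map_mul]
      have h2 : Polynomial.aeval T (Polynomial.X - Polynomial.C a)
          = T - a • ContinuousLinearMap.id ℂ (EE G Unit) := by
        rw [map_sub, Polynomial.aeval_X, Polynomial.aeval_C, Algebra.algebraMap_eq_smul_one]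
        rfl
      rw [h2]
      exact (hT a).comp ih
  have h2 : (algebraMap ℂ (EE G Unit →L[ℂ] EE G Unit)) p.leadingCoeff
      * Polynomial.aeval T ((p.roots.map (fun a => Polynomial.X - Polynomial.C a)).prod)
      = p.leadingCoeff •
        Polynomial.aeval T ((p.roots.map (fun a => Polynomial.X - Polynomial.C a)).prod) := by
    rw [Algebra.smul_def]
  rw [h2]
  intro f g hfg
  apply h1 p.roots
  have h3 : p.leadingCoeff • (Polynomial.aeval T
      ((p.roots.map (fun a => Polynomial.X - Polynomial.C a)).prod) f)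
      = p.leadingCoeff • (Polynomial.aeval T
      ((p.roots.map (fun a => Polynomial.X - Polynomial.C a)).prod) g) := hfg
  exact (smul_right_injective _ (Polynomial.leadingCoeff_ne_zero.2 hp)) h3

/-- the action of the group algebra -/
noncomputable def cop : (G →₀ ℂ) →ₗ[ℂ] (EE G Unit →L[ℂ] EE G Unit) :=
  Finsupp.linearCombination ℂ (fun t : G => Ltr t)

theorem cop_single (t : G) (c : ℂ) : cop (Finsupp.single t c) = c • Ltr t := by
  unfold cop
  rw [Finsupp.linearCombination_single]

theorem cop_eqv (α : G →₀ ℂ) : Eqv (cop α) := by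
  intro k f
  induction α using Finsupp.induction_linear with
  | zero => rw [map_zero]; change (0 : EE G Unit) = tr k 0; rw [tr_zero]
  | add a b ha hb =>
    rw [map_add]
    change cop a (tr k f) + cop b (tr k f) = tr k (cop a f + cop b f)
    rw [ha, hb, tr_add]
  | single t c =>
    rw [cop_single]
    change c • (Ltr t) (tr k f) = tr k (c • (Ltr t) f)
    rw [elem_eqv, tr_smul]

theorem cop_apply (α : G →₀ ℂ) (f : EE G Unit) (x : G) :
    cop α f (x, ()) = ∑ k ∈ α.support, α k * f (k⁻¹ * x, ()) := by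
  have h : ∀ x, cop α f (x, ()) = α.sum (fun k c => c * f (k⁻¹ * x, ())) := by
    intro x
    induction α using Finsupp.induction_linear with
    | zero => rw [map_zero, Finsupp.sum_zero_index]; rfl
    | add a b ha hb =>
      rw [map_add, Finsupp.sum_add_index' (by simp) (by intros; ring), ← ha, ← hb]
      rfl
    | single t c =>
      rw [cop_single, Finsupp.sum_single_index (by simp)]
      rfl
  exact h x

/-- the nonzero elements of `ℂ⟨g⟩` act injectively -/
theorem cop_zpowers_injective (g : G) (hg : ¬ IsOfFinOrder g) (α : G →₀ ℂ) (hα : α ≠ 0)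
    (hs : ∀ x ∈ α.support, x ∈ Subgroup.zpowers g) : Function.Injective (cop α) := by
  classical
  have hinjz : Function.Injective (fun n : ℤ => g ^ n) := injective_zpow_iff_not_isOfFinOrder.2 hg
  -- exponents
  have hex : ∀ x ∈ α.support, ∃ n : ℤ, g ^ n = x := fun x hx => hs x hx
  choose! e he using hex
  -- a lower bound for the exponents
  obtain ⟨m, hm⟩ : ∃ m : ℕ, ∀ x ∈ α.support, 0 ≤ e x + m := by
    refine ⟨∑ x ∈ α.support, (e x).natAbs, fun x hx => ?_⟩
    have h1 : (e x).natAbs ≤ ∑ x ∈ α.support, (e x).natAbs :=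
      Finset.single_le_sum (f := fun x => (e x).natAbs) (fun _ _ => Nat.zero_le _) hx
    have h2 : -(e x) ≤ ((e x).natAbs : ℤ) := by omega
    have h3 : ((e x).natAbs : ℤ) ≤ ((∑ x ∈ α.support, (e x).natAbs : ℕ) : ℤ) := by
      exact_mod_cast h1
    omega
  let p : Polynomial ℂ := ∑ x ∈ α.support, Polynomial.monomial (e x + m).toNat (α x)
  have hp0 : p ≠ 0 := by
    obtain ⟨x0, hx0⟩ := Finsupp.support_nonempty_iff.2 hα
    intro hp
    have h1 : p.coeff (e x0 + m).toNat = α x0 := by
      simp only [p]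
      rw [Polynomial.finsetSum_coeff, Finset.sum_eq_single x0]
      · rw [Polynomial.coeff_monomial, if_pos rfl]
      · intro x hx hne
        rw [Polynomial.coeff_monomial, if_neg]
        intro hcon
        apply hne
        have h1 := hm x hx
        have h2 := hm x0 hx0
        have h3 : e x = e x0 := by omega
        rw [← he x hx, ← he x0 hx0, h3]
      · intro h; exact absurd hx0 h
    rw [hp, Polynomial.coeff_zero] at h1
    exact (Finsupp.mem_support_iff.1 hx0) h1.symm
  have hinj := aeval_injective (Ltr g) (Ltr_sub_injective g hg) p hp0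
  -- `L_{g^m} ∘ cop α = p (L_g)`
  have key : (Ltr (g ^ m)).comp (cop α) = Polynomial.aeval (Ltr g) p := by
    have h1 : cop α = ∑ x ∈ α.support, α x • Ltr x := by
      unfold cop
      rw [Finsupp.linearCombination_apply, Finsupp.sum]
    rw [h1]
    simp only [p]
    rw [map_sum]
    ext f y
    rw [ContinuousLinearMap.comp_apply, sum_apply, map_sum, sum_apply_EE, sum_apply, sum_apply_EE]
    refine Finset.sum_congr rfl fun x hx => ?_
    have h2 : Polynomial.aeval (Ltr g) (Polynomial.monomial (e x + m).toNat (α x))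
        = α x • Ltr (g ^ (e x + m).toNat) := by
      rw [Polynomial.aeval_monomial, Ltr_pow, Algebra.smul_def]
    rw [h2]
    have h3 : g ^ (e x + m).toNat = g ^ m * x := by
      rw [← zpow_natCast, Int.toNat_of_nonneg (hm x hx), add_comm, zpow_add, zpow_natCast, he x hx]
    rw [h3, Ltr_mul]
    have h4 : (Ltr (g ^ m)) ((α x • Ltr x) f) = α x • (Ltr (g ^ m)) ((Ltr x) f) := by
      change (Ltr (g ^ m)) (α x • (Ltr x f)) = _
      rw [map_smul]
    rw [h4]
    rfl
  rw [← key] at hinj
  exact Function.Injective.of_comp (f := Ltr (g ^ m)) hinj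

end

/-! Comparison with `ℓ²(G)`. -/

section
variable {G : Type u} [Group G]

/-- all square-summable `f` with `α * f = 0` -/
def kern (α : G →₀ ℂ) : Set (lp (fun _ : G => ℂ) 2) :=
  {f | ∀ g : G, ∑ k ∈ α.support, α k * f (k⁻¹ * g) = 0}

theorem memlp_unit (f : lp (fun _ : G => ℂ) 2) : Memℓp (fun x : G × Unit => f x.1) 2 := by
  rw [memlp_two_iff]
  have h := (memlp_two_iff _).1 f.2
  exact (Equiv.summable_iff (Equiv.prodPUnit G)).2 h

/-- `ℓ²(G) → ℓ²(G × Unit)` -/
noncomputable def toU (f : lp (fun _ : G => ℂ) 2) : EE G Unit := ⟨fun x => f x.1, memlp_unit f⟩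

theorem toU_apply (f : lp (fun _ : G => ℂ) 2) (x : G) : toU f (x, ()) = f x := rfl

theorem toU_sub (f g : lp (fun _ : G => ℂ) 2) : toU (f - g) = toU f - toU g := by
  ext x; rfl

theorem norm_toU (f : lp (fun _ : G => ℂ) 2) : ‖toU f‖ = ‖f‖ := by
  have e : ‖toU f‖ ^ 2 = ‖f‖ ^ 2 := by
    rw [norm_sq_tsum, norm_sq_tsum]
    exact (Equiv.prodPUnit G).tsum_eq (fun x => ‖f x‖ ^ 2)
  exact (sq_eq_sq₀ (norm_nonneg _) (norm_nonneg _)).1 e

theorem isometry_toU : Isometry (toU : lp (fun _ : G => ℂ) 2 → EE G Unit) := by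
  apply Isometry.of_dist_eq
  intro f g
  rw [dist_eq_norm, dist_eq_norm, ← toU_sub, norm_toU]

theorem toU_surj (F : EE G Unit) : ∃ f : lp (fun _ : G => ℂ) 2, toU f = F := by
  refine ⟨⟨fun x => F (x, ()), ?_⟩, ?_⟩
  · have : Memℓp (fun x => F (x, ())) 2 := by
      rw [memlp_two_iff]
      have h := (memlp_two_iff _).1 F.2
      exact (Equiv.summable_iff (Equiv.prodPUnit G).symm).2 h
    exact this
  · ext ⟨x, ⟨⟩⟩
    rfl

theorem toU_image_kern (α : G →₀ ℂ) :
    toU '' kern α = (LinearMap.ker (cop α : EE G Unit →ₗ[ℂ] EE G Unit) : Set (EE G Unit)) := by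
  ext F
  constructor
  · rintro ⟨f, hf, rfl⟩
    change cop α (toU f) = 0
    ext ⟨x, ⟨⟩⟩
    rw [cop_apply]
    exact hf x
  · intro hF
    obtain ⟨f, rfl⟩ := toU_surj F
    refine ⟨f, fun g => ?_, rfl⟩
    have h1 : cop α (toU f) = 0 := hF
    have h2 := cop_apply α (toU f) g
    rw [h1] at h2
    exact h2.symm

open Classical in
theorem toU_single : toU (lp.single 2 (1 : G) (1 : ℂ)) = (dl ((1 : G), ()) : EE G Unit) := by
  ext ⟨x, ⟨⟩⟩
  rw [toU_apply]
  by_cases hx : x = 1
  · subst hx
    rw [dl_apply_self]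
    exact lp.single_apply_self (E := fun _ : G => ℂ) 2 (1 : G) (1 : ℂ)
  · rw [dl_apply_ne]
    · exact lp.single_apply_ne (E := fun _ : G => ℂ) 2 (1 : G) (1 : ℂ) hx
    · intro h; exact hx (congrArg Prod.fst h)

open Classical in
/-- the concrete kernel dimension -/
theorem kerDim_eq_vd (α : G →₀ ℂ) :
    1 - Metric.infDist (lp.single 2 (1 : G) (1 : ℂ)) (kern α) ^ 2
      = vd (LinearMap.ker (cop α : EE G Unit →ₗ[ℂ] EE G Unit)) := by
  rw [vd_eq_infDist _ (ContinuousLinearMap.isClosed_ker (cop α))]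
  simp only [Finset.univ_unique, PUnit.default_eq_unit, Finset.sum_singleton]
  rw [← toU_image_kern, ← toU_single, Metric.infDist_image isometry_toU]

/-- the concrete regularity -/
theorem regular_iff (α : G →₀ ℂ) :
    (∀ f : G → ℂ, Memℓp f 2 → f ≠ 0 → ∃ g : G, ∑ k ∈ α.support, α k * f (k⁻¹ * g) ≠ 0)
      ↔ Function.Injective (cop α) := by
  constructor
  · intro h
    rw [injective_iff_map_eq_zero]
    intro F hF
    obtain ⟨f, rfl⟩ := toU_surj F
    by_contra hne
    have hf0 : (fun x => f x) ≠ 0 := by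
      intro h0
      apply hne
      ext ⟨x, ⟨⟩⟩
      exact congrFun h0 x
    obtain ⟨g, hg⟩ := h (fun x => f x) f.2 hf0
    apply hg
    have h2 := cop_apply α (toU f) g
    rw [hF] at h2
    exact h2.symm
  · intro h f hf hf0
    by_contra hcon
    push Not at hcon
    apply hf0
    let F : lp (fun _ : G => ℂ) 2 := ⟨f, hf⟩
    have h1 : cop α (toU F) = 0 := by
      ext ⟨x, ⟨⟩⟩
      rw [cop_apply]
      exact hcon x
    have h2 : toU F = 0 := h (by rw [h1, map_zero])
    funext x
    have := congrArg (fun H : EE G Unit => H (x, ())) h2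
    exact this

end

end Pool.Agent.W649.ZL
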