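import Pool.Agent.W649.ZL.Bez3
import Pool.Agent.W649.ZL.Generic
import Pool.Agent.W649.ZL.Conv

set_option autoImplicit false
set_option linter.unusedSectionVars false

open scoped InnerProductSpace InnerProduct ENNReal TensorProduct

/-! The Bezout inequality for matrices over the group algebra depending on two parameters. -/

namespace Pool.Agent.W649.ZL

open Module MvPolynomial

universe u v w z

section
variable {G : Type u} {K : Type v} [Group G] [Fintype K] [DecidableEq K]

/-- the value at `p` of a matrix with polynomial coefficients -/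
noncomputable def atP (P : K → K → (G →₀ R2)) (p : Fin 2 → ℂ) : K → K → (G →₀ ℂ) :=
  fun k l => (P k l).mapRange (eval p) (map_zero _)

/-- a finite set containing the supports of the entries -/
noncomputable def suppP (P : K → K → (G →₀ R2)) : Finset G := by
  classical
  exact Finset.univ.biUnion (fun k => Finset.univ.biUnion (fun l => (P k l).support))

theorem mem_suppP (P : K → K → (G →₀ R2)) (k l : K) (g : G) (h : P k l g ≠ 0) :
    g ∈ suppP P := by
  classical
  unfold suppP
  rw [Finset.mem_biUnion]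
  refine ⟨k, Finset.mem_univ _, ?_⟩
  rw [Finset.mem_biUnion]
  exact ⟨l, Finset.mem_univ _, Finsupp.mem_support_iff.2 h⟩

/-- the coefficients -/
noncomputable def coP (P : K → K → (G →₀ R2)) (T : Finset G) : (T × K × K) → R2 := fun i => P i.2.1 i.2.2 i.1

/-- the operators for the finite set `T` -/
noncomputable def fT (K : Type v) [Fintype K] [DecidableEq K] (T : Finset G) :
    (T × K × K) → EE G K →L[ℂ] EE G K :=
  famR (fun i : T × K × K => (i.1 : G)) (fun i => i.2.1) (fun i => i.2.2)

theorem kerDimM_atP (P : K → K → (G →₀ R2)) (T : Finset G) (hT : suppP P ⊆ T)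
    (p : Fin 2 → ℂ) :
    kerDimM (atP P p) = vd (LinearMap.ker (lin (fT K T) (fun i => eval p (coP P T i)) :
      EE G K →ₗ[ℂ] EE G K)) := by
  have h1 := matM_coefT T (atP P p) (by
    intro k l g hg
    apply hT
    apply mem_suppP P k l g
    intro h0
    apply (Finsupp.mem_support_iff.1 hg)
    unfold atP
    rw [Finsupp.mapRange_apply, h0, map_zero])
  rw [← h1, kerDimM_eq]
  rfl

theorem bezout_mat (P : K → K → (G →₀ R2)) (δ : ℕ)
    (hP : ∀ k l g, (P k l g).totalDegree ≤ δ) (F : R2) (hF : F ≠ 0)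
    (hgood : ∀ f : R2, Irreducible f → f ∣ F → ∃ y, eval y f = 0 ∧ kerDimM (atP P y) = 0)
    (S : Finset (Fin 2 → ℂ)) (m : (Fin 2 → ℂ) → ℕ)
    (hm : ∀ p ∈ S, F ∈ (RingHom.ker (eval p)) ^ (m p)) :
    ∑ p ∈ S, (m p : ℝ) * kerDimM (atP P p) ≤ δ * Fintype.card K * F.totalDegree := by
  have h1 := bezout (fT K (suppP P)) (fun _ => elem_eqv _ _ _) (coP P (suppP P)) δ
    (fun i => hP _ _ _) F hF (fun f hf hfF => by
      obtain ⟨y, hy1, hy2⟩ := hgood f hf.irreducible hfF
      refine ⟨y, hy1, ?_⟩
      rw [kerDimM_atP P _ subset_rfl] at hy2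
      exact injective_of_vd_eq_zero _ (lin_eqv _ (fun _ => elem_eqv _ _ _) _) hy2.le) S m
    (fun p hp n hn => shift_mem_pow p (m p) F (hm p hp) n hn)
  rw [Finset.sum_congr rfl fun p _ => by rw [kerDimM_atP P _ subset_rfl p]]
  exact h1

theorem squares_mat (P : K → K → (G →₀ R2)) (δ : ℕ)
    (hP : ∀ k l g, (P k l g).totalDegree ≤ δ)
    (hgood : ∀ f : R2, Irreducible f → ∃ y, eval y f = 0 ∧ kerDimM (atP P y) = 0)
    (S : Finset (Fin 2 → ℂ)) :
    ∑ p ∈ S, kerDimM (atP P p) ^ 2 ≤ ((δ : ℝ) * Fintype.card K) ^ 2 := by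
  have h1 := sum_squares (fT K (suppP P)) (fun _ => elem_eqv _ _ _) (coP P (suppP P)) δ
    (fun i => hP _ _ _) (fun f hf => by
      obtain ⟨y, hy1, hy2⟩ := hgood f hf.irreducible
      refine ⟨y, hy1, ?_⟩
      rw [kerDimM_atP P _ subset_rfl] at hy2
      exact injective_of_vd_eq_zero _ (lin_eqv _ (fun _ => elem_eqv _ _ _) _) hy2.le) S
  rw [Finset.sum_congr rfl fun p _ => by rw [kerDimM_atP P _ subset_rfl p]]
  exact h1

/-! shifts by two diagonal matrices -/

/-- the coefficients of a diagonal matrix of group elements -/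
noncomputable def aX (T : Finset G) (x : K → G) : (T × K × K) → ℂ := by
  classical
  exact fun i => if i.2.1 = i.2.2 ∧ (i.1 : G) = x i.2.1 then 1 else 0

theorem lin_aX (T : Finset G) (x : K → G) (hx : ∀ k, x k ∈ T) (F : EE G K) (u : G) (l : K) :
    lin (fT K T) (aX T x) F (u, l) = F (x l * u, l) := by
  classical
  unfold fT
  rw [lin_famR_apply, Finset.sum_eq_single ((⟨x l, hx l⟩, l, l) : T × K × K)]
  · unfold aX
    rw [if_pos ⟨rfl, rfl⟩, if_pos rfl, one_mul]
  · rintro ⟨t, k, j⟩ _ hne
    unfold aX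
    by_cases h : k = j ∧ (t : G) = x k
    · rw [if_pos h, one_mul, if_neg]
      rintro rfl
      apply hne
      obtain ⟨h1, h2⟩ := h
      subst h1
      exact Prod.ext (Subtype.ext h2) rfl
    · rw [if_neg h, zero_mul]
  · intro h; exact absurd (Finset.mem_univ _) h

theorem lin_add (T : Finset G) (a b : (T × K × K) → ℂ) (F : EE G K) :
    lin (fT K T) (a + b) F = lin (fT K T) a F + lin (fT K T) b F := by
  rw [lin_apply, lin_apply, lin_apply, ← Finset.sum_add_distrib]
  refine Finset.sum_congr rfl fun i _ => ?_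
  rw [Pi.add_apply, add_smul]

theorem diag_injective (T : Finset G) (x x' : K → G) (hx : ∀ k, x k ∈ T) (hx' : ∀ k, x' k ∈ T)
    (hinf : ∀ k, ¬ IsOfFinOrder (x k * (x' k)⁻¹)) (s t : ℂ) (hst : s ≠ 0 ∨ t ≠ 0) :
    Function.Injective (s • lin (fT K T) (aX T x) + t • lin (fT K T) (aX T x')) := by
  classical
  rw [injective_iff_map_eq_zero]
  intro F hF
  ext ⟨v, l⟩
  have hmem : Memℓp (fun y : G × Unit => F (y.1, l)) 2 := by
    rw [memlp_two_iff]
    have h1 := (memlp_two_iff _).1 F.2
    exact h1.comp_injective (i := fun y : G × Unit => ((y.1, l) : G × K)) (by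
      rintro ⟨a, ⟨⟩⟩ ⟨b, ⟨⟩⟩ hab
      simp only [Prod.mk.injEq, and_true] at hab
      rw [hab])
  let f : EE G Unit := ⟨fun y => F (y.1, l), hmem⟩
  set g := x l * (x' l)⁻¹ with hg
  have hg1 : g ≠ 1 := by
    intro h
    apply hinf l
    rw [← hg, h]
    exact IsOfFinOrder.one
  let α : G →₀ ℂ := Finsupp.single 1 s + Finsupp.single g t
  have hα : α ≠ 0 := by
    intro h
    have h0 : α 1 = s := by
      simp only [α]
      rw [Finsupp.add_apply, Finsupp.single_eq_same, Finsupp.single_apply, if_neg hg1, add_zero]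
    have h1 : α g = t := by
      simp only [α]
      rw [Finsupp.add_apply, Finsupp.single_eq_same, Finsupp.single_apply, if_neg (Ne.symm hg1),
        zero_add]
    rw [h] at h0 h1
    rcases hst with h2 | h2
    · exact h2 h0.symm
    · exact h2 h1.symm
  have hsupp : ∀ y ∈ α.support, y ∈ Subgroup.zpowers g := by
    intro y hy
    have h1 : y ∈ (Finsupp.single (1 : G) s).support ∪ (Finsupp.single g t).support :=
      Finsupp.support_add hy
    rw [Finset.mem_union] at h1
    rcases h1 with h1 | h1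
    · have := Finsupp.support_single_subset h1
      rw [Finset.mem_singleton] at this
      rw [this]; exact Subgroup.one_mem _
    · have := Finsupp.support_single_subset h1
      rw [Finset.mem_singleton] at this
      rw [this]; exact Subgroup.mem_zpowers g
  have hinj := cop_zpowers_injective g (hinf l) α hα hsupp
  have h0 : cop α f = 0 := by
    ext ⟨y, ⟨⟩⟩
    simp only [α]
    rw [map_add, cop_single, cop_single]
    change s * f ((1 : G)⁻¹ * y, ()) + t * f (g⁻¹ * y, ()) = 0
    have h1 : (s • lin (fT K T) (aX T x) + t • lin (fT K T) (aX T x')) F ((x l)⁻¹ * y, l)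
        = 0 := by rw [hF]; rfl
    have h2 : (s • lin (fT K T) (aX T x) + t • lin (fT K T) (aX T x')) F ((x l)⁻¹ * y, l)
        = s * lin (fT K T) (aX T x) F ((x l)⁻¹ * y, l)
          + t * lin (fT K T) (aX T x') F ((x l)⁻¹ * y, l) := rfl
    rw [h2, lin_aX T x hx, lin_aX T x' hx'] at h1
    change s * F ((1 : G)⁻¹ * y, l) + t * F (g⁻¹ * y, l) = 0
    rw [hg, mul_inv_rev, inv_inv, inv_one, one_mul, mul_assoc]
    rw [mul_inv_cancel_left] at h1
    exact h1
  have h1 : f = 0 := hinj (by rw [h0, map_zero])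
  have h2 := congrArg (fun H : EE G Unit => H (v, ())) h1
  exact h2

/-- the matrix `B + s diag(x) + t diag(x')` -/
noncomputable def shiftP (B : K → K → (G →₀ ℂ)) (x x' : K → G) : K → K → (G →₀ R2) :=
  fun k l => (B k l).mapRange C (map_zero _)
    + if k = l then Finsupp.single (x k) (X 0) + Finsupp.single (x' k) (X 1) else 0

open Classical in
theorem shiftP_apply (B : K → K → (G →₀ ℂ)) (x x' : K → G) (k l : K) (g : G) :
    shiftP B x x' k l g = C (B k l g) + (if k = l ∧ g = x k then X 0 else 0)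
      + (if k = l ∧ g = x' k then X 1 else 0) := by
  unfold shiftP
  by_cases h : k = l
  · rw [if_pos h, Finsupp.add_apply, Finsupp.mapRange_apply, Finsupp.add_apply,
      Finsupp.single_apply, Finsupp.single_apply]
    simp only [h, true_and, eq_comm, add_assoc]
  · rw [if_neg h, add_zero, Finsupp.mapRange_apply]
    simp [h]

theorem shiftP_degree (B : K → K → (G →₀ ℂ)) (x x' : K → G) (k l : K) (g : G) :
    (shiftP B x x' k l g).totalDegree ≤ 1 := by
  classical
  rw [shiftP_apply]
  refine (totalDegree_add _ _).trans (max_le ((totalDegree_add _ _).trans (max_le ?_ ?_)) ?_)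
  · rw [totalDegree_C]; omega
  · split_ifs
    · rw [totalDegree_X]
    · rw [totalDegree_zero]; omega
  · split_ifs
    · rw [totalDegree_X]
    · rw [totalDegree_zero]; omega

theorem shift_countable (B : K → K → (G →₀ ℂ)) (x x' : K → G)
    (hinf : ∀ k, ¬ IsOfFinOrder (x k * (x' k)⁻¹)) :
    {p : Fin 2 → ℂ | kerDimM (atP (shiftP B x x') p) ≠ 0}.Countable := by
  classical
  set P := shiftP B x x' with hPdef
  let T : Finset G := suppP P ∪ Finset.univ.image x ∪ Finset.univ.image x'
  have hT : suppP P ⊆ T := fun g hg => Finset.mem_union_left _ (Finset.mem_union_left _ hg)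
  have hxT : ∀ k, x k ∈ T := fun k => Finset.mem_union_left _ (Finset.mem_union_right _
    (Finset.mem_image_of_mem _ (Finset.mem_univ _)))
  have hxT' : ∀ k, x' k ∈ T := fun k => Finset.mem_union_right _
    (Finset.mem_image_of_mem _ (Finset.mem_univ _))
  let aB : (T × K × K) → ℂ := fun i => B i.2.1 i.2.2 i.1
  let A : Unit ⊕ Fin 2 → EE G K →L[ℂ] EE G K := Sum.elim (fun _ => lin (fT K T) aB)
    (fun i => if i = 0 then lin (fT K T) (aX T x) else lin (fT K T) (aX T x'))
  have hfe : ∀ i, Eqv (fT K T i) := fun _ => elem_eqv _ _ _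
  have hA : ∀ i, Eqv (A i) := by
    intro i
    rcases i with i | i
    · exact lin_eqv _ hfe _
    · simp only [A, Sum.elim_inr]
      split_ifs
      · exact lin_eqv _ hfe _
      · exact lin_eqv _ hfe _
  have hlin : ∀ (c : ℂ) (y : Fin 2 → ℂ), lin A (Sum.elim (fun _ => c) y)
      = c • lin (fT K T) aB + (y 0 • lin (fT K T) (aX T x) + y 1 • lin (fT K T) (aX T x')) := by
    intro c y
    unfold lin
    rw [Fintype.sum_sum_type, Fin.sum_univ_two]
    simp only [A, Sum.elim_inl, Sum.elim_inr, Finset.univ_unique, Finset.sum_singleton,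
      if_true, if_neg (by decide : ¬ (1 : Fin 2) = 0)]
    rfl
  have hnice : ∀ y : Fin 2 → ℂ, y ≠ 0 → Function.Injective (lin A (Sum.elim 0 y)) := by
    intro y hy
    have h1 : lin A (Sum.elim 0 y) = lin A (Sum.elim (fun _ => (0 : ℂ)) y) := rfl
    rw [h1, hlin, zero_smul, zero_add]
    apply diag_injective T x x' hxT hxT' hinf
    by_contra hcon
    push Not at hcon
    apply hy
    funext i
    fin_cases i
    · exact hcon.1
    · exact hcon.2
  have hval : ∀ p : Fin 2 → ℂ, lin A (Sum.elim (fun _ => 1) p)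
      = lin (fT K T) (fun i => eval p (coP P T i)) := by
    intro p
    rw [hlin]
    have h1 : (fun i => eval p (coP P T i)) = aB + (p 0 • aX T x + p 1 • aX T x') := by
      funext i
      unfold coP
      rw [hPdef, shiftP_apply]
      simp only [map_add, Pi.add_apply, Pi.smul_apply, smul_eq_mul, eval_C]
      rw [add_assoc]
      congr 1
      unfold aX
      congr 1
      · split_ifs <;> simp
      · split_ifs <;> simp
    rw [h1]
    ext F y
    rw [lin_add, lin_add, lin_smul, lin_smul, one_smul]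
    rfl
  have hfin := fun k : ℕ => fam_finite A hA (1 / ((k : ℝ) + 1)) (by positivity) hnice
  refine (Set.countable_iUnion fun k => (hfin k).countable).mono ?_
  intro p hp
  have hp' : kerDimM (atP P p) ≠ 0 := hp
  rw [kerDimM_atP P T hT p, ← hval] at hp'
  have hpos : 0 < vd (LinearMap.ker (lin A (Sum.elim (fun _ => 1) p) :
      EE G K →ₗ[ℂ] EE G K)) := lt_of_le_of_ne (vd_nonneg _) (Ne.symm hp')
  obtain ⟨k, hk⟩ := exists_nat_one_div_lt hpos
  exact Set.mem_iUnion.2 ⟨k, hk.le⟩

theorem squares_shift (B : K → K → (G →₀ ℂ)) (x x' : K → G)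
    (hinf : ∀ k, ¬ IsOfFinOrder (x k * (x' k)⁻¹)) (S : Finset (Fin 2 → ℂ)) :
    ∑ p ∈ S, kerDimM (atP (shiftP B x x') p) ^ 2 ≤ (Fintype.card K : ℝ) ^ 2 := by
  have h := squares_mat (shiftP B x x') 1 (shiftP_degree B x x') (fun f hf => by
    obtain ⟨y, hy1, hy2⟩ := exists_point f hf.not_isUnit hf.ne_zero _
      (shift_countable B x x' hinf)
    refine ⟨y, hy1, ?_⟩
    by_contra hne
    exact hy2 hne) S
  rw [Nat.cast_one, one_mul] at h
  exact h

end

end Pool.Agent.W649.ZL
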