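import Pool.Agent.W649.ZL.Cone

set_option autoImplicit false

/-! Consequences: finiteness of affine sections, algebraic dependence, Krull dimension. -/

namespace Pool.Agent.W649.ZL

open MvPolynomial Module

section
variable {X Y : Type*} [Fintype X] [Fintype Y]

/-- If `X` is a point, the section of the cone at height `1` is finite. -/
theorem section_finite (Z : Set (Unit ⊕ Y → ℂ)) (hcone : ∀ z ∈ Z, ∀ t : ℂ, t • z ∈ Z)
    (hclosed : zeroLocus ℂ (vanishingIdeal ℂ Z) = Z)
    (hmeet : ∀ z ∈ Z, (∀ x, z (Sum.inl x) = 0) → z = 0) :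
    {y : Y → ℂ | Sum.elim (fun _ => 1) y ∈ Z}.Finite := by
  classical
  obtain ⟨K, hK1, hK⟩ := cone_integral Z hcone hclosed hmeet
  set Z' := {y : Y → ℂ | Sum.elim (fun _ => 1) y ∈ Z} with hZ'
  let r : (Z → ℂ) →ₗ[ℂ] (Z' → ℂ) :=
    { toFun := fun f y => f ⟨Sum.elim (fun _ => 1) y.1, y.2⟩
      map_add' := fun _ _ => rfl
      map_smul' := fun _ _ => rfl }
  let V0 : Submodule ℂ (Z' → ℂ) :=
    Submodule.span ℂ (Set.range (fun (b : Y → Fin K) (y : Z') => ∏ j, y.1 j ^ (b j : ℕ)))
  have hV0 : FiniteDimensional ℂ V0 := FiniteDimensional.span_of_finite ℂ (Set.finite_range _)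
  have hr : ∀ n, (Wsp Z K n).map r ≤ V0 := by
    intro n
    rw [Wsp, Submodule.map_span_le]
    rintro f ⟨e, -, he, rfl⟩
    apply Submodule.subset_span
    refine ⟨fun j => ⟨e (Sum.inr j), he j⟩, ?_⟩
    ext y
    change _ = eval (Sum.elim (fun _ => 1) y.1) (monomial e 1)
    rw [eval_monomial, Finsupp.prod_fintype _ _ (by simp), Fintype.prod_sum_type]
    simp
  have hpow : ∀ (j : Y) (s : ℕ), (fun y : Z' => y.1 j ^ s) ∈ V0 := by
    intro j s
    have h1 := mono_mem_W Z K hK1 hK _ (Finsupp.single (Sum.inr j) s) rfl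
    have h2 := hr _ (Submodule.mem_map_of_mem (f := r) h1)
    convert h2 using 1
    ext y
    change _ = eval (Sum.elim (fun _ => 1) y.1) (monomial (Finsupp.single (Sum.inr j) s) 1)
    rw [eval_monomial]
    simp
  have hpoly : ∀ j : Y, ∃ p : Polynomial ℂ, p ≠ 0 ∧ ∀ y : Z', p.eval (y.1 j) = 0 := by
    intro j
    let φ : Polynomial ℂ →ₗ[ℂ] (Z' → ℂ) :=
      { toFun := fun p y => p.eval (y.1 j)
        map_add' := fun p q => by ext y; simp
        map_smul' := fun c p => by ext y; simp }
    have hφ : ∀ p, φ p ∈ V0 := by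
      intro p
      induction p using Polynomial.induction_on' with
      | add p q hp hq => rw [map_add]; exact V0.add_mem hp hq
      | monomial n a =>
        have : φ (Polynomial.monomial n a) = a • (fun y : Z' => y.1 j ^ n) := by
          ext y
          change Polynomial.eval (y.1 j) _ = _
          simp
        rw [this]
        exact V0.smul_mem _ (hpow j n)
    by_contra hcon
    push Not at hcon
    have hinj : Function.Injective (LinearMap.codRestrict V0 φ hφ) := by
      rw [← LinearMap.ker_eq_bot, LinearMap.ker_eq_bot']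
      intro p hp
      by_contra hp0
      obtain ⟨y, hy⟩ := hcon p hp0
      apply hy
      have := congrArg (fun f => (f : V0).1 y) hp
      exact this
    exact Polynomial.not_finite (Module.Finite.of_injective _ hinj)
  choose p hp0 hp using hpoly
  refine (Set.Finite.pi (fun j => (p j).roots.toFinset.finite_toSet)).subset ?_
  intro y hy j _
  rw [Finset.mem_coe, Multiset.mem_toFinset, Polynomial.mem_roots (hp0 j)]
  exact hp j ⟨y, hy⟩

/-- If `|X| < |Y|`, the coordinates of the second factor are algebraically dependent on `Z`. -/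
theorem exists_relation (Z : Set (X ⊕ Y → ℂ)) (hcone : ∀ z ∈ Z, ∀ t : ℂ, t • z ∈ Z)
    (hclosed : zeroLocus ℂ (vanishingIdeal ℂ Z) = Z)
    (hmeet : ∀ z ∈ Z, (∀ x, z (Sum.inl x) = 0) → z = 0)
    (hcard : Fintype.card X < Fintype.card Y) :
    ∃ Q : MvPolynomial Y ℂ, Q ≠ 0 ∧ ∀ z ∈ Z, eval (fun y => z (Sum.inr y)) Q = 0 := by
  classical
  obtain ⟨K, hK1, hK⟩ := cone_integral Z hcone hclosed hmeet
  set m := Fintype.card X with hm
  set n := Fintype.card Y with hn
  -- the size of the box
  obtain ⟨s, hs⟩ : ∃ s : ℕ, (n * s + 1) ^ m * K ^ n < (s + 1) ^ n := by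
    refine ⟨n ^ m * K ^ n, ?_⟩
    set s := n ^ m * K ^ n with hsdef
    have hn1 : 1 ≤ n := by omega
    have h1 : (n * s + 1) ^ m ≤ n ^ m * (s + 1) ^ m := by
      rw [← mul_pow]
      apply Nat.pow_le_pow_left
      nlinarith
    have h2 : (s + 1) ^ (m + 1) ≤ (s + 1) ^ n := Nat.pow_le_pow_right (by omega) (by omega)
    calc (n * s + 1) ^ m * K ^ n ≤ n ^ m * (s + 1) ^ m * K ^ n := Nat.mul_le_mul_right _ h1
      _ = s * (s + 1) ^ m := by rw [hsdef]; ring
      _ < (s + 1) * (s + 1) ^ m := by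
          apply Nat.mul_lt_mul_of_pos_right (Nat.lt_succ_self s)
          positivity
      _ = (s + 1) ^ (m + 1) := by ring
      _ ≤ _ := h2
  let mon : (Y → Fin (s + 1)) → ((X ⊕ Y) →₀ ℕ) := fun b =>
    Finsupp.equivFunOnFinite.symm (Sum.elim (fun _ => 0) (fun y => (b y : ℕ)))
  let gen : (X → Fin (n * s + 1)) × (Y → Fin K) → (Z → ℂ) := fun c z =>
    (∏ x, z.1 (Sum.inl x) ^ (c.1 x : ℕ)) * ∏ y, z.1 (Sum.inr y) ^ (c.2 y : ℕ)
  let U : Submodule ℂ (Z → ℂ) := Submodule.span ℂ (Set.range gen)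
  have hU : FiniteDimensional ℂ U := FiniteDimensional.span_of_finite ℂ (Set.finite_range _)
  have hUcard : finrank ℂ U ≤ (n * s + 1) ^ m * K ^ n := by
    calc finrank ℂ U = Set.finrank ℂ (Set.range gen) := rfl
      _ ≤ Fintype.card ((X → Fin (n * s + 1)) × (Y → Fin K)) := finrank_range_le_card _
      _ = (n * s + 1) ^ m * K ^ n := by simp [hm, hn]
  have hWU : ∀ t, t ≤ n * s → Wsp Z K t ≤ U := by
    intro t ht
    rw [Wsp, Submodule.span_le]
    rintro f ⟨e, he1, he2, rfl⟩
    apply Submodule.subset_span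
    refine ⟨(fun x => ⟨e (Sum.inl x), ?_⟩, fun y => ⟨e (Sum.inr y), he2 y⟩), ?_⟩
    · have : e (Sum.inl x) ≤ e.degree := Finsupp.le_degree _ _
      omega
    · ext z
      change _ = eval z.1 (monomial e 1)
      rw [eval_monomial, Finsupp.prod_fintype _ _ (by simp), Fintype.prod_sum_type]
      simp [gen]
  have hmonU : ∀ b, rho Z (monomial (mon b) 1) ∈ U := by
    intro b
    refine hWU _ ?_ (mono_mem_W Z K hK1 hK _ (mon b) rfl)
    rw [Finsupp.degree_eq_sum, Fintype.sum_sum_type]
    simp only [mon, Finsupp.equivFunOnFinite_symm_apply_apply, Sum.elim_inl, Sum.elim_inr,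
      Finset.sum_const_zero, zero_add]
    calc ∑ y, (b y : ℕ) ≤ ∑ _y : Y, s := Finset.sum_le_sum fun y _ => Nat.lt_succ_iff.1 (b y).2
      _ = n * s := by simp [hn]
  have hdep : ¬ LinearIndependent ℂ (fun b : Y → Fin (s + 1) =>
      (⟨rho Z (monomial (mon b) 1), hmonU b⟩ : U)) := by
    intro hli
    have h1 := hli.fintype_card_le_finrank
    rw [Fintype.card_fun, Fintype.card_fin, ← hn] at h1
    omega
  obtain ⟨c, hc, b0, hb0⟩ := Fintype.not_linearIndependent_iff.1 hdep
  let Q : MvPolynomial Y ℂ := ∑ b : Y → Fin (s + 1),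
    monomial (Finsupp.equivFunOnFinite.symm (fun y => (b y : ℕ))) (c b)
  refine ⟨Q, ?_, ?_⟩
  · intro hQ
    apply hb0
    have h1 := congrArg (coeff (Finsupp.equivFunOnFinite.symm (fun y => (b0 y : ℕ)))) hQ
    simp only [Q] at h1
    rw [coeff_sum, Finset.sum_eq_single b0] at h1
    · simpa using h1
    · intro b _ hb
      rw [coeff_monomial, if_neg]
      intro hcon
      apply hb
      funext y
      have := congrArg (fun f : Y →₀ ℕ => f y) hcon
      simp only [Finsupp.equivFunOnFinite_symm_apply_apply] at this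
      exact Fin.ext this
    · intro h; exact absurd (Finset.mem_univ _) h
  · intro z hz
    have h1 := congrArg (fun f : U => f.1 ⟨z, hz⟩) hc
    simp only [Submodule.coe_sum, Submodule.coe_smul] at h1
    rw [Finset.sum_apply] at h1
    simp only [Q]
    rw [map_sum]
    refine Eq.trans (Finset.sum_congr rfl fun b _ => ?_) h1
    rw [Pi.smul_apply]
    change _ = c b * eval z (monomial (mon b) 1)
    rw [eval_monomial, eval_monomial, one_mul, Finsupp.prod_fintype _ _ (by simp),
      Finsupp.prod_fintype _ _ (by simp), Fintype.prod_sum_type]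
    simp [mon]

theorem krull_le_of_span {A R ι : Type*} [CommRing A] [CommRing R] [Fintype ι] (f : A →+* R)
    (gen : ι → R) (h : ∀ q : R, ∃ c : ι → A, q = ∑ b, f (c b) * gen b) :
    ringKrullDim R ≤ ringKrullDim A := by
  let _ : Algebra A R := f.toAlgebra
  have hfin : Module.Finite A R := by
    refine ⟨?_⟩
    have : (⊤ : Submodule A R) = Submodule.span A (Set.range gen) := by
      symm
      rw [eq_top_iff]
      intro q _
      obtain ⟨c, hc⟩ := h q
      rw [hc]
      apply Submodule.sum_mem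
      intro b _
      have e : f (c b) * gen b = c b • gen b := (Algebra.smul_def _ _).symm
      rw [e]
      exact Submodule.smul_mem _ _ (Submodule.subset_span ⟨b, rfl⟩)
    rw [this]
    exact Submodule.fg_span (Set.finite_range _)
  have hint : Algebra.IsIntegral A R := inferInstance
  refine Order.krullDim_le_of_strictMono (PrimeSpectrum.comap (algebraMap A R)) ?_
  intro P Q hPQ
  exact Ideal.IsIntegral.comap_lt_comap (R := A) (I := P.asIdeal) (J := Q.asIdeal) hPQ

/-- The Krull dimension of the coordinate ring is at most `|X|`. -/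
theorem krull_le (Z : Set (X ⊕ Y → ℂ)) (hcone : ∀ z ∈ Z, ∀ t : ℂ, t • z ∈ Z)
    (hclosed : zeroLocus ℂ (vanishingIdeal ℂ Z) = Z)
    (hmeet : ∀ z ∈ Z, (∀ x, z (Sum.inl x) = 0) → z = 0) :
    ringKrullDim (MvPolynomial (X ⊕ Y) ℂ ⧸ vanishingIdeal ℂ Z) ≤ (Fintype.card X : ℕ) := by
  classical
  obtain ⟨K, hK1, hK⟩ := cone_integral Z hcone hclosed hmeet
  set I := vanishingIdeal ℂ Z with hI
  let f : MvPolynomial X ℂ →+* (MvPolynomial (X ⊕ Y) ℂ ⧸ I) :=
    (Ideal.Quotient.mk I).comp (rename (Sum.inl : X → X ⊕ Y)).toRingHom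
  -- the spanning family
  let gen : (Y → Fin K) → (MvPolynomial (X ⊕ Y) ℂ ⧸ I) := fun b =>
    Ideal.Quotient.mk I (∏ y, MvPolynomial.X (Sum.inr y) ^ (b y : ℕ))
  let M : (MvPolynomial (X ⊕ Y) ℂ ⧸ I) → Prop := fun q =>
    ∃ c : (Y → Fin K) → MvPolynomial X ℂ, q = ∑ b, f (c b) * gen b
  have hadd : ∀ q q', M q → M q' → M (q + q') := by
    rintro q q' ⟨c, hc⟩ ⟨c', hc'⟩
    refine ⟨c + c', ?_⟩
    rw [hc, hc', ← Finset.sum_add_distrib]
    refine Finset.sum_congr rfl fun b _ => ?_
    rw [Pi.add_apply, map_add, add_mul]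
  have hzero : M 0 := ⟨0, by simp⟩
  have hsmul : ∀ a q, M q → M (f a * q) := by
    rintro a q ⟨c, hc⟩
    refine ⟨fun b => a * c b, ?_⟩
    rw [hc, Finset.mul_sum]
    refine Finset.sum_congr rfl fun b _ => ?_
    rw [map_mul, mul_assoc]
  have hgen : ∀ b, M (gen b) := by
    intro b
    refine ⟨Pi.single b 1, ?_⟩
    rw [Finset.sum_eq_single b]
    · simp
    · intro b' _ hb'
      simp [hb']
    · intro h; exact absurd (Finset.mem_univ _) h
  have hrho : ∀ g : MvPolynomial (X ⊕ Y) ℂ, rho Z g = 0 → Ideal.Quotient.mk I g = 0 := by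
    intro g hg
    rw [Ideal.Quotient.eq_zero_iff_mem]
    intro z hz
    rw [aeval_ev]
    exact congrFun hg ⟨z, hz⟩
  -- constants
  have hC : ∀ (c : ℂ) (q : MvPolynomial (X ⊕ Y) ℂ ⧸ I), M q → M (Ideal.Quotient.mk I (C c) * q) := by
    intro c q hq
    have : Ideal.Quotient.mk I (C c) = f (C c) := by
      change _ = Ideal.Quotient.mk I (rename Sum.inl (C c))
      rw [rename_C]
    rw [this]
    exact hsmul _ _ hq
  have hmonM : ∀ e : (X ⊕ Y) →₀ ℕ, (∀ y, e (Sum.inr y) < K) →
      M (Ideal.Quotient.mk I (monomial e 1)) := by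
    intro e he
    have h1 : Ideal.Quotient.mk I (monomial e 1)
        = f (∏ x, MvPolynomial.X x ^ e (Sum.inl x)) *
          gen (fun y => ⟨e (Sum.inr y), he y⟩) := by
      change _ = Ideal.Quotient.mk I (rename Sum.inl (∏ x, MvPolynomial.X x ^ e (Sum.inl x)))
        * Ideal.Quotient.mk I (∏ y, MvPolynomial.X (Sum.inr y) ^ e (Sum.inr y))
      rw [← map_mul, map_prod]
      congr 1
      simp only [map_pow, rename_X]
      rw [monomial_eq, Finsupp.prod_fintype _ _ (by simp), Fintype.prod_sum_type]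
      simp
    rw [h1]
    exact hsmul _ _ (hgen _)
  have hall : ∀ g : MvPolynomial (X ⊕ Y) ℂ, M (Ideal.Quotient.mk I g) := by
    intro g
    induction g using MvPolynomial.induction_on' with
    | add p q hp hq => rw [map_add]; exact hadd _ _ hp hq
    | monomial e a =>
      have h1 := mono_mem_W Z K hK1 hK _ e rfl
      -- lift the relation
      have h2 : ∀ F ∈ Wsp Z K e.degree, ∃ g : MvPolynomial (X ⊕ Y) ℂ, rho Z g = F ∧
          M (Ideal.Quotient.mk I g) := by
        intro F hF
        rw [Wsp] at hF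
        induction hF using Submodule.span_induction with
        | mem F hF =>
          obtain ⟨e', -, he', rfl⟩ := hF
          exact ⟨monomial e' 1, rfl, hmonM e' he'⟩
        | zero => exact ⟨0, map_zero _, by rw [map_zero]; exact hzero⟩
        | add F F' _ _ h h' =>
          obtain ⟨g, hg, hg'⟩ := h
          obtain ⟨k, hk, hk'⟩ := h'
          exact ⟨g + k, by rw [map_add, hg, hk], by rw [map_add]; exact hadd _ _ hg' hk'⟩
        | smul c F _ h =>
          obtain ⟨g, hg, hg'⟩ := h
          refine ⟨C c * g, ?_, by rw [map_mul]; exact hC c _ hg'⟩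
          rw [← MvPolynomial.smul_eq_C_mul, map_smul, hg]
      obtain ⟨g, hg, hg'⟩ := h2 _ h1
      have h3 : Ideal.Quotient.mk I (monomial e 1 - g) = 0 := by
        apply hrho
        rw [map_sub, hg, sub_self]
      rw [map_sub, sub_eq_zero] at h3
      have h4 : (monomial e a : MvPolynomial (X ⊕ Y) ℂ) = C a * monomial e 1 := by
        rw [C_mul_monomial, mul_one]
      rw [h4, map_mul, h3]
      exact hC a _ hg'
  have h1 : ringKrullDim (MvPolynomial (X ⊕ Y) ℂ ⧸ I) ≤ ringKrullDim (MvPolynomial X ℂ) := by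
    apply krull_le_of_span f gen
    intro q
    obtain ⟨g, rfl⟩ := Ideal.Quotient.mk_surjective q
    exact hall g
  refine h1.trans ?_
  rw [MvPolynomial.ringKrullDim_of_isNoetherianRing, ringKrullDim_eq_zero_of_field, zero_add,
    Nat.card_eq_fintype_card]

end

end Pool.Agent.W649.ZL
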