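import Pool.Agent.W649.ZL.Dim

set_option autoImplicit false
set_option linter.unusedSectionVars false

open scoped InnerProductSpace InnerProduct ENNReal

/-! Coordinates of `ℓ²(G × (B × J))`. -/

namespace Pool.Agent.W649.ZL

universe u v w z

section
variable {G : Type u} {I : Type v} {J : Type w} {B : Type z} [Group G]

theorem norm_sq_tsum {X : Type*} (f : lp (fun _ : X => ℂ) 2) : ‖f‖ ^ 2 = ∑' x, ‖f x‖ ^ 2 := by
  have h := lp.norm_rpow_eq_tsum (p := 2) (by norm_num) f
  simp only [ENNReal.toReal_ofNat, Real.rpow_ofNat] at h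
  exact h

theorem memlp_coord (b : B) (h : EE G (B × J)) :
    Memℓp (fun x : G × J => h (x.1, (b, x.2))) 2 := by
  rw [memlp_two_iff]
  have h1 := (memlp_two_iff _).1 h.2
  exact h1.comp_injective (i := fun x : G × J => (x.1, (b, x.2))) (by
    rintro ⟨a, c⟩ ⟨a', c'⟩ hh
    simp only [Prod.mk.injEq, true_and] at hh
    rw [hh.1, hh.2])

/-- The coordinate `h ↦ h(·, (b, ·))`. -/
noncomputable def coordFun (b : B) (h : EE G (B × J)) : EE G J :=
  ⟨fun x => h (x.1, (b, x.2)), memlp_coord b h⟩

theorem coordFun_apply (b : B) (h : EE G (B × J)) (x : G × J) :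
    coordFun b h x = h (x.1, (b, x.2)) := rfl

theorem norm_coordFun_le (b : B) (h : EE G (B × J)) : ‖coordFun b h‖ ≤ ‖h‖ := by
  have e : ‖coordFun b h‖ ^ 2 ≤ ‖h‖ ^ 2 := by
    rw [norm_sq_tsum, norm_sq_tsum]
    have h1 := (memlp_two_iff _).1 h.2
    have hinj : Function.Injective (fun x : G × J => ((x.1, (b, x.2)) : G × (B × J))) := by
      rintro ⟨a, c⟩ ⟨a', c'⟩ hh
      simp only [Prod.mk.injEq, true_and] at hh
      rw [hh.1, hh.2]
    exact tsum_comp_le_tsum_of_inj h1 (fun _ => by positivity) hinj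
  exact (sq_le_sq₀ (norm_nonneg _) (norm_nonneg _)).1 e

/-- The coordinate operator. -/
noncomputable def coord (b : B) : EE G (B × J) →L[ℂ] EE G J :=
  LinearMap.mkContinuous
    { toFun := coordFun b
      map_add' := fun f g => by ext x; rfl
      map_smul' := fun c f => by ext x; rfl } 1
    (fun h => by rw [one_mul]; exact norm_coordFun_le b h)

theorem coord_apply (b : B) (h : EE G (B × J)) (x : G × J) :
    coord b h x = h (x.1, (b, x.2)) := rfl

theorem coord_tr (b : B) (k : G) (h : EE G (B × J)) : coord b (tr k h) = tr k (coord b h) := by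
  ext x; rfl

theorem eq_zero_of_coord (h : EE G (B × J)) (hh : ∀ b, coord b h = 0) : h = 0 := by
  ext ⟨x, b, j⟩
  have := congrArg (fun f : EE G J => f (x, j)) (hh b)
  exact this

end

end Pool.Agent.W649.ZL
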