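import Pool.Agent.W649.ZL.Coord
import Pool.Agent.W649.ZL.Alg

set_option autoImplicit false
set_option linter.unusedSectionVars false

open scoped InnerProductSpace InnerProduct ENNReal

/-! The core of the semicontinuity theorem. -/

namespace Pool.Agent.W649.ZL

open Module

universe u v w z

section
variable {G : Type u} {I : Type v} {J : Type w} [Group G] [Fintype I] [Fintype J]

theorem ker_add_range (T : EE G J →L[ℂ] EE G I) (hT : Eqv T) :
    vd (LinearMap.ker (T : EE G J →ₗ[ℂ] EE G I)) + vd (LinearMap.range (T : EE G J →ₗ[ℂ] EE G I))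
      = Fintype.card J := by
  have h := rank_nullity T hT (U := ⊤) (fun _ _ _ => trivial) (by simp)
  rw [vd_top, top_inf_eq, Submodule.map_top] at h
  exact h.symm

theorem inv_ker (T : EE G J →L[ℂ] EE G I) (hT : Eqv T) :
    Inv (LinearMap.ker (T : EE G J →ₗ[ℂ] EE G I)) := by
  intro k f hf
  change T (tr k f) = 0
  have hf' : T f = 0 := hf
  rw [hT, hf', tr_zero]

theorem inv_inf {P Q : Submodule ℂ (EE G J)} (hP : Inv P) (hQ : Inv Q) : Inv (P ⊓ Q) :=
  fun k f hf => ⟨hP k f hf.1, hQ k f hf.2⟩

theorem lower {P : Type*} (N : P → (EE G J →L[ℂ] EE G I)) (hN : ∀ p, Eqv (N p)) (r : ℝ)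
    (Y : Finset P) (h : ∀ p ∈ Y, vd (LinearMap.range (N p : EE G J →ₗ[ℂ] EE G I)) ≤ r) :
    ∃ K : Submodule ℂ (EE G J), Inv K ∧ IsClosed (K : Set (EE G J)) ∧
      (∀ f, f ∈ K ↔ ∀ p ∈ Y, N p f = 0) ∧ (Fintype.card J : ℝ) - Y.card * r ≤ vd K := by
  classical
  induction Y using Finset.induction_on with
  | empty => exact ⟨⊤, fun _ _ _ => trivial, by simp, by simp, by simp [vd_top]⟩
  | insert p Y hp ih =>
    obtain ⟨K, h1, h2, h3, h4⟩ := ih (fun p' hp' => h p' (Finset.mem_insert_of_mem hp'))
    refine ⟨K ⊓ LinearMap.ker (N p : EE G J →ₗ[ℂ] EE G I), inv_inf h1 (inv_ker _ (hN p)), ?_, ?_, ?_⟩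
    · rw [Submodule.coe_inf]
      exact h2.inter (ContinuousLinearMap.isClosed_ker (N p))
    · intro f
      rw [Submodule.mem_inf, h3]
      constructor
      · rintro ⟨a, b⟩ p' hp'
        rcases Finset.mem_insert.1 hp' with rfl | hp'
        · exact b
        · exact a p' hp'
      · intro a
        exact ⟨fun p' hp' => a p' (Finset.mem_insert_of_mem hp'),
          a p (Finset.mem_insert_self _ _)⟩
    · have h5 := rank_nullity (N p) (hN p) h1 h2
      have h6 : vd (K.map (N p : EE G J →ₗ[ℂ] EE G I))
          ≤ vd (LinearMap.range (N p : EE G J →ₗ[ℂ] EE G I)) := vd_mono LinearMap.map_le_range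
      have h7 := h p (Finset.mem_insert_self _ _)
      rw [Finset.card_insert_of_notMem hp]
      push_cast
      linarith

theorem upper (n : ℕ) (K : Submodule ℂ (EE G (Fin n × J))) (hK : Inv K)
    (hc : IsClosed (K : Set (EE G (Fin n × J)))) (Z : Submodule ℂ (EE G J))
    (h : ∀ (b : Fin n) (f : EE G (Fin n × J)), f ∈ K → (∀ b', b' < b → coord b' f = 0) →
      coord b f ∈ Z) : vd K ≤ n * vd Z := by
  have key : ∀ m : ℕ, m ≤ n → ∃ W : Submodule ℂ (EE G (Fin n × J)), Inv W ∧
      IsClosed (W : Set (EE G (Fin n × J))) ∧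
      (∀ f, f ∈ W ↔ f ∈ K ∧ ∀ b : Fin n, b.1 < m → coord b f = 0) ∧
      vd K ≤ m * vd Z + vd W := by
    intro m
    induction m with
    | zero => intro _; exact ⟨K, hK, hc, by simp, by simp⟩
    | succ m ih =>
      intro hm
      obtain ⟨W, h1, h2, h3, h4⟩ := ih (by omega)
      let b : Fin n := ⟨m, by omega⟩
      refine ⟨W ⊓ LinearMap.ker ((coord b : EE G (Fin n × J) →L[ℂ] EE G J) :
        EE G (Fin n × J) →ₗ[ℂ] EE G J), ?_, ?_, ?_, ?_⟩
      · exact inv_inf h1 (inv_ker _ (coord_tr b))
      · rw [Submodule.coe_inf]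
        exact h2.inter (ContinuousLinearMap.isClosed_ker (coord b))
      · intro f
        rw [Submodule.mem_inf, h3]
        constructor
        · rintro ⟨⟨a1, a2⟩, a3⟩
          refine ⟨a1, fun b' hb' => ?_⟩
          rcases Nat.lt_succ_iff_lt_or_eq.1 hb' with hb' | hb'
          · exact a2 b' hb'
          · have : b' = b := Fin.ext hb'
            rw [this]; exact a3
        · rintro ⟨a1, a2⟩
          exact ⟨⟨a1, fun b' hb' => a2 b' (by omega)⟩, a2 b (Nat.lt_succ_self m)⟩
      · have h5 := rank_nullity (coord (J := J) b) (coord_tr b) h1 h2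
        have h6 : vd (W.map ((coord b : EE G (Fin n × J) →L[ℂ] EE G J) :
            EE G (Fin n × J) →ₗ[ℂ] EE G J)) ≤ vd Z := by
          apply vd_mono
          rintro y ⟨x, hx, rfl⟩
          exact h b x ((h3 x).1 hx).1 (fun b' hb' => ((h3 x).1 hx).2 b' hb')
        push_cast
        linarith
  obtain ⟨W, -, -, h3, h4⟩ := key n le_rfl
  have : W = ⊥ := by
    rw [eq_bot_iff]
    intro f hf
    have := ((h3 f).1 hf).2
    exact eq_zero_of_coord f (fun b => this b b.2)
  rw [this, vd_bot, add_zero] at h4
  exact h4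

variable {ι : Type z} [Fintype ι]

/-- the linear family with coefficients `a` -/
noncomputable def lin (A : ι → EE G J →L[ℂ] EE G I) (a : ι → ℂ) : EE G J →L[ℂ] EE G I :=
  ∑ i, a i • A i

theorem lin_apply (A : ι → EE G J →L[ℂ] EE G I) (a : ι → ℂ) (f : EE G J) :
    lin A a f = ∑ i, a i • A i f := by
  unfold lin
  rw [sum_apply]
  rfl

theorem tr_sum {α : Type*} (s : Finset α) (k : G) (f : α → EE G J) :
    tr k (∑ i ∈ s, f i) = ∑ i ∈ s, tr k (f i) := by
  classical
  induction s using Finset.induction_on with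
  | empty => simp [tr_zero]
  | insert a s ha ih => rw [Finset.sum_insert ha, Finset.sum_insert ha, tr_add, ih]

theorem lin_eqv (A : ι → EE G J →L[ℂ] EE G I) (hA : ∀ i, Eqv (A i)) (a : ι → ℂ) :
    Eqv (lin A a) := by
  intro k f
  rw [lin_apply, lin_apply, tr_sum]
  refine Finset.sum_congr rfl fun i _ => ?_
  rw [hA, tr_smul]

theorem sum_apply_EE {α : Type*} (s : Finset α) (f : α → EE G J) (x : G × J) :
    (∑ i ∈ s, f i) x = ∑ i ∈ s, f i x := by
  classical
  induction s using Finset.induction_on with
  | empty => simp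
  | insert a s ha ih => rw [Finset.sum_insert ha, Finset.sum_insert ha, ← ih]; rfl

/-- The core: `d ≤ dim ker` passes from the points of a set to a point at which all functions of
the coordinate ring can be evaluated, provided the powers of its ideal intersect in `0`. -/
theorem core (A : ι → EE G J →L[ℂ] EE G I) (hA : ∀ i, Eqv (A i)) (d : ℝ)
    {R : Type*} [CommRing R] [Algebra ℂ R] (x : ι → R)
    (S : Set (ι → ℂ)) (ev : S → R →ₐ[ℂ] ℂ) (hev : ∀ (p : S) i, ev p (x i) = p.1 i)
    (hsep : ∀ f : R, (∀ p, ev p f = 0) → f = 0)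
    (q : ι → ℂ) (evq : R →ₐ[ℂ] ℂ) (hevq : ∀ i, evq (x i) = q i)
    (hinf : ⨅ e : ℕ, (RingHom.ker evq) ^ e = ⊥)
    (hS : ∀ p ∈ S, d ≤ vd (LinearMap.ker (lin A p : EE G J →ₗ[ℂ] EE G I))) :
    d ≤ vd (LinearMap.ker (lin A q : EE G J →ₗ[ℂ] EE G I)) := by
  classical
  -- the growing family of finite dimensional spaces
  let mon : ∀ s : ℕ, (ι → Fin (s + 1)) → R := fun s m => ∏ i, x i ^ (m i : ℕ)
  let V : ℕ → Submodule ℂ R := fun s => Submodule.span ℂ (Set.range (mon s))
  have hVfin : ∀ s, FiniteDimensional ℂ (V s) := fun s =>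
    FiniteDimensional.span_of_finite ℂ (Set.finite_range _)
  let H : ℕ → ℕ := fun s => finrank ℂ (V s)
  have hmul : ∀ s i f, f ∈ V s → x i * f ∈ V (s + 1) := by
    intro s i f hf
    induction hf using Submodule.span_induction with
    | mem f hf =>
      obtain ⟨m, rfl⟩ := hf
      apply Submodule.subset_span
      refine ⟨fun j => if j = i then (m j).succ else (m j).castSucc, ?_⟩
      change ∏ j, x j ^ _ = x i * ∏ j, x j ^ _
      rw [← Finset.mul_prod_erase Finset.univ _ (Finset.mem_univ i),
        ← Finset.mul_prod_erase Finset.univ (fun j => x j ^ (m j : ℕ)) (Finset.mem_univ i),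
        ← mul_assoc]
      congr 1
      · simp [pow_succ']
      · refine Finset.prod_congr rfl fun j hj => ?_
        have hji := Finset.ne_of_mem_erase hj
        simp [hji]
    | zero => rw [mul_zero]; exact Submodule.zero_mem _
    | add f g _ _ h1 h2 => rw [mul_add]; exact Submodule.add_mem _ h1 h2
    | smul c f _ h1 => rw [mul_smul_comm]; exact Submodule.smul_mem _ _ h1
  have hone : ∀ s, (1 : R) ∈ V s := by
    intro s
    apply Submodule.subset_span
    exact ⟨fun _ => 0, by simp [mon]⟩
  have hne : (1 : R) ≠ 0 := by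
    intro h
    have := congrArg evq h
    rw [map_one, map_zero] at this
    exact one_ne_zero this
  have hH1 : ∀ s, 1 ≤ H s := by
    intro s
    have := hVfin s
    rw [Nat.one_le_iff_ne_zero]
    intro h0
    have hb : V s = ⊥ := Submodule.finrank_eq_zero.1 h0
    have h1 := hone s
    rw [hb] at h1
    exact hne ((Submodule.mem_bot ℂ).1 h1)
  have hH2 : ∀ s, H s ≤ (s + 1) ^ Fintype.card ι := by
    intro s
    calc H s = Set.finrank ℂ (Set.range (mon s)) := rfl
      _ ≤ Fintype.card (ι → Fin (s + 1)) := finrank_range_le_card _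
      _ = (s + 1) ^ Fintype.card ι := by simp
  -- the set is non-empty, hence `d ≤ |J|`
  have hSne : ∃ p : S, True := by
    by_contra hcon
    push Not at hcon
    exact hne (hsep 1 (fun p => (hcon p).elim))
  obtain ⟨p0, -⟩ := hSne
  have hr : 0 ≤ (Fintype.card J : ℝ) - d := by
    have h1 := ker_add_range (lin A p0) (lin_eqv A hA p0)
    have h2 := vd_nonneg (LinearMap.range (lin A p0 : EE G J →ₗ[ℂ] EE G I))
    have h3 := hS p0 p0.2
    linarith
  -- the filtration
  let F : ℕ → Submodule ℂ R := fun e => ((RingHom.ker evq) ^ e).restrictScalars ℂ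
  have hanti : Antitone F := fun a b hab => by
    intro f hf
    exact Ideal.pow_le_pow_right hab hf
  have hF : ⨅ e, F e = ⊥ := by
    rw [eq_bot_iff]
    intro f hf
    rw [Submodule.mem_iInf] at hf
    have : f ∈ (⨅ e : ℕ, (RingHom.ker evq) ^ e : Ideal R) := by
      rw [Submodule.mem_iInf]
      exact hf
    rw [hinf] at this
    exact this
  have hF0 : ∀ W : Submodule ℂ R, W ≤ F 0 := by
    intro W f _
    change f ∈ (RingHom.ker evq) ^ 0
    rw [pow_zero, Ideal.one_eq_top]; exact Submodule.mem_top
  set D := vd (LinearMap.ker (lin A q : EE G J →ₗ[ℂ] EE G I)) with hD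
  -- main inequality
  have main : ∀ s, (Fintype.card J : ℝ) * H s - H (s + 1) * ((Fintype.card J : ℝ) - d)
      ≤ H s * D := by
    intro s
    have := hVfin s
    have := hVfin (s + 1)
    obtain ⟨v, e, -, he, hv, hve, hadapt⟩ := exists_adapted F hanti hF (H s) (V s) rfl 0 (hF0 _)
    obtain ⟨Y, hY1, hY2⟩ := exists_points (fun p => (ev p).toLinearMap) (H (s + 1)) (V (s + 1))
      le_rfl (fun f _ hf => hsep f hf)
    -- the operators
    let C : S → (EE G (Fin (H s) × J) →L[ℂ] EE G J) := fun p => ∑ b, ev p (v b) • coord b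
    have hC : ∀ p f, C p f = ∑ b, ev p (v b) • coord b f := by
      intro p f
      simp only [C]
      rw [sum_apply]
      rfl
    have hCe : ∀ p, Eqv (C p) := by
      intro p k f
      rw [hC, hC, tr_sum]
      refine Finset.sum_congr rfl fun b _ => ?_
      rw [coord_tr, tr_smul]
    let N : S → (EE G (Fin (H s) × J) →L[ℂ] EE G I) := fun p => (lin A p).comp (C p)
    have hNe : ∀ p, Eqv (N p) := by
      intro p k f
      simp only [N]
      rw [ContinuousLinearMap.comp_apply, ContinuousLinearMap.comp_apply, hCe, lin_eqv A hA]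
    have hNr : ∀ p ∈ Y, vd (LinearMap.range (N p : EE G (Fin (H s) × J) →ₗ[ℂ] EE G I))
        ≤ (Fintype.card J : ℝ) - d := by
      intro p _
      have h1 := ker_add_range (lin A p) (lin_eqv A hA p)
      have h2 := hS p p.2
      have h3 : vd (LinearMap.range (N p : EE G (Fin (H s) × J) →ₗ[ℂ] EE G I))
          ≤ vd (LinearMap.range (lin A p : EE G J →ₗ[ℂ] EE G I)) := by
        apply vd_mono
        rintro y ⟨f, rfl⟩
        exact ⟨C p f, rfl⟩
      linarith
    obtain ⟨K, hK1, hK2, hK3, hK4⟩ := lower N hNe _ Y hNr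
    have hupper := upper (H s) K hK1 hK2 (LinearMap.ker (lin A q : EE G J →ₗ[ℂ] EE G I)) (by
      intro b f hf hb
      change lin A q (coord b f) = 0
      ext y
      -- the functions
      let γ : Fin (H s) → R := fun b' => ∑ i, ((A i (coord b' f)) y) • x i
      have hγq : ∀ b', evq (γ b') = (lin A q (coord b' f)) y := by
        intro b'
        simp only [γ]
        rw [map_sum, lin_apply, sum_apply_EE]
        refine Finset.sum_congr rfl fun i _ => ?_
        rw [map_smul, hevq, smul_eq_mul, mul_comm]
        rfl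
      have hzero : ∑ b', v b' * γ b' = 0 := by
        apply hY2
        · apply Submodule.sum_mem
          intro b' _
          simp only [γ]
          rw [Finset.mul_sum]
          apply Submodule.sum_mem
          intro i _
          rw [mul_smul_comm, mul_comm]
          exact Submodule.smul_mem _ _ (hmul s i _ (hv b'))
        · intro p hp
          have h1 := (hK3 f).1 hf p hp
          have h2 : (N p f) y = 0 := by rw [h1]; rfl
          change ev p (∑ b', v b' * γ b') = 0
          rw [← h2]
          simp only [N]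
          rw [ContinuousLinearMap.comp_apply, lin_apply, sum_apply_EE, map_sum]
          have e1 : ∀ i, (((p : ι → ℂ) i) • A i (C p f)) y
              = ∑ b', (p : ι → ℂ) i * (ev p (v b') * (A i (coord b' f)) y) := by
            intro i
            rw [hC, map_sum]
            have : (((p : ι → ℂ) i) • ∑ b', A i (ev p (v b') • coord b' f)) y
                = (p : ι → ℂ) i * (∑ b', A i (ev p (v b') • coord b' f)) y := rfl
            rw [this, sum_apply_EE, Finset.mul_sum]
            refine Finset.sum_congr rfl fun b' _ => ?_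
            rw [map_smul]
            rfl
          rw [Finset.sum_congr rfl fun i _ => e1 i, Finset.sum_comm]
          refine Finset.sum_congr rfl fun b' _ => ?_
          simp only [γ]
          rw [map_mul, map_sum, Finset.mul_sum]
          refine Finset.sum_congr rfl fun i _ => ?_
          rw [map_smul, hev, smul_eq_mul]
          ring
      have hγ0 : ∀ b', b' < b → γ b' = 0 := by
        intro b' hb'
        simp only [γ]
        rw [hb b' hb']
        simp
      have hmemb : ∑ b', (evq (γ b')) • v b' ∈ F (e b + 1) := by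
        have e2 : ∑ b', (evq (γ b')) • v b'
            = ∑ b', v b' * (algebraMap ℂ R (evq (γ b')) - γ b') := by
          rw [← sub_zero (∑ b', (evq (γ b')) • v b'), ← hzero, ← Finset.sum_sub_distrib]
          refine Finset.sum_congr rfl fun b' _ => ?_
          rw [mul_sub, Algebra.smul_def, mul_comm (algebraMap ℂ R (evq (γ b')))]
        rw [e2]
        apply Submodule.sum_mem
        intro b' _
        by_cases hlt : b' < b
        · rw [hγ0 b' hlt]; simp
        · push Not at hlt
          change _ ∈ (RingHom.ker evq) ^ (e b + 1)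
          rw [pow_succ]
          apply Ideal.mul_mem_mul
          · exact hanti (he hlt) (hve b')
          · rw [RingHom.mem_ker, map_sub, AlgHom.commutes]
            simp
      have h5 := hadapt b (fun b' => evq (γ b')) (fun b' hb' => by
        change evq (γ b') = 0
        rw [hγ0 b' hb', map_zero]) hmemb
      change evq (γ b) = 0 at h5
      rw [hγq] at h5
      exact h5)
    rw [Fintype.card_prod, Fintype.card_fin] at hK4
    push_cast at hK4
    have h6 : (Y.card : ℝ) * ((Fintype.card J : ℝ) - d) ≤ H (s + 1) * ((Fintype.card J : ℝ) - d) := by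
      have : (Y.card : ℝ) ≤ H (s + 1) := by exact_mod_cast hY1
      gcongr
    linarith
  -- conclusion
  apply le_of_forall_pos_le_add
  intro δ hδ
  obtain ⟨s, hs⟩ := exists_slow H (Fintype.card ι) hH1 hH2
    (δ / ((Fintype.card J : ℝ) - d + 1)) (by positivity)
  have h1 := main s
  have hHs : (0 : ℝ) < H s := by exact_mod_cast hH1 s
  set r := (Fintype.card J : ℝ) - d with hrdef
  have h2 : (H (s + 1) : ℝ) * r ≤ (1 + δ / (r + 1)) * H s * r := by gcongr
  have h3 : δ / (r + 1) * r ≤ δ := by
    rw [div_mul_eq_mul_div, div_le_iff₀ (by positivity)]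
    nlinarith
  have h4 : (H s : ℝ) * (d - δ) ≤ H s * D := by
    have : (1 + δ / (r + 1)) * H s * r = H s * (r + δ / (r + 1) * r) := by ring
    nlinarith
  have h5 := le_of_mul_le_mul_left h4 hHs
  linarith

end

end Pool.Agent.W649.ZL
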