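import Pool.Agent.W649.ZL.Fam

set_option autoImplicit false
set_option linter.unusedSectionVars false

open scoped InnerProductSpace InnerProduct ENNReal

/-! Closed invariant subspaces cutting the dimension down by a bounded amount; operators with
prescribed coordinates. -/

namespace Pool.Agent.W649.ZL

open Module

universe u v w z

section
variable {G : Type u} {I : Type v} {J : Type w} [Group G] [Fintype I] [Fintype J]

/-- `M` is closed, invariant and cuts the dimension down by at most `r`. -/
structure Cut (M : Submodule ℂ (EE G J)) (r : ℝ) : Prop where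
  closed : IsClosed (M : Set (EE G J))
  inv : Inv M
  cut : ∀ L : Submodule ℂ (EE G J), IsClosed (L : Set (EE G J)) → Inv L → vd L ≤ vd (L ⊓ M) + r

theorem cut_ker (N : EE G J →L[ℂ] EE G I) (hN : Eqv N) (r : ℝ)
    (hr : vd (LinearMap.range (N : EE G J →ₗ[ℂ] EE G I)) ≤ r) :
    Cut (LinearMap.ker (N : EE G J →ₗ[ℂ] EE G I)) r where
  closed := ContinuousLinearMap.isClosed_ker N
  inv := inv_ker N hN
  cut := by
    intro L hc hL
    have h1 := rank_nullity N hN hL hc
    have h2 : vd (L.map (N : EE G J →ₗ[ℂ] EE G I))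
        ≤ vd (LinearMap.range (N : EE G J →ₗ[ℂ] EE G I)) := vd_mono LinearMap.map_le_range
    linarith

theorem cut_top : Cut (⊤ : Submodule ℂ (EE G J)) 0 where
  closed := by simp
  inv := fun _ _ _ => trivial
  cut := by
    intro L _ _
    rw [inf_top_eq, add_zero]

theorem cut_inf {M M' : Submodule ℂ (EE G J)} {r r' : ℝ} (h : Cut M r) (h' : Cut M' r') :
    Cut (M ⊓ M') (r + r') where
  closed := by
    rw [Submodule.coe_inf]
    exact h.closed.inter h'.closed
  inv := inv_inf h.inv h'.inv
  cut := by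
    intro L hc hL
    have h1 := h.cut L hc hL
    have h2 := h'.cut (L ⊓ M) (by rw [Submodule.coe_inf]; exact hc.inter h.closed)
      (inv_inf hL h.inv)
    rw [← inf_assoc]
    linarith

theorem cut_finset {κ : Type*} (s : Finset κ) (M : κ → Submodule ℂ (EE G J)) (r : κ → ℝ)
    (h : ∀ i ∈ s, Cut (M i) (r i)) :
    ∃ N : Submodule ℂ (EE G J), (∀ f, f ∈ N ↔ ∀ i ∈ s, f ∈ M i) ∧ Cut N (∑ i ∈ s, r i) := by
  classical
  induction s using Finset.induction_on with
  | empty => exact ⟨⊤, by simp, by simpa using cut_top⟩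
  | insert a s ha ih =>
    obtain ⟨N, h1, h2⟩ := ih (fun i hi => h i (Finset.mem_insert_of_mem hi))
    refine ⟨M a ⊓ N, ?_, ?_⟩
    · intro f
      rw [Submodule.mem_inf, h1]
      simp
    · rw [Finset.sum_insert ha]
      exact cut_inf (h a (Finset.mem_insert_self _ _)) h2

end

section
variable {G : Type u} {I : Type v} {J : Type w} {B : Type z} [Group G] [Fintype I] [Fintype J]
  [Fintype B]

theorem ext_coord {f g : EE G (B × J)} (h : ∀ b, coord b f = coord b g) : f = g := by
  have h1 : f - g = 0 := eq_zero_of_coord _ (fun b => by rw [map_sub, h b, sub_self])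
  exact sub_eq_zero.1 h1

open Classical in
theorem coord_adjoint (b b' : B) (f : EE G J) :
    coord b (ContinuousLinearMap.adjoint (coord (J := J) b') f) = if b = b' then f else 0 := by
  ext ⟨x, j⟩
  have h1 : coord b (ContinuousLinearMap.adjoint (coord (J := J) b') f) (x, j)
      = ⟪(dl (x, (b, j)) : EE G (B × J)), ContinuousLinearMap.adjoint (coord (J := J) b') f⟫_ℂ := by
    rw [inner_dl_left]; rfl
  rw [h1, ContinuousLinearMap.adjoint_inner_right]
  split_ifs with h
  · subst h
    have h2 : coord b (dl (x, (b, j)) : EE G (B × J)) = dl (x, j) := by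
      ext ⟨y, k⟩
      rw [coord_apply]
      by_cases hy : (y, k) = (x, j)
      · obtain ⟨rfl, rfl⟩ := Prod.mk.inj hy
        rw [dl_apply_self, dl_apply_self]
      · rw [dl_apply_ne _ _ hy, dl_apply_ne]
        intro hh
        apply hy
        simp only [Prod.mk.injEq, true_and] at hh
        rw [hh.1, hh.2]
    rw [h2, inner_dl_left]
  · have h2 : coord b' (dl (x, (b, j)) : EE G (B × J)) = 0 := by
      ext ⟨y, k⟩
      rw [coord_apply, dl_apply_ne]
      · rfl
      · intro hh
        simp only [Prod.mk.injEq] at hh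
        exact h hh.2.1.symm
    rw [h2, inner_zero_left]
    rfl

/-- the operator with the coordinates `T b` -/
noncomputable def asm (T : B → EE G I →L[ℂ] EE G J) : EE G I →L[ℂ] EE G (B × J) :=
  ∑ b, (ContinuousLinearMap.adjoint (coord (J := J) b)).comp (T b)

theorem coord_asm (T : B → EE G I →L[ℂ] EE G J) (b : B) (f : EE G I) :
    coord b (asm T f) = T b f := by
  classical
  unfold asm
  rw [sum_apply, map_sum, Finset.sum_eq_single b]
  · rw [ContinuousLinearMap.comp_apply, coord_adjoint, if_pos rfl]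
  · intro b' _ hb
    rw [ContinuousLinearMap.comp_apply, coord_adjoint, if_neg (Ne.symm hb)]
  · intro h; exact absurd (Finset.mem_univ _) h

theorem asm_eqv (T : B → EE G I →L[ℂ] EE G J) (hT : ∀ b, Eqv (T b)) : Eqv (asm T) := by
  intro k f
  apply ext_coord
  intro b
  rw [coord_asm, coord_tr, coord_asm, hT]

variable {ι : Type*} [Fintype ι] {J' : Type v} [Fintype J']

/-- the operator `∑ c b k A_k u_b` -/
noncomputable def NN (A : ι → EE G J →L[ℂ] EE G I) (c : B → ι → ℂ) :
    EE G (B × J) →L[ℂ] EE G I :=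
  ∑ b, (lin A (c b)).comp (coord b)

theorem NN_apply (A : ι → EE G J →L[ℂ] EE G I) (c : B → ι → ℂ) (f : EE G (B × J)) :
    NN A c f = ∑ b, ∑ k, c b k • A k (coord b f) := by
  unfold NN
  rw [sum_apply]
  refine Finset.sum_congr rfl fun b _ => ?_
  rw [ContinuousLinearMap.comp_apply, lin_apply]

theorem NN_eqv (A : ι → EE G J →L[ℂ] EE G I) (hA : ∀ i, Eqv (A i)) (c : B → ι → ℂ) :
    Eqv (NN A c) := by
  intro k f
  unfold NN
  rw [sum_apply, sum_apply, tr_sum]
  refine Finset.sum_congr rfl fun b _ => ?_
  rw [ContinuousLinearMap.comp_apply, ContinuousLinearMap.comp_apply, coord_tr, lin_eqv A hA]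

theorem cut_any (N : EE G J →L[ℂ] EE G I) (hN : Eqv N) :
    Cut (LinearMap.ker (N : EE G J →ₗ[ℂ] EE G I)) (Fintype.card I) :=
  cut_ker N hN _ (vd_le_card _)

end

end Pool.Agent.W649.ZL
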