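import Pool.Agent.W649.ZL.Zariski

set_option autoImplicit false
set_option linter.unusedSectionVars false

open scoped InnerProductSpace InnerProduct ENNReal

/-! Left convolution operators. -/

namespace Pool.Agent.W649.ZL

universe u v w z

section
variable {G : Type u} {I : Type v} {J : Type w} [Group G]

theorem memlp_elem [DecidableEq I] (t : G) (i : I) (j : J) (h : EE G J) :
    Memℓp (fun x : G × I => if x.2 = i then h (t⁻¹ * x.1, j) else 0) 2 := by
  rw [memlp_two_iff]
  have h1 := (memlp_two_iff _).1 h.2
  have h2 : Summable (fun x : G => ‖h (t⁻¹ * x, j)‖ ^ 2) :=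
    h1.comp_injective (i := fun x : G => (t⁻¹ * x, j)) (by
      intro a b hab
      simpa using hab)
  have hinj : Function.Injective (fun x : G => ((x, i) : G × I)) := by
    intro a b hab
    simpa using hab
  have h3 : Function.support (fun x : G × I => ‖if x.2 = i then h (t⁻¹ * x.1, j) else 0‖ ^ 2)
      ⊆ Set.range (fun x : G => ((x, i) : G × I)) := by
    rintro ⟨x, i'⟩ hx
    by_cases hi : i' = i
    · exact ⟨x, by rw [hi]⟩
    · simp [hi] at hx
  refine (hinj.summable_iff (fun x hx => ?_)).1 ?_
  · by_contra hcon
    exact hx (h3 hcon)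
  · convert h2 using 1
    ext x
    simp

/-- The elementary operator: `j`-th coordinate, translated by `t`, put in the `i`-th coordinate. -/
noncomputable def elemFun [DecidableEq I] (t : G) (i : I) (j : J) (h : EE G J) : EE G I :=
  ⟨fun x => if x.2 = i then h (t⁻¹ * x.1, j) else 0, memlp_elem t i j h⟩

theorem norm_elemFun_le [DecidableEq I] (t : G) (i : I) (j : J) (h : EE G J) :
    ‖elemFun (I := I) t i j h‖ ≤ ‖h‖ := by
  have e : ‖elemFun (I := I) t i j h‖ ^ 2 ≤ ‖h‖ ^ 2 := by
    rw [norm_sq_tsum, norm_sq_tsum]
    have h1 := (memlp_two_iff _).1 h.2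
    have hinj : Function.Injective (fun x : G => ((x, i) : G × I)) := by
      intro a b hab
      simpa using hab
    have hinj2 : Function.Injective (fun x : G => ((t⁻¹ * x, j) : G × J)) := by
      intro a b hab
      simpa using hab
    have h3 : Function.support (fun x : G × I => ‖elemFun (I := I) t i j h x‖ ^ 2)
        ⊆ Set.range (fun x : G => ((x, i) : G × I)) := by
      rintro ⟨x, i'⟩ hx
      by_cases hi : i' = i
      · exact ⟨x, by rw [hi]⟩
      · exfalso
        apply hx
        have : elemFun (I := I) t i j h (x, i') = 0 := if_neg hi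
        simp [this]
    rw [← hinj.tsum_eq h3]
    have e1 : (fun x : G => ‖elemFun (I := I) t i j h (x, i)‖ ^ 2)
        = (fun y : G × J => ‖h y‖ ^ 2) ∘ (fun x : G => ((t⁻¹ * x, j) : G × J)) := by
      ext x
      have : elemFun (I := I) t i j h (x, i) = h (t⁻¹ * x, j) := if_pos rfl
      rw [this]; rfl
    rw [e1]
    exact tsum_comp_le_tsum_of_inj h1 (fun _ => by positivity) hinj2
  exact (sq_le_sq₀ (norm_nonneg _) (norm_nonneg _)).1 e

/-- The elementary operator as a continuous linear map. -/
noncomputable def elem [DecidableEq I] (t : G) (i : I) (j : J) : EE G J →L[ℂ] EE G I :=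
  LinearMap.mkContinuous
    { toFun := elemFun t i j
      map_add' := fun f g => by
        ext x
        change (if x.2 = i then (f + g) (t⁻¹ * x.1, j) else 0)
          = (if x.2 = i then f (t⁻¹ * x.1, j) else 0) + (if x.2 = i then g (t⁻¹ * x.1, j) else 0)
        split_ifs
        · rfl
        · simp
      map_smul' := fun c f => by
        ext x
        change (if x.2 = i then (c • f) (t⁻¹ * x.1, j) else 0)
          = c • (if x.2 = i then f (t⁻¹ * x.1, j) else 0)
        split_ifs
        · rfl
        · simp } 1
    (fun h => by rw [one_mul]; exact norm_elemFun_le t i j h)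

theorem elem_apply [DecidableEq I] (t : G) (i : I) (j : J) (h : EE G J) (x : G × I) :
    elem t i j h x = if x.2 = i then h (t⁻¹ * x.1, j) else 0 := rfl

theorem elem_eqv [DecidableEq I] (t : G) (i : I) (j : J) : Eqv (elem (I := I) (J := J) t i j) := by
  intro k f
  ext x
  change (if x.2 = i then f (t⁻¹ * x.1 * k, j) else 0)
    = (if x.2 = i then f (t⁻¹ * (x.1 * k), j) else 0)
  rw [mul_assoc]

end

/-! The dimension in terms of distances. -/

section
variable {G : Type u} {J : Type w} [Group G]

theorem vd_eq_infDist [Fintype J] (P : Submodule ℂ (EE G J)) (hP : IsClosed (P : Set (EE G J))) :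
    vd P = ∑ j : J, (1 - Metric.infDist (dl ((1 : G), j)) (P : Set (EE G J)) ^ 2) := by
  have hc : CompleteSpace P := hP.completeSpace_coe
  rw [vd_eq P P (topcl_eq hP)]
  refine Finset.sum_congr rfl fun j _ => ?_
  set δ : EE G J := dl ((1 : G), j) with hδ
  have h1 : Metric.infDist δ (P : Set (EE G J)) = ‖δ - P.starProjection δ‖ := by
    rw [Submodule.starProjection_minimal, Metric.infDist_eq_iInf]
    simp only [dist_eq_norm]
    rfl
  rw [h1]
  have h2 : ‖δ‖ ^ 2 = ‖P.starProjection δ‖ ^ 2 + ‖Pᗮ.starProjection δ‖ ^ 2 :=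
    Submodule.norm_sq_eq_add_norm_sq_starProjection δ P
  have h3 : Pᗮ.starProjection δ = δ - P.starProjection δ := by
    rw [← Submodule.starProjection_orthogonal_val]
  rw [h3, norm_dl] at h2
  linarith

end

end Pool.Agent.W649.ZL
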