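import Pool.Agent.H919R3.L2.Reg

set_option autoImplicit false
set_option linter.unusedSectionVars false
set_option linter.unusedSimpArgs false

open scoped InnerProductSpace InnerProduct ENNReal

/-! Von Neumann dimension of right-invariant subspaces of `ℓ²(G × I)`, universe polymorphic. -/

namespace Pool.Agent.W649.ZL

open Pool.Agent.H919R3.L2 (IsReg exists_reg reg_tendsto)

universe u v w

/-- `ℓ²(G × I)`. -/
noncomputable abbrev EE (G : Type u) (I : Type v) := lp (fun _ : G × I => ℂ) 2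

/-- The basis vector at `x`. -/
noncomputable def dl {G : Type u} {I : Type v} (x : G × I) : EE G I := by
  classical exact lp.single 2 x 1

section
variable {G : Type u} {I : Type v} {J : Type w} [Group G]

/-- right translation of the index set -/
def trE (I : Type v) (k : G) : (G × I) ≃ (G × I) where
  toFun x := (x.1 * k, x.2)
  invFun x := (x.1 * k⁻¹, x.2)
  left_inv x := by simp
  right_inv x := by simp

theorem memlp_two_iff {X : Type*} (f : X → ℂ) :
    Memℓp f 2 ↔ Summable fun x => ‖f x‖ ^ 2 := by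
  rw [memℓp_gen_iff (by norm_num)]
  simp only [ENNReal.toReal_ofNat, Real.rpow_ofNat]

theorem memlp_comp_equiv {X Y : Type*} (e : X ≃ Y) (f : lp (fun _ : Y => ℂ) 2) :
    Memℓp (fun x => f (e x)) 2 := by
  rw [memlp_two_iff]
  have h := (memlp_two_iff _).1 f.2
  exact (Equiv.summable_iff e).2 h

/-- right translation by `k` -/
noncomputable def tr (k : G) (f : EE G I) : EE G I :=
  ⟨fun x => f (trE I k x), memlp_comp_equiv (trE I k) f⟩

theorem tr_apply (k : G) (f : EE G I) (x : G × I) : tr k f x = f (x.1 * k, x.2) := rfl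

theorem tr_add (k : G) (f g : EE G I) : tr k (f + g) = tr k f + tr k g := by
  ext x; rfl

theorem tr_smul (k : G) (c : ℂ) (f : EE G I) : tr k (c • f) = c • tr k f := by
  ext x; rfl

theorem tr_zero (k : G) : tr k (0 : EE G I) = 0 := by
  ext x; rfl

theorem tr_tr (k l : G) (f : EE G I) : tr k (tr l f) = tr (k * l) f := by
  ext x; simp [tr_apply, mul_assoc]

theorem tr_one (f : EE G I) : tr (1 : G) f = f := by
  ext x; simp [tr_apply]

theorem inner_tr (k : G) (f g : EE G I) : ⟪tr k f, tr k g⟫_ℂ = ⟪f, g⟫_ℂ := by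
  rw [lp.inner_eq_tsum, lp.inner_eq_tsum]
  exact Equiv.tsum_eq (trE I k) (fun x => ⟪f x, g x⟫_ℂ)

theorem inner_tr_left (k : G) (f g : EE G I) : ⟪tr k f, g⟫_ℂ = ⟪f, tr k⁻¹ g⟫_ℂ := by
  rw [← inner_tr k f, tr_tr]; simp [tr_one]

theorem norm_tr (k : G) (f : EE G I) : ‖tr k f‖ = ‖f‖ := by
  have h := inner_tr k f f
  rw [inner_self_eq_norm_sq_to_K, inner_self_eq_norm_sq_to_K] at h
  have h2 : ‖tr k f‖ ^ 2 = ‖f‖ ^ 2 := by exact_mod_cast h
  exact (sq_eq_sq₀ (norm_nonneg _) (norm_nonneg _)).1 h2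

theorem dl_apply_self (x : G × I) : dl x x = 1 := by
  classical
  unfold dl
  exact lp.single_apply_self 2 x 1

theorem dl_apply_ne (x y : G × I) (h : y ≠ x) : dl x y = 0 := by
  classical
  unfold dl
  exact lp.single_apply_ne 2 x 1 h

theorem inner_dl_left (x : G × I) (f : EE G I) : ⟪dl x, f⟫_ℂ = f x := by
  classical
  unfold dl
  rw [lp.inner_single_left]; simp

theorem inner_dl_right (x : G × I) (f : EE G I) : ⟪f, dl x⟫_ℂ = (starRingEnd ℂ) (f x) := by
  rw [← inner_conj_symm, inner_dl_left]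

theorem tr_dl (k h : G) (i : I) : tr k (dl (h, i)) = dl (h * k⁻¹, i) := by
  ext ⟨x, j⟩
  rw [tr_apply]
  by_cases hx : (x, j) = (h * k⁻¹, i)
  · rw [hx, dl_apply_self]
    simp only [Prod.mk.injEq] at hx
    simp only [inv_mul_cancel_right]
    rw [dl_apply_self]
  · rw [dl_apply_ne _ _ hx, dl_apply_ne]
    intro hh
    apply hx
    simp only [Prod.mk.injEq] at hh ⊢
    exact ⟨by rw [← hh.1]; simp, hh.2⟩

/-- An operator commutes with the right translations. -/
def Eqv (T : EE G I →L[ℂ] EE G J) : Prop := ∀ (k : G) (f : EE G I), T (tr k f) = tr k (T f)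

theorem Eqv.adjoint {T : EE G I →L[ℂ] EE G J} (hT : Eqv T) :
    Eqv (ContinuousLinearMap.adjoint T) := by
  intro k f
  apply ext_inner_right ℂ
  intro v
  rw [ContinuousLinearMap.adjoint_inner_left, inner_tr_left, ← hT, inner_tr_left,
    ContinuousLinearMap.adjoint_inner_left]

theorem tsum_prod_fin [Fintype J] (F : G × J → ℂ) (hF : Summable F) :
    ∑' x, F x = ∑ j, ∑' h, F (h, j) := by
  rw [← Equiv.tsum_eq (Equiv.prodComm J G) F]
  have h2 : Summable (fun c : J × G => F ((Equiv.prodComm J G) c)) :=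
    (Equiv.summable_iff (Equiv.prodComm J G)).2 hF
  rw [Summable.tsum_prod h2, tsum_fintype]
  rfl

theorem HS [Fintype I] [Fintype J] (X Y : EE G I →L[ℂ] EE G J) (hX : Eqv X) (hY : Eqv Y) :
    ∑ i : I, ⟪X (dl (1, i)), Y (dl (1, i))⟫_ℂ
      = ∑ j : J, ⟪ContinuousLinearMap.adjoint Y (dl (1, j)),
          ContinuousLinearMap.adjoint X (dl (1, j))⟫_ℂ := by
  have key : ∀ (Z : EE G I →L[ℂ] EE G J) (_ : Eqv Z) (h : G) (i : I) (j : J),
      ContinuousLinearMap.adjoint Z (dl (1, j)) (h, i)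
        = (starRingEnd ℂ) (Z (dl (1, i)) (h⁻¹, j)) := by
    intro Z hZ h i j
    rw [← inner_dl_left (h, i), ContinuousLinearMap.adjoint_inner_right, inner_dl_right]
    congr 1
    have : dl (h, i) = tr h⁻¹ (dl ((1 : G), i)) := by rw [tr_dl, one_mul, inv_inv]
    rw [this, hZ, tr_apply]
    simp
  have e1 : ∀ i, ⟪X (dl (1, i)), Y (dl (1, i))⟫_ℂ
      = ∑ j, ∑' h : G, ⟪X (dl (1, i)) (h, j), Y (dl (1, i)) (h, j)⟫_ℂ := by
    intro i
    rw [lp.inner_eq_tsum]
    exact tsum_prod_fin _ (lp.summable_inner _ _)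
  have e2 : ∀ j, ⟪ContinuousLinearMap.adjoint Y (dl (1, j)),
          ContinuousLinearMap.adjoint X (dl (1, j))⟫_ℂ
      = ∑ i, ∑' h : G, ⟪X (dl (1, i)) (h, j), Y (dl (1, i)) (h, j)⟫_ℂ := by
    intro j
    rw [lp.inner_eq_tsum]
    rw [tsum_prod_fin _ (lp.summable_inner _ _)]
    refine Finset.sum_congr rfl fun i _ => ?_
    rw [← Equiv.tsum_eq (Equiv.inv G)]
    refine tsum_congr fun h => ?_
    simp only [Equiv.inv_apply]
    rw [key X hX, key Y hY, inv_inv]
    simp only [RCLike.inner_apply, RingHomCompTriple.comp_apply, RingHom.id_apply, map_mul]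
    ring
  rw [Finset.sum_congr rfl fun i _ => e1 i, Finset.sum_congr rfl fun j _ => e2 j,
    Finset.sum_comm]

theorem norm_dl (x : G × I) : ‖(dl x : EE G I)‖ = 1 := by
  classical
  unfold dl
  rw [lp.norm_single (by norm_num)]; simp

/-- `∑ ‖P δ_j‖²`, the von Neumann dimension of the closure of `P`. -/
noncomputable def vd [Fintype J] (P : Submodule ℂ (EE G J)) : ℝ :=
  ∑ j : J, ‖P.topologicalClosure.starProjection (dl ((1 : G), j))‖ ^ 2

theorem norm_sq_star {E : Type*} [NormedAddCommGroup E] [InnerProductSpace ℂ E]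
    (P : Submodule ℂ E) [P.HasOrthogonalProjection] (v : E) :
    ‖P.starProjection v‖ ^ 2 = (⟪v, P.starProjection v⟫_ℂ).re := by
  have h1 : ⟪v - P.starProjection v, P.starProjection v⟫_ℂ = 0 :=
    Submodule.starProjection_inner_eq_zero v _ (Submodule.starProjection_apply_mem P v)
  rw [inner_sub_left, sub_eq_zero] at h1
  rw [h1, inner_self_eq_norm_sq_to_K]
  norm_cast

theorem close_aux (P : Submodule ℂ (EE G J)) [P.HasOrthogonalProjection] (j : J) (w : EE G J)
    (ρ : ℝ) (h : ‖w - P.starProjection (dl (1, j))‖ ≤ ρ) :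
    |(⟪(dl (1, j) : EE G J), w⟫_ℂ).re - ‖P.starProjection (dl ((1 : G), j))‖ ^ 2| ≤ ρ := by
  rw [norm_sq_star, ← Complex.sub_re, ← inner_sub_right]
  refine (Complex.abs_re_le_norm _).trans ?_
  refine (norm_inner_le_norm _ _).trans ?_
  rw [norm_dl, one_mul]
  exact h

/-- The dimension of the range of an operator equals that of its adjoint. -/
theorem vd_range_adjoint [Fintype I] [Fintype J] (T : EE G I →L[ℂ] EE G J) (hT : Eqv T) :
    vd (LinearMap.range (ContinuousLinearMap.adjoint T : EE G J →ₗ[ℂ] EE G I))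
      = vd (LinearMap.range (T : EE G I →ₗ[ℂ] EE G J)) := by
  -- notation
  set S := ContinuousLinearMap.adjoint T with hS
  have hSS : ContinuousLinearMap.adjoint S = T := by rw [hS, ContinuousLinearMap.adjoint_adjoint]
  have hdist : ∀ ρ : ℝ, 0 < ρ →
      |vd (LinearMap.range (S : EE G J →ₗ[ℂ] EE G I))
        - vd (LinearMap.range (T : EE G I →ₗ[ℂ] EE G J))|
        ≤ ρ * (Fintype.card I + Fintype.card J) := by
    intro ρ hρ
    have h1 : ∀ j : J, ∀ᶠ ε in nhdsWithin (0 : ℝ) (Set.Ioi 0), ∀ R, IsReg T ε R →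
        ‖T (R (ContinuousLinearMap.adjoint T (dl (1, j))))
          - (LinearMap.range (T : EE G I →ₗ[ℂ] EE G J)).topologicalClosure.starProjection
            (dl (1, j))‖ ≤ ρ := by
      intro j
      obtain ⟨e0, he0, h⟩ := reg_tendsto T _ rfl (dl (1, j)) ρ hρ
      filter_upwards [Ioo_mem_nhdsGT he0] with ε hε R hR
      exact h ε R hε.1 hε.2 hR
    have h2 : ∀ i : I, ∀ᶠ ε in nhdsWithin (0 : ℝ) (Set.Ioi 0), ∀ R, IsReg S ε R →
        ‖S (R (ContinuousLinearMap.adjoint S (dl (1, i))))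
          - (LinearMap.range (S : EE G J →ₗ[ℂ] EE G I)).topologicalClosure.starProjection
            (dl (1, i))‖ ≤ ρ := by
      intro i
      obtain ⟨e0, he0, h⟩ := reg_tendsto S _ rfl (dl (1, i)) ρ hρ
      filter_upwards [Ioo_mem_nhdsGT he0] with ε hε R hR
      exact h ε R hε.1 hε.2 hR
    have h3 : ∀ᶠ ε in nhdsWithin (0 : ℝ) (Set.Ioi 0), 0 < ε := self_mem_nhdsWithin
    obtain ⟨ε, ha, hb, hc⟩ :=
      ((Filter.eventually_all.2 h1).and ((Filter.eventually_all.2 h2).and h3)).exists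
    obtain ⟨R, hR⟩ := exists_reg T ε hc
    obtain ⟨R', hR'⟩ := exists_reg S ε hc
    have a1 := fun j => close_aux _ j _ ρ (ha j R hR)
    have b1 := fun i => close_aux _ i _ ρ (hb i R' hR')
    -- the two traces agree
    have hRe : ∀ (k : G) (f : EE G I), R (tr k f) = tr k (R f) := by
      intro k f
      refine hR.comm (tr k) (tr_add k) (tr_smul k) ?_ f
      intro x
      rw [hT, hT.adjoint]
    have hTR : Eqv (T.comp R) := by
      intro k f
      simp only [ContinuousLinearMap.comp_apply]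
      rw [hRe, hT]
    have hcomm : ∀ x, R' (T x) = T (R x) := by
      intro x
      have h := hR'.2 (T (R x))
      rw [hSS, ← map_smul, ← map_add] at h
      rw [← h]
      congr 2
      exact (hR.1 x).symm
    have hh := HS T (T.comp R) hT hTR
    have e1 : ∀ j : J, ⟪ContinuousLinearMap.adjoint (T.comp R) (dl (1, j)),
            ContinuousLinearMap.adjoint T (dl (1, j))⟫_ℂ
        = ⟪(dl (1, j) : EE G J), T (R (ContinuousLinearMap.adjoint T (dl (1, j))))⟫_ℂ := by
      intro j
      rw [ContinuousLinearMap.adjoint_inner_left]; rfl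
    have e2 : ∀ i : I, ⟪T (dl (1, i)), (T.comp R) (dl (1, i))⟫_ℂ
        = ⟪(dl (1, i) : EE G I), S (R' (ContinuousLinearMap.adjoint S (dl (1, i))))⟫_ℂ := by
      intro i
      rw [hSS, hcomm, ContinuousLinearMap.comp_apply, hS, ContinuousLinearMap.adjoint_inner_right]
    rw [Finset.sum_congr rfl fun i _ => e2 i, Finset.sum_congr rfl fun j _ => e1 j] at hh
    have hre := congrArg Complex.re hh
    rw [Complex.re_sum, Complex.re_sum] at hre
    set A := ∑ j : J, (⟪(dl (1, j) : EE G J),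
      T (R (ContinuousLinearMap.adjoint T (dl (1, j))))⟫_ℂ).re with hA
    have c1 : |A - vd (LinearMap.range (T : EE G I →ₗ[ℂ] EE G J))| ≤ Fintype.card J * ρ := by
      rw [hA, vd, ← Finset.sum_sub_distrib]
      refine (Finset.abs_sum_le_sum_abs _ _).trans ?_
      refine (Finset.sum_le_sum fun j _ => a1 j).trans ?_
      simp
    have c2 : |A - vd (LinearMap.range (S : EE G J →ₗ[ℂ] EE G I))| ≤ Fintype.card I * ρ := by
      rw [← hre, vd, ← Finset.sum_sub_distrib]
      refine (Finset.abs_sum_le_sum_abs _ _).trans ?_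
      refine (Finset.sum_le_sum fun j _ => b1 j).trans ?_
      simp
    rw [abs_sub_comm] at c2
    calc _ ≤ |vd (LinearMap.range (S : EE G J →ₗ[ℂ] EE G I)) - A|
          + |A - vd (LinearMap.range (T : EE G I →ₗ[ℂ] EE G J))| := abs_sub_le _ _ _
      _ ≤ Fintype.card I * ρ + Fintype.card J * ρ := add_le_add c2 c1
      _ = _ := by ring
  set D := |vd (LinearMap.range (S : EE G J →ₗ[ℂ] EE G I))
        - vd (LinearMap.range (T : EE G I →ₗ[ℂ] EE G J))| with hD
  have hD0 : D ≤ 0 := by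
    by_contra hcon
    push Not at hcon
    have := hdist (D / (2 * ((Fintype.card I : ℝ) + Fintype.card J + 1))) (by positivity)
    have hpos : (0 : ℝ) < (Fintype.card I : ℝ) + Fintype.card J + 1 := by positivity
    rw [div_mul_eq_mul_div, le_div_iff₀ (by positivity)] at this
    nlinarith
  have : D = 0 := le_antisymm hD0 (abs_nonneg _)
  rw [hD, abs_eq_zero, sub_eq_zero] at this
  exact this

end

end Pool.Agent.W649.ZL
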