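import Pool.Agent.W649.ZL.Conv

set_option autoImplicit false
set_option linter.unusedSectionVars false

open scoped InnerProductSpace InnerProduct ENNReal

/-! The kernel dimension of an element is at most that of its lowest part. -/

namespace Pool.Agent.W649.ZL

open Module MvPolynomial

universe u

section
variable {G : Type u} [Group G]

theorem memlp_twist (e : G → ℤ) (c : ℂ) (hc : ‖c‖ = 1) (f : EE G Unit) :
    Memℓp (fun x : G × Unit => c ^ (e x.1) * f x) 2 := by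
  rw [memlp_two_iff]
  have h := (memlp_two_iff _).1 f.2
  convert h using 1
  ext x
  rw [norm_mul, norm_zpow, hc, one_zpow, one_mul]

/-- multiplication by the unitary character -/
noncomputable def tw (e : G → ℤ) (c : ℂ) (hc : ‖c‖ = 1) (f : EE G Unit) : EE G Unit :=
  ⟨fun x => c ^ (e x.1) * f x, memlp_twist e c hc f⟩

theorem tw_apply (e : G → ℤ) (c : ℂ) (hc : ‖c‖ = 1) (f : EE G Unit) (x : G) :
    tw e c hc f (x, ()) = c ^ (e x) * f (x, ()) := rfl

theorem isometry_tw (e : G → ℤ) (c : ℂ) (hc : ‖c‖ = 1) : Isometry (tw e c hc) := by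
  apply Isometry.of_dist_eq
  intro f g
  rw [dist_eq_norm, dist_eq_norm]
  have e1 : tw e c hc f - tw e c hc g = tw e c hc (f - g) := by
    ext ⟨x, ⟨⟩⟩
    change c ^ (e x) * f (x, ()) - c ^ (e x) * g (x, ()) = c ^ (e x) * (f - g) (x, ())
    rw [← mul_sub]; rfl
  rw [e1]
  have e2 : ‖tw e c hc (f - g)‖ ^ 2 = ‖f - g‖ ^ 2 := by
    rw [norm_sq_tsum, norm_sq_tsum]
    refine tsum_congr fun x => ?_
    change ‖c ^ (e x.1) * (f - g) x‖ ^ 2 = _
    rw [norm_mul, norm_zpow, hc, one_zpow, one_mul]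
  exact (sq_eq_sq₀ (norm_nonneg _) (norm_nonneg _)).1 e2

theorem tw_dl (e : G → ℤ) (he1 : e 1 = 0) (c : ℂ) (hc : ‖c‖ = 1) :
    tw e c hc (dl ((1 : G), ())) = dl ((1 : G), ()) := by
  ext ⟨x, ⟨⟩⟩
  rw [tw_apply]
  by_cases hx : x = 1
  · subst hx; rw [he1, zpow_zero, one_mul]
  · rw [dl_apply_ne, mul_zero]
    intro h; exact hx (congrArg Prod.fst h)

theorem vd_twist (e : G → ℤ) (he : ∀ x y, e (x * y) = e x + e y) (c : ℂ) (hc : ‖c‖ = 1)
    (T T' : EE G Unit →L[ℂ] EE G Unit)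
    (h : ∀ f, T' (tw e c hc f) = 0 ↔ T f = 0) :
    vd (LinearMap.ker (T' : EE G Unit →ₗ[ℂ] EE G Unit))
      = vd (LinearMap.ker (T : EE G Unit →ₗ[ℂ] EE G Unit)) := by
  have he1 : e 1 = 0 := by
    have := he 1 1
    rw [mul_one] at this
    omega
  rw [vd_eq_infDist _ (ContinuousLinearMap.isClosed_ker T'),
    vd_eq_infDist _ (ContinuousLinearMap.isClosed_ker T)]
  have himg : tw e c hc '' (LinearMap.ker (T : EE G Unit →ₗ[ℂ] EE G Unit) : Set (EE G Unit))
      = (LinearMap.ker (T' : EE G Unit →ₗ[ℂ] EE G Unit) : Set (EE G Unit)) := by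
    ext F
    constructor
    · rintro ⟨f, hf, rfl⟩
      exact (h f).2 hf
    · intro hF
      have hc0 : c ≠ 0 := by
        intro h0; rw [h0, norm_zero] at hc; exact zero_ne_one hc
      have hc' : ‖c⁻¹‖ = 1 := by rw [norm_inv, hc, inv_one]
      have hback : tw e c hc (tw e c⁻¹ hc' F) = F := by
        ext ⟨x, ⟨⟩⟩
        rw [tw_apply, tw_apply, ← mul_assoc, inv_zpow, mul_inv_cancel₀ (zpow_ne_zero _ hc0), one_mul]
      refine ⟨tw e c⁻¹ hc' F, ?_, hback⟩
      exact (h _).1 (by rw [hback]; exact hF)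
  refine Finset.sum_congr rfl fun j _ => ?_
  obtain ⟨⟩ := j
  rw [← himg]
  conv_lhs => rw [← tw_dl e he1 c hc]
  rw [Metric.infDist_image (isometry_tw e c hc)]

theorem circle_infinite : {c : ℂ | ‖c‖ = 1}.Infinite := by
  have h2 : Set.Infinite (Set.range (fun t : ℝ => ((1 - t ^ 2) / (1 + t ^ 2) : ℂ)
      + (2 * t / (1 + t ^ 2)) * Complex.I)) := by
    apply Set.infinite_range_of_injective
    intro s t hst
    simp only at hst
    have h1 := congrArg Complex.im hst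
    have h0 := congrArg Complex.re hst
    have e1 : ∀ t : ℝ, (((1 - (t : ℂ) ^ 2) / (1 + (t : ℂ) ^ 2) : ℂ)
      + (2 * t / (1 + t ^ 2)) * Complex.I) = (((1 - t ^ 2) / (1 + t ^ 2) : ℝ) : ℂ)
        + ((2 * t / (1 + t ^ 2) : ℝ) : ℂ) * Complex.I := by
      intro t; push_cast; ring
    rw [e1, e1] at h1 h0
    simp only [Complex.add_im, Complex.ofReal_im, Complex.mul_im, Complex.ofReal_re,
      Complex.I_im, Complex.I_re, mul_one, mul_zero, add_zero, zero_add, Complex.add_re,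
      Complex.mul_re, sub_self] at h1 h0
    have hs : (0 : ℝ) < 1 + s ^ 2 := by positivity
    have ht : (0 : ℝ) < 1 + t ^ 2 := by positivity
    rw [div_eq_div_iff hs.ne' ht.ne'] at h1 h0
    have h3 : s ^ 2 = t ^ 2 := by nlinarith
    rw [h3] at h1
    have : (2 * s - 2 * t) * (1 + t ^ 2) = 0 := by linarith
    rcases mul_eq_zero.1 this with h4 | h4
    · linarith
    · exact absurd h4 ht.ne'
  refine h2.mono ?_
  rintro _ ⟨t, rfl⟩
  have e1 : (((1 - (t : ℂ) ^ 2) / (1 + (t : ℂ) ^ 2) : ℂ)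
      + (2 * t / (1 + t ^ 2)) * Complex.I) = (((1 - t ^ 2) / (1 + t ^ 2) : ℝ) : ℂ)
        + ((2 * t / (1 + t ^ 2) : ℝ) : ℂ) * Complex.I := by
    push_cast; ring
  change ‖(((1 - (t : ℂ) ^ 2) / (1 + (t : ℂ) ^ 2) : ℂ)
      + (2 * t / (1 + t ^ 2)) * Complex.I)‖ = 1
  rw [e1, Complex.norm_eq_sqrt_sq_add_sq]
  have ht : (0 : ℝ) < 1 + t ^ 2 := by positivity
  rw [Real.sqrt_eq_one]
  simp only [Complex.add_im, Complex.ofReal_im, Complex.mul_im, Complex.ofReal_re,
      Complex.I_im, Complex.I_re, mul_one, mul_zero, add_zero, zero_add, Complex.add_re,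
      Complex.mul_re, sub_self]
  field_simp
  ring

end

end Pool.Agent.W649.ZL
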