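import Pool.Agent.W649.ZL.Core

set_option autoImplicit false
set_option linter.unusedSectionVars false

open scoped InnerProductSpace InnerProduct ENNReal

/-! Zariski semicontinuity of the kernel dimension. -/

namespace Pool.Agent.W649.ZL

open Module MvPolynomial

universe u v w z

section
variable {G : Type u} {I : Type v} {J : Type w} [Group G] [Fintype I] [Fintype J]
variable {ι : Type z} [Fintype ι]

/-- **Zariski semicontinuity.** The set of coefficient vectors for which the kernel has dimension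
at least `d` is Zariski closed. -/
theorem zariski (A : ι → EE G J →L[ℂ] EE G I) (hA : ∀ i, Eqv (A i)) (d : ℝ) :
    zeroLocus ℂ (vanishingIdeal ℂ
      {p : ι → ℂ | d ≤ vd (LinearMap.ker (lin A p : EE G J →ₗ[ℂ] EE G I))})
      = {p : ι → ℂ | d ≤ vd (LinearMap.ker (lin A p : EE G J →ₗ[ℂ] EE G I))} := by
  set S := {p : ι → ℂ | d ≤ vd (LinearMap.ker (lin A p : EE G J →ₗ[ℂ] EE G I))} with hSdef
  refine subset_antisymm ?_ (zeroLocus_vanishingIdeal_le S)
  intro q hq
  let C : Set (Ideal (MvPolynomial ι ℂ)) :=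
    {P | ∃ T : Set (ι → ℂ), T ⊆ S ∧ P = vanishingIdeal ℂ T ∧ ∀ f ∈ P, aeval q f = 0}
  have hne : C.Nonempty := ⟨vanishingIdeal ℂ S, S, subset_rfl, rfl, hq⟩
  obtain ⟨P, ⟨T, hT, hPT, hPq⟩, hmax⟩ := set_has_maximal_iff_noetherian.2
    (inferInstance : IsNoetherian (MvPolynomial ι ℂ) (MvPolynomial ι ℂ)) C hne
  have hprime : Ideal.IsPrime P := by
    refine ⟨?_, ?_⟩
    · intro htop
      have h1 := hPq 1 (by rw [htop]; exact Submodule.mem_top)
      rw [map_one] at h1
      exact one_ne_zero h1
    · intro f g hfg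
      change f ∈ P ∨ g ∈ P
      have hor : ∀ f g : MvPolynomial ι ℂ, f * g ∈ P →
          (∀ k ∈ vanishingIdeal ℂ (T ∩ {p | aeval p f = 0}), aeval q k = 0) → f ∈ P := by
        intro f g hfg hk
        by_contra hf
        apply hmax (vanishingIdeal ℂ (T ∩ {p | aeval p f = 0}))
          ⟨_, Set.inter_subset_left.trans hT, rfl, hk⟩
        refine lt_of_le_of_ne ?_ ?_
        · rw [hPT]; exact vanishingIdeal_anti_mono Set.inter_subset_left
        · intro heq
          apply hf
          rw [heq]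
          intro p hp
          exact hp.2
      by_cases h1 : ∀ k ∈ vanishingIdeal ℂ (T ∩ {p | aeval p f = 0}), aeval q k = 0
      · exact Or.inl (hor f g hfg h1)
      · right
        refine hor g f (by rwa [mul_comm]) ?_
        push Not at h1
        obtain ⟨k, hk, hkq⟩ := h1
        intro l hl
        have hmem : k * l ∈ P := by
          rw [hPT]
          intro p hp
          rw [map_mul]
          have hfgp : aeval p (f * g) = 0 := by
            have := hfg
            rw [hPT] at this
            exact this p hp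
          rw [map_mul] at hfgp
          rcases mul_eq_zero.1 hfgp with h2 | h2
          · rw [hk p ⟨hp, h2⟩, zero_mul]
          · rw [hl p ⟨hp, h2⟩, mul_zero]
        have h3 := hPq _ hmem
        rw [map_mul] at h3
        exact (mul_eq_zero.1 h3).resolve_left hkq
  have hdom : IsDomain (MvPolynomial ι ℂ ⧸ P) := Ideal.Quotient.isDomain P
  have hTev : ∀ p : T, ∀ f ∈ P, aeval (p : ι → ℂ) f = 0 := by
    intro p f hf
    rw [hPT] at hf
    exact hf p p.2
  refine core A hA d (R := MvPolynomial ι ℂ ⧸ P) (fun i => Ideal.Quotient.mk P (X i)) T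
    (fun p => Ideal.Quotient.liftₐ P (aeval (p : ι → ℂ)) (hTev p)) ?_ ?_ q
    (Ideal.Quotient.liftₐ P (aeval q) hPq) ?_ ?_ (fun p hp => hT hp)
  · intro p i
    rw [← Ideal.Quotient.mkₐ_eq_mk ℂ, ← AlgHom.comp_apply, Ideal.Quotient.liftₐ_comp, aeval_X]
  · intro f hf
    obtain ⟨f, rfl⟩ := Ideal.Quotient.mk_surjective f
    rw [Ideal.Quotient.eq_zero_iff_mem, hPT]
    intro p hp
    have := hf ⟨p, hp⟩
    rw [← Ideal.Quotient.mkₐ_eq_mk ℂ, ← AlgHom.comp_apply, Ideal.Quotient.liftₐ_comp] at this
    exact this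
  · intro i
    rw [← Ideal.Quotient.mkₐ_eq_mk ℂ, ← AlgHom.comp_apply, Ideal.Quotient.liftₐ_comp, aeval_X]
  · apply Ideal.iInf_pow_eq_bot_of_isDomain
    intro htop
    have h1 : (1 : MvPolynomial ι ℂ ⧸ P) ∈ RingHom.ker (Ideal.Quotient.liftₐ P (aeval q) hPq) := by
      rw [htop]; exact Submodule.mem_top
    rw [RingHom.mem_ker, map_one] at h1
    exact one_ne_zero h1

end

end Pool.Agent.W649.ZL
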